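import Pool.Agent.Lib.MP_deef39_co_PW.Lst

/-! # PR module Cyc: cyclic lists, sides, separation -/

set_option autoImplicit false

namespace FPR

open FPW

variable {α : Type*}

/-- `x` and `y` are cyclically consecutive in `c` (in one of the two orders) -/
def Nb (c : List α) (x y : α) : Prop :=
  ∃ C : List α, c.IsRotated (x :: y :: C) ∨ c.IsRotated (y :: x :: C)

/-- going round `c` from `a` one meets `x`, then `b`, then `y` -/
def Sp (c : List α) (a b x y : α) : Prop :=
  ∃ C D : List α, c.IsRotated (a :: (C ++ b :: D)) ∧ x ∈ C ∧ y ∈ D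

theorem nb_symm {c : List α} {x y : α} (h : Nb c x y) : Nb c y x := by
  obtain ⟨C, h | h⟩ := h
  · exact ⟨C, Or.inr h⟩
  · exact ⟨C, Or.inl h⟩

theorem nb_rot {c c' : List α} (h : c.IsRotated c') {x y : α} (hn : Nb c x y) : Nb c' x y := by
  obtain ⟨C, h1 | h1⟩ := hn
  · exact ⟨C, Or.inl (h.symm.trans h1)⟩
  · exact ⟨C, Or.inr (h.symm.trans h1)⟩

theorem sp_rot {c c' : List α} (h : c.IsRotated c') {a b x y : α} (hn : Sp c a b x y) :
    Sp c' a b x y := by
  obtain ⟨C, D, h1, h2⟩ := hn
  exact ⟨C, D, h.symm.trans h1, h2⟩

theorem rot_app (A B : List α) : (A ++ B).IsRotated (B ++ A) :=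
  ⟨A.length, List.rotate_append_length_eq A B⟩

/-- two rotations of a duplicate free list with the same head are equal -/
theorem rot_head {a : α} {F G : List α} (hn : (a :: F).Nodup)
    (h : (a :: F).IsRotated (a :: G)) : F = G := by
  obtain ⟨k, hk⟩ := h
  have hlen : (a :: F).length = (a :: G).length := by
    rw [← hk, List.length_rotate]
  have h0 : 0 < (a :: F).length := by simp
  have h1 : ((a :: F).rotate k)[0]'(by rw [List.length_rotate]; exact h0) =
      (a :: F)[(0 + k) % (a :: F).length]'(Nat.mod_lt _ h0) := by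
    rw [List.getElem_rotate]
  have h2 : ((a :: F).rotate k)[0]'(by rw [List.length_rotate]; exact h0) = a := by
    simp only [hk, List.getElem_cons_zero]
  have h3 : (a :: F)[(0 + k) % (a :: F).length]'(Nat.mod_lt _ h0) = (a :: F)[0]'h0 := by
    rw [← h1, h2]
    rfl
  have h4 : (0 + k) % (a :: F).length = 0 := by
    exact (List.Nodup.getElem_inj_iff hn).1 h3
  have h5 : (a :: F).rotate k = a :: F := by
    rw [← List.rotate_mod, ← Nat.zero_add k, h4, List.rotate_zero]
  rw [h5] at hk
  exact (List.cons.inj hk).2

theorem rot_to {c : List α} {x : α} (h : x ∈ c) : ∃ E, c.IsRotated (x :: E) := by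
  obtain ⟨A, B, rfl⟩ := List.append_of_mem h
  exact ⟨B ++ A, by simpa using rot_app A (x :: B)⟩

theorem nodup_rot {c c' : List α} (h : c.IsRotated c') (hn : c.Nodup) : c'.Nodup :=
  h.nodup_iff.1 hn

/-- neighbours of the head of a cycle -/
theorem nb_head {y z : α} {F : List α} (hn : (y :: F).Nodup) (h : Nb (y :: F) y z) :
    (∃ C, F = z :: C) ∨ (∃ C, F = C ++ [z]) := by
  obtain ⟨C, h | h⟩ := h
  · exact Or.inl ⟨C, rot_head hn h⟩
  · right
    refine ⟨C, rot_head hn (h.trans ?_)⟩
    simpa using rot_app [z] (y :: C)

theorem nb_of_head {y z : α} {F : List α} : Nb (y :: z :: F) y z :=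
  ⟨F, Or.inl (List.IsRotated.refl _)⟩

theorem nb_of_last {y z : α} {F : List α} : Nb (y :: (F ++ [z])) y z :=
  ⟨F, Or.inr (by simpa using rot_app (y :: F) [z])⟩

/-- consecutive entries of `c` itself are sides -/
theorem nb_of_mid {A B : List α} {x y : α} : Nb (A ++ x :: y :: B) x y :=
  ⟨B ++ A, Or.inl (by simpa using rot_app A (x :: y :: B))⟩

theorem nb_reverse {c : List α} {x y : α} (h : Nb c x y) : Nb c.reverse x y := by
  obtain ⟨C, h | h⟩ := h
  · refine ⟨C.reverse, Or.inr (h.reverse.trans ?_)⟩
    simpa using rot_app C.reverse [y, x]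
  · refine ⟨C.reverse, Or.inl (h.reverse.trans ?_)⟩
    simpa using rot_app C.reverse [x, y]

theorem not_sp_of_nb {c : List α} (hn : c.Nodup) {a b x y : α} (h : Nb c a b) :
    ¬ Sp c a b x y := by
  rintro ⟨C, D, h1, h2, h3⟩
  have hn' := nodup_rot h1 hn
  rcases nb_head hn' (nb_rot h1 h) with ⟨E, hE⟩ | ⟨E, hE⟩
  · cases C with
    | nil => simp at h2
    | cons u C =>
      rw [List.cons_append, List.cons.injEq] at hE
      rw [hE.1] at hn'
      simp at hn'
  · rcases List.eq_nil_or_concat D with rfl | ⟨D', w, rfl⟩
    · simp at h3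
    · have e1 : C ++ b :: D'.concat w = (C ++ b :: D') ++ [w] := by simp
      rw [e1] at hE
      have h4 : w = b := by
        have h5 := (List.append_inj' hE rfl).2
        simpa using h5
      rw [h4] at hn'
      have h6 := (List.nodup_append.1 (List.nodup_cons.1 hn').2).2.1
      exact (List.nodup_cons.1 h6).1 (by simp)

theorem sp_swap {c : List α} {a b x y : α} (h : Sp c x y a b) : Sp c a b y x := by
  obtain ⟨C, D, h1, h2, h3⟩ := h
  obtain ⟨C1, C2, rfl⟩ := List.append_of_mem h2
  obtain ⟨D1, D2, rfl⟩ := List.append_of_mem h3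
  refine ⟨C2 ++ y :: D1, D2 ++ x :: C1, h1.trans ?_, by simp, by simp⟩
  simpa using rot_app (x :: C1) (a :: C2 ++ y :: D1 ++ b :: D2)

/-- a chain: consecutive entries are sides of `c` -/
def Ch (c : List α) (T : List α) : Prop := ∀ x y, Ed T x y → Nb c x y

theorem ch_tail {c : List α} {a : α} {T : List α} (h : Ch c (a :: T)) : Ch c T := by
  intro x y hxy
  cases T with
  | nil => exact (hxy : False).elim
  | cons b T => exact h x y (Or.inr (Or.inr hxy))

theorem ch_init {c : List α} {z : α} {T : List α} (h : Ch c (T ++ [z])) : Ch c T := by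
  intro x y hxy
  rcases List.eq_nil_or_concat T with rfl | ⟨T', w, rfl⟩
  · exact (hxy : False).elim
  · rw [List.concat_eq_append] at hxy h
    refine h x y ?_
    rw [List.append_assoc]
    exact ed_snoc2.2 (Or.inl hxy)

/-- a duplicate free chain starting at the head of a cycle goes round in one direction -/
theorem chain_prefix {c : List α} (hn : c.Nodup) {b : α} {E : List α}
    (hc : c.IsRotated (b :: E)) (T : List α) :
    (b :: T).Nodup → Ch c (b :: T) → T <+: E ∨ T <+: E.reverse := by
  induction T using List.reverseRecOn with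
  | nil => intro _ _; exact Or.inl (List.nil_prefix)
  | append_singleton T z ih =>
    intro hnd hch
    have hnd' : (b :: T).Nodup := by
      have h1 : (b :: (T ++ [z])) = (b :: T) ++ [z] := by simp
      rw [h1] at hnd
      exact (List.nodup_append.1 hnd).1
    have hz : z ∉ b :: T := by
      have h1 : (b :: (T ++ [z])) = (b :: T) ++ [z] := by simp
      rw [h1] at hnd
      intro hz
      exact (List.nodup_append.1 hnd).2.2 z hz z (by simp) rfl
    have hch' : Ch c (b :: T) := ch_init (z := z) (by simpa using hch)
    have hnE : (b :: E).Nodup := nodup_rot hc hn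
    -- general step along a cyclic list `b :: F`
    have step : ∀ F : List α, (b :: F).Nodup → (∀ x y, Nb c x y → Nb (b :: F) x y) →
        T <+: F → T ≠ [] → T ++ [z] <+: F := by
      intro F hF hNb hT hne
      obtain ⟨F1, rfl⟩ := hT
      obtain ⟨T', w, rfl⟩ : ∃ T' w, T = T' ++ [w] := by
        rcases List.eq_nil_or_concat T with h | ⟨T', w, h⟩
        · exact absurd h hne
        · exact ⟨T', w, by simpa using h⟩
      have h1 : Nb c w z := by
        refine hch w z ?_
        have h2 : b :: (T' ++ [w] ++ [z]) = (b :: T') ++ w :: z :: [] := by simp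
        rw [h2]
        exact ed_of_split
      have h2 := hNb w z h1
      have h3 : (b :: (T' ++ [w] ++ F1)).IsRotated (w :: (F1 ++ b :: T')) := by
        simpa using rot_app (b :: T') (w :: F1)
      rcases nb_head (nodup_rot h3 hF) (nb_rot h3 h2) with ⟨C, hC⟩ | ⟨C, hC⟩
      · cases F1 with
        | nil =>
          rw [List.nil_append, List.cons.injEq] at hC
          exact absurd (by simp [hC.1] : z ∈ b :: (T' ++ [w])) hz
        | cons f F1 =>
          rw [List.cons_append, List.cons.injEq] at hC
          rw [hC.1]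
          exact ⟨F1, by simp⟩
      · exfalso
        apply hz
        rcases List.eq_nil_or_concat T' with rfl | ⟨T'', u, rfl⟩
        · have h5 := (List.append_inj' hC rfl).2
          simp at h5
          simp [h5]
        · have e1 : F1 ++ b :: T''.concat u = (F1 ++ b :: T'') ++ [u] := by simp
          rw [e1] at hC
          have h5 := (List.append_inj' hC rfl).2
          simp at h5
          simp [h5]
    rcases List.eq_nil_or_concat T with hT0 | hT0
    · subst hT0
      have h1 : Nb c b z := hch b z (Or.inl ⟨rfl, rfl⟩)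
      rcases nb_head hnE (nb_rot hc h1) with ⟨C, hC⟩ | ⟨C, hC⟩
      · left
        rw [hC]
        exact ⟨C, by simp⟩
      · right
        rw [hC]
        exact ⟨C.reverse, by simp⟩
    · have hne : T ≠ [] := by
        obtain ⟨L, w, h⟩ := hT0
        rw [h]
        simp
      rcases ih hnd' hch' with h | h
      · exact Or.inl (step E hnE (fun x y hxy => nb_rot hc hxy) h hne)
      · right
        have hr : (b :: E).reverse.IsRotated (b :: E.reverse) := by
          simpa using rot_app E.reverse [b]
        refine step E.reverse ?_ ?_ h hne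
        · exact nodup_rot hr (List.nodup_reverse.2 hnE)
        · intro x y hxy
          exact nb_rot hr (nb_reverse (nb_rot hc hxy))

theorem last_snoc (L : List α) (w : α) : (L ++ [w]).getLast? = some w := by simp

/-- the key fact: the last edge `a b` which is no side of the cycle, the rest of the path after
`b` running along the cycle: the end of the path is a neighbour of `a` on the cycle -/
theorem key {c : List α} (hn : c.Nodup) {A T : List α} {a b : α}
    (hp : (A ++ a :: b :: T).Perm c) (hab : ¬ Nb c a b) (hT : Ch c (b :: T))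
    (hA : ∀ x y, Ed A x y → ¬ Sp c a b x y) {e : α} (he : (b :: T).getLast? = some e) :
    Nb c a e := by
  have hl : (A ++ a :: b :: T).Nodup := hp.nodup_iff.2 hn
  have hac : a ∈ c := hp.mem_iff.1 (by simp)
  obtain ⟨c', hc'⟩ := rot_to hac
  have hn' : (a :: c').Nodup := nodup_rot hc' hn
  have hbc : b ∈ c' := by
    have h1 : b ∈ a :: c' := hc'.mem_iff.1 (hp.mem_iff.1 (by simp))
    rcases List.mem_cons.1 h1 with h2 | h2
    · exfalso
      have h3 := (List.nodup_append.1 hl).2.1
      exact (List.nodup_cons.1 h3).1 (by simp [h2])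
    · exact h2
  obtain ⟨C, D, rfl⟩ := List.append_of_mem hbc
  have hmem : ∀ x, x ∈ C ∨ x ∈ D → x ∉ b :: T → x ∈ A := by
    intro x hx hxT
    have h1 : x ∈ a :: (C ++ b :: D) := by
      rcases hx with h | h <;> simp [h]
    have h2 : x ≠ a := by
      rintro rfl
      refine (List.nodup_cons.1 hn').1 ?_
      rcases hx with h | h <;> simp [h]
    have h3 : x ∈ A ++ a :: b :: T := hp.mem_iff.2 (hc'.mem_iff.2 h1)
    rcases List.mem_append.1 h3 with h4 | h4
    · exact h4
    · rcases List.mem_cons.1 h4 with h5 | h5
      · exact absurd h5 h2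
      · exact absurd h5 hxT
  have hAn : ∀ x ∈ A, x ∈ C ∨ x ∈ D := by
    intro x hx
    have h1 : x ∈ a :: (C ++ b :: D) :=
      hc'.mem_iff.1 (hp.mem_iff.1 (List.mem_append.2 (Or.inl hx)))
    have h2 : x ≠ a := fun h => (List.nodup_append.1 hl).2.2 x hx a (by simp) h
    have h3 : x ≠ b := fun h => (List.nodup_append.1 hl).2.2 x hx b (by simp) h
    rcases List.mem_cons.1 h1 with h4 | h4
    · exact absurd h4 h2
    · rcases List.mem_append.1 h4 with h5 | h5
      · exact Or.inl h5
      · rcases List.mem_cons.1 h5 with h6 | h6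
        · exact absurd h6 h3
        · exact Or.inr h6
  have hCD : ∀ x, x ∈ C → x ∉ D := by
    intro x h1 h2
    have h3 := (List.nodup_cons.1 hn').2
    exact (List.nodup_append.1 h3).2.2 x h1 x (by simp [h2]) rfl
  -- all of `A` is on one side
  have hside : ∀ A' : List α, (∀ x y, Ed A' x y → ¬ Sp c a b x y) →
      (∀ x ∈ A', x ∈ C ∨ x ∈ D) → (∀ x ∈ A', x ∈ C) ∨ (∀ x ∈ A', x ∈ D) := by
    intro A'
    induction A' with
    | nil => intro _ _; exact Or.inl (by simp)
    | cons u A' ih =>
      intro h1 h2
      cases A' with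
      | nil =>
        rcases h2 u (by simp) with h | h
        · exact Or.inl (by simpa using h)
        · exact Or.inr (by simpa using h)
      | cons v A' =>
        have h3 := ih (fun x y hxy => h1 x y (Or.inr (Or.inr hxy)))
          (fun x hx => h2 x (List.mem_cons_of_mem _ hx))
        have huv : ¬ Sp c a b u v := h1 u v (Or.inl ⟨rfl, rfl⟩)
        have hvu : ¬ Sp c a b v u := h1 v u (Or.inr (Or.inl ⟨rfl, rfl⟩))
        rcases h2 u (by simp) with h4 | h4
        · rcases h3 with h5 | h5
          · left
            intro x hx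
            rcases List.mem_cons.1 hx with rfl | hx
            · exact h4
            · exact h5 x hx
          · exact absurd ⟨C, D, hc', h4, h5 v (by simp)⟩ huv
        · rcases h3 with h5 | h5
          · exact absurd ⟨C, D, hc', h5 v (by simp), h4⟩ hvu
          · right
            intro x hx
            rcases List.mem_cons.1 hx with rfl | hx
            · exact h4
            · exact h5 x hx
  have hC : C ≠ [] := by
    rintro rfl
    exact hab ⟨D, Or.inl hc'⟩
  have hD : D ≠ [] := by
    rintro rfl
    apply hab
    refine ⟨C, Or.inr (hc'.trans ?_)⟩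
    simpa using rot_app (a :: C) [b]
  have haT : a ∉ b :: T := by
    have h3 := (List.nodup_append.1 hl).2.1
    exact (List.nodup_cons.1 h3).1
  have hbT : (b :: T).Nodup := by
    have h3 := (List.nodup_append.1 hl).2.1
    exact (List.nodup_cons.1 h3).2
  have hcb : c.IsRotated (b :: (D ++ a :: C)) := by
    refine hc'.trans ?_
    simpa using rot_app (a :: C) (b :: D)
  -- prefix of `X ++ a :: Y` without `a`
  have hpre : ∀ X Y : List α, T <+: X ++ a :: Y → ∃ X', X = T ++ X' := by
    rintro X Y ⟨R, h⟩
    rcases List.append_eq_append_iff.1 h with ⟨X', h1, _⟩ | ⟨X', h1, h2⟩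
    · exact ⟨X', h1⟩
    · cases X' with
      | nil => exact ⟨[], by rw [h1]; simp⟩
      | cons u X' =>
        exfalso
        rw [List.cons_append, List.cons.injEq] at h2
        apply haT
        rw [h1, ← h2.1]
        simp
  rcases chain_prefix hn hcb T hbT hT with h | h
  · obtain ⟨D', hD'⟩ := hpre D C h
    have hTD : ∀ x ∈ T, x ∈ D := fun x hx => by rw [hD']; simp [hx]
    obtain ⟨u, hu⟩ := List.exists_mem_of_ne_nil C hC
    have huA : u ∈ A := by
      refine hmem u (Or.inl hu) ?_
      intro h1
      rcases List.mem_cons.1 h1 with h2 | h2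
      · have h3 := (List.nodup_cons.1 hn').2
        exact (List.nodup_append.1 h3).2.2 u hu b (by simp) h2
      · exact hCD u hu (hTD u h2)
    have hAC : ∀ x ∈ A, x ∈ C := by
      rcases hside A hA hAn with h1 | h1
      · exact h1
      · exact absurd (h1 u huA) (hCD u hu)
    have hD0 : D' = [] := by
      by_contra h1
      obtain ⟨w, hw⟩ := List.exists_mem_of_ne_nil D' h1
      have hwD : w ∈ D := by rw [hD']; simp [hw]
      have hwA : w ∈ A := by
        refine hmem w (Or.inr hwD) ?_
        intro h2
        rcases List.mem_cons.1 h2 with h3 | h3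
        · have h4 := (List.nodup_append.1 (List.nodup_cons.1 hn').2).2.1
          exact (List.nodup_cons.1 h4).1 (by rw [← h3]; exact hwD)
        · have h4 := (List.nodup_append.1 (List.nodup_cons.1 hn').2).2.1
          have h5 := (List.nodup_cons.1 h4).2
          rw [hD'] at h5
          exact (List.nodup_append.1 h5).2.2 w h3 w hw rfl
      exact hCD w (hAC w hwA) hwD
    rw [hD0, List.append_nil] at hD'
    subst hD'
    obtain ⟨D'', w, rfl⟩ : ∃ D'' w, D = D'' ++ [w] := by
      rcases List.eq_nil_or_concat D with h1 | ⟨D'', w, h1⟩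
      · exact absurd h1 hD
      · exact ⟨D'', w, by simpa using h1⟩
    have hew : w = e := by
      have h1 : (b :: (D'' ++ [w])).getLast? = some w := last_snoc (b :: D'') w
      rw [h1] at he
      exact Option.some.inj he
    rw [← hew]
    refine nb_rot hc'.symm ?_
    have h1 : a :: (C ++ b :: (D'' ++ [w])) = a :: ((C ++ b :: D'') ++ [w]) := by simp
    rw [h1]
    exact nb_of_last
  · have hrev : (D ++ a :: C).reverse = C.reverse ++ a :: D.reverse := by simp
    rw [hrev] at h
    obtain ⟨C', hC'⟩ := hpre C.reverse D.reverse h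
    have hTC : ∀ x ∈ T, x ∈ C := fun x hx => by
      rw [← List.mem_reverse, hC']; simp [hx]
    obtain ⟨u, hu⟩ := List.exists_mem_of_ne_nil D hD
    have huA : u ∈ A := by
      refine hmem u (Or.inr hu) ?_
      intro h1
      rcases List.mem_cons.1 h1 with h2 | h2
      · have h4 := (List.nodup_append.1 (List.nodup_cons.1 hn').2).2.1
        exact (List.nodup_cons.1 h4).1 (by rw [← h2]; exact hu)
      · exact hCD u (hTC u h2) hu
    have hAD : ∀ x ∈ A, x ∈ D := by
      rcases hside A hA hAn with h1 | h1
      · exact absurd hu (hCD u (h1 u huA))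
      · exact h1
    have hC0 : C' = [] := by
      by_contra h1
      obtain ⟨w, hw⟩ := List.exists_mem_of_ne_nil C' h1
      have hwC : w ∈ C := by rw [← List.mem_reverse, hC']; simp [hw]
      have hwA : w ∈ A := by
        refine hmem w (Or.inl hwC) ?_
        intro h2
        rcases List.mem_cons.1 h2 with h3 | h3
        · have h4 := (List.nodup_cons.1 hn').2
          exact (List.nodup_append.1 h4).2.2 w hwC b (by simp) h3
        · have h4 := (List.nodup_append.1 (List.nodup_cons.1 hn').2).1
          have h5 : C.reverse.Nodup := List.nodup_reverse.2 h4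
          rw [hC'] at h5
          exact (List.nodup_append.1 h5).2.2 w h3 w hw rfl
      exact hCD w hwC (hAD w hwA)
    rw [hC0, List.append_nil] at hC'
    obtain ⟨h0, C'', rfl⟩ := List.exists_cons_of_ne_nil hC
    have hew : h0 = e := by
      rw [← hC', List.reverse_cons] at he
      have h1 : (b :: (C''.reverse ++ [h0])).getLast? = some h0 := last_snoc (b :: C''.reverse) h0
      rw [h1] at he
      exact Option.some.inj he
    rw [← hew]
    exact nb_rot hc'.symm nb_of_head

end FPR
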