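import Pool.Agent.Lib.MP_deef39_co_PR.Red

/-! # PR module Exch: polygons with a common path -/

set_option autoImplicit false

namespace FPR

open FPW

variable {α : Type*} {p : α → ℝ × ℝ}

theorem ed_app_l {A B : List α} {x y : α} (h : Ed A x y) : Ed (A ++ B) x y := by
  obtain ⟨P, Q, h1 | h1⟩ := ed_split h
  · rw [h1]
    have e1 : P ++ x :: y :: Q ++ B = P ++ x :: y :: (Q ++ B) := by simp
    rw [e1]
    exact ed_of_split
  · rw [h1]
    have e1 : P ++ y :: x :: Q ++ B = P ++ y :: x :: (Q ++ B) := by simp
    rw [e1]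
    exact ed_of_split'

theorem ed_app_r {A B : List α} {x y : α} (h : Ed B x y) : Ed (A ++ B) x y := by
  obtain ⟨P, Q, h1 | h1⟩ := ed_split h
  · rw [h1, ← List.append_assoc]
    exact ed_of_split
  · rw [h1, ← List.append_assoc]
    exact ed_of_split'

theorem ed_join {A B : List α} {w b x y : α} : Ed ((A ++ [w]) ++ b :: B) x y ↔
    Ed (A ++ [w]) x y ∨ ((x = w ∧ y = b) ∨ (x = b ∧ y = w)) ∨ Ed (b :: B) x y := by
  have e1 : (A ++ [w]) ++ b :: B = A ++ w :: (b :: B) := by simp
  rw [e1, ed_mid, ed_cons2]
  tauto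

/-- two polygons with a common path; `S` are the edges of the path which are not sides
of `c'` -/
theorem common {c c' m : List α} (hn' : c'.Nodup) (hR : Plane p (Nb c))
    (hR' : Plane p (Nb c')) (hm : c.IsRotated m) (hpm : m.Perm c') (S : α → α → Prop)
    (hed : ∀ x y, Ed m x y → Nb c' x y ∨ S x y) (hS : ∀ s t, S s t → Nb c s t)
    (hSS : ∀ s t x y, S s t → S x y → x = s ∨ x = t ∨ y = s ∨ y = t)
    (hcr : ∀ s t x y, S s t → Nb c' x y → Nb c x y ∨ (x = s ∨ x = t ∨ y = s ∨ y = t)) :
    Relation.ReflTransGen (U p) c c' := by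
  refine (ring hR (List.IsRotated.refl c) hm).trans ?_
  have hno : ∀ s t x y, X p s t x y → (x = s ∨ x = t ∨ y = s ∨ y = t) → False := by
    intro s t x y hX h
    have hne := X_ne hX
    rcases h with h | h | h | h
    · exact hne.2.2.1 h.symm
    · exact hne.2.2.2.2.1 h.symm
    · exact hne.2.2.2.1 h.symm
    · exact hne.2.2.2.2.2 h.symm
  have hX1 : ∀ s t x y, S s t → Nb c' x y → ¬ X p s t x y := by
    intro s t x y h1 h2 hX
    rcases hcr s t x y h1 h2 with h3 | h3
    · exact hR s t x y (hS s t h1) h3 hX
    · exact hno s t x y hX h3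
  refine to_c hn' hpm ⟨?_, ?_⟩
  · intro s t x y hst hxy hX
    have key : ∀ s t, EO m (Nb c') s t → Nb c' s t ∨ S s t := by
      rintro s t (h1 | h1)
      · exact hed s t h1
      · exact Or.inl h1
    rcases key s t hst with h1 | h1
    · rcases key x y hxy with h3 | h3
      · exact hR' s t x y h1 h3 hX
      · exact hX1 x y s t h3 h1 (X_comm.1 hX)
    · rcases key x y hxy with h3 | h3
      · exact hX1 s t x y h1 h3 hX
      · exact hno s t x y hX (hSS s t x y h1 h3)
  · intro s t x y hst hxy hs
    rcases hed s t hst with h1 | h1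
    · exact not_sp_of_nb hn' h1 hs
    · rcases hed x y hxy with h3 | h3
      · exact not_sp_of_nb hn' h3 (sp_swap hs)
      · have hne := sp_ne hn' hs
        rcases hSS s t x y h1 h3 with h | h | h | h
        · exact hne.1 h
        · exact hne.2.1 h
        · exact hne.2.2.1 h
        · exact hne.2.2.2 h

theorem last_of {A C : List α} {x y b : α} (h : A ++ [b] = x :: (C ++ [y])) : y = b := by
  have h3 : A ++ [b] = (x :: C) ++ [y] := by simpa using h
  have h4 := (List.append_inj' h3 rfl).2
  simpa using h4.symm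

/-- exchange of two sides -/
theorem exch2 {c c' A B : List α} (hn' : c'.Nodup)
    (hR : Plane p (Nb c)) (hR' : Plane p (Nb c')) (h : c.IsRotated (A ++ B))
    (h' : c'.IsRotated (A ++ B.reverse)) : Relation.ReflTransGen (U p) c c' := by
  have hpm : (A ++ B).Perm c' :=
    ((List.reverse_perm B).symm.append_left A).trans h'.perm.symm
  rcases List.eq_nil_or_concat A with rfl | ⟨A', w, rfl⟩
  · rw [List.nil_append] at h h'
    refine (ring hR (List.IsRotated.refl c) h).trans ?_
    have h1 : U p B B.reverse := Or.inr rfl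
    exact (Relation.ReflTransGen.single h1).trans (ring hR' h' (List.IsRotated.refl c'))
  rw [List.concat_eq_append] at h h' hpm
  cases B with
  | nil =>
    rw [List.append_nil] at h
    rw [List.reverse_nil, List.append_nil] at h'
    exact ring hR (List.IsRotated.refl c) (h.trans h'.symm)
  | cons b B =>
    refine common hn' hR hR' h hpm
      (fun x y => (x = w ∧ y = b) ∨ (x = b ∧ y = w)) ?_ ?_ ?_ ?_
    · intro x y hxy
      rcases ed_join.1 hxy with h1 | h1 | h1
      · left
        refine nb_rot h'.symm ?_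
        exact ch_of_rot (List.IsRotated.refl _) x y (ed_app_l h1)
      · exact Or.inr h1
      · left
        refine nb_rot h'.symm ?_
        exact ch_of_rot (List.IsRotated.refl _) x y (ed_app_r (ed_reverse.2 h1))
    · intro s t hst
      refine nb_rot h.symm (ch_of_rot (List.IsRotated.refl _) s t ?_)
      exact ed_join.2 (Or.inr (Or.inl hst))
    · rintro s t x y (⟨rfl, rfl⟩ | ⟨rfl, rfl⟩) (⟨rfl, rfl⟩ | ⟨rfl, rfl⟩) <;> simp
    · intro s t x y hst hxy
      have hw : ∀ z, z = w ∨ z = b → z = s ∨ z = t := by
        rcases hst with ⟨rfl, rfl⟩ | ⟨rfl, rfl⟩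
        · exact fun z hz => hz
        · exact fun z hz => hz.symm
      have hsh : (x = w ∨ x = b) ∨ (y = w ∨ y = b) →
          (x = s ∨ x = t ∨ y = s ∨ y = t) := by
        rintro (h1 | h1)
        · rcases hw x h1 with h2 | h2
          · exact Or.inl h2
          · exact Or.inr (Or.inl h2)
        · rcases hw y h1 with h2 | h2
          · exact Or.inr (Or.inr (Or.inl h2))
          · exact Or.inr (Or.inr (Or.inr h2))
      have e1 : A' ++ [w] ++ (b :: B).reverse = (A' ++ [w] ++ B.reverse) ++ [b] := by simp
      rcases nb_ed (nodup_rot h' hn') (nb_rot h' hxy) with h1 | ⟨C, h1⟩ | ⟨C, h1⟩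
      · obtain ⟨g, G, hG⟩ : ∃ g G, (b :: B).reverse = g :: G :=
          List.exists_cons_of_ne_nil (by simp)
        rw [hG] at h1
        rcases ed_join.1 h1 with h2 | h2 | h2
        · left
          exact nb_rot h.symm (ch_of_rot (List.IsRotated.refl _) x y (ed_app_l h2))
        · right
          rcases h2 with ⟨h2, _⟩ | ⟨_, h2⟩
          · exact hsh (Or.inl (Or.inl h2))
          · exact hsh (Or.inr (Or.inl h2))
        · left
          rw [← hG, ed_reverse] at h2
          exact nb_rot h.symm (ch_of_rot (List.IsRotated.refl _) x y (ed_app_r h2))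
      · right
        rw [e1] at h1
        exact hsh (Or.inr (Or.inr (last_of h1)))
      · right
        rw [e1] at h1
        exact hsh (Or.inl (Or.inr (last_of h1)))

/-- one vertex is moved to another side -/
theorem vmove {c c' D E : List α} {v : α} (hn' : c'.Nodup)
    (hR : Plane p (Nb c)) (hR' : Plane p (Nb c')) (h : c.IsRotated (v :: (D ++ E)))
    (h' : c'.IsRotated (v :: (E ++ D))) : Relation.ReflTransGen (U p) c c' := by
  cases D with
  | nil =>
    rw [List.append_nil] at h'
    rw [List.nil_append] at h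
    exact ring hR (List.IsRotated.refl c) (h.trans h'.symm)
  | cons d D =>
    rcases List.eq_nil_or_concat E with rfl | ⟨E', e, rfl⟩
    · rw [List.append_nil] at h
      rw [List.nil_append] at h'
      exact ring hR (List.IsRotated.refl c) (h.trans h'.symm)
    rw [List.concat_eq_append] at h h'
    have hm : c.IsRotated (E' ++ [e] ++ v :: (d :: D)) := by
      refine h.trans ?_
      have e1 : v :: (d :: D ++ (E' ++ [e])) = (v :: (d :: D)) ++ (E' ++ [e]) := by simp
      rw [e1]
      exact rot_app _ _
    have hpm : (E' ++ [e] ++ v :: (d :: D)).Perm c' :=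
      List.perm_middle.trans h'.perm.symm
    refine common hn' hR hR' hm hpm
      (fun s t => (s = v ∧ (t = d ∨ t = e)) ∨ (t = v ∧ (s = d ∨ s = e))) ?_ ?_ ?_ ?_
    · intro x y hxy
      rcases ed_join.1 hxy with h1 | h1 | h1
      · left
        refine nb_rot h'.symm (ch_of_rot (List.IsRotated.refl _) x y ?_)
        exact ed_app_r (A := [v]) (ed_app_l h1)
      · right
        rcases h1 with ⟨h1, h2⟩ | ⟨h1, h2⟩
        · exact Or.inr ⟨h2, Or.inr h1⟩
        · exact Or.inl ⟨h1, Or.inr h2⟩
      · rcases ed_cons2.1 h1 with ⟨h1, h2⟩ | ⟨h1, h2⟩ | h1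
        · exact Or.inr (Or.inl ⟨h1, Or.inl h2⟩)
        · exact Or.inr (Or.inr ⟨h2, Or.inl h1⟩)
        · left
          refine nb_rot h'.symm (ch_of_rot (List.IsRotated.refl _) x y ?_)
          exact ed_app_r (A := [v]) (ed_app_r h1)
    · have k1 : Nb c v d := nb_rot h.symm nb_of_head
      have k2 : Nb c v e := by
        have e1 : v :: (d :: D ++ (E' ++ [e])) = v :: ((d :: D ++ E') ++ [e]) := by simp
        rw [e1] at h
        exact nb_rot h.symm nb_of_last
      rintro s t (⟨rfl, rfl | rfl⟩ | ⟨rfl, rfl | rfl⟩)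
      · exact k1
      · exact k2
      · exact nb_symm k1
      · exact nb_symm k2
    · rintro s t x y (⟨rfl, _⟩ | ⟨rfl, _⟩) (⟨rfl, _⟩ | ⟨rfl, _⟩) <;> simp
    · intro s t x y hst hxy
      have hv : ∀ z, z = v → z = s ∨ z = t := by
        rcases hst with ⟨rfl, _⟩ | ⟨rfl, _⟩
        · exact fun z hz => Or.inl hz
        · exact fun z hz => Or.inr hz
      have hsv : x = v ∨ y = v → (x = s ∨ x = t ∨ y = s ∨ y = t) := by
        rintro (h1 | h1)
        · rcases hv x h1 with h2 | h2
          · exact Or.inl h2
          · exact Or.inr (Or.inl h2)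
        · rcases hv y h1 with h2 | h2
          · exact Or.inr (Or.inr (Or.inl h2))
          · exact Or.inr (Or.inr (Or.inr h2))
      have hde : ∀ z z', (z = e ∧ z' = d) → (z = s ∨ z = t) ∨ (z' = s ∨ z' = t) := by
        rintro z z' ⟨rfl, rfl⟩
        rcases hst with ⟨_, h1 | h1⟩ | ⟨_, h1 | h1⟩
        · exact Or.inr (Or.inr h1.symm)
        · exact Or.inl (Or.inr h1.symm)
        · exact Or.inr (Or.inl h1.symm)
        · exact Or.inl (Or.inl h1.symm)
      rcases nb_ed (nodup_rot h' hn') (nb_rot h' hxy) with h1 | ⟨C, h1⟩ | ⟨C, h1⟩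
      · have h2 : Ed ((E' ++ [e]) ++ d :: D) x y ∨ x = v ∨ y = v := by
          obtain ⟨g, G, hG⟩ : ∃ g G, (E' ++ [e]) ++ d :: D = g :: G :=
            List.exists_cons_of_ne_nil (by simp)
          rw [hG] at h1 ⊢
          rcases ed_cons2.1 h1 with ⟨h2, _⟩ | ⟨_, h2⟩ | h2
          · exact Or.inr (Or.inl h2)
          · exact Or.inr (Or.inr h2)
          · exact Or.inl h2
        rcases h2 with h2 | h2
        · rcases ed_join.1 h2 with h3 | h3 | h3
          · left
            refine nb_rot h.symm (ch_of_rot (List.IsRotated.refl _) x y ?_)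
            exact ed_app_r (A := [v]) (ed_app_r (A := d :: D) h3)
          · right
            rcases h3 with h3 | ⟨h3, h4⟩
            · rcases hde x y h3 with (h5 | h5) | (h5 | h5)
              · exact Or.inl h5
              · exact Or.inr (Or.inl h5)
              · exact Or.inr (Or.inr (Or.inl h5))
              · exact Or.inr (Or.inr (Or.inr h5))
            · rcases hde y x ⟨h4, h3⟩ with (h5 | h5) | (h5 | h5)
              · exact Or.inr (Or.inr (Or.inl h5))
              · exact Or.inr (Or.inr (Or.inr h5))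
              · exact Or.inl h5
              · exact Or.inr (Or.inl h5)
          · left
            refine nb_rot h.symm (ch_of_rot (List.IsRotated.refl _) x y ?_)
            exact ed_app_r (A := [v]) (ed_app_l (A := d :: D) h3)
        · exact Or.inr (hsv h2)
      · right
        exact hsv (Or.inl (List.cons.inj h1).1.symm)
      · right
        exact hsv (Or.inr (List.cons.inj h1).1.symm)

end FPR
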