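import Pool.Agent.Lib.MP_deef39_co_PR.Red

/-! # PR module One: at most one interleaved pair of edges -/

set_option autoImplicit false

namespace FPR

open FPW

variable {α : Type*} {p : α → ℝ × ℝ}

/-- the path `l` crosses no side of `c` and at most one pair of its edges is interleaved on `c` -/
structure Inn1 (p : α → ℝ × ℝ) (c : List α) (f g : Sym2 α) (l : List α) : Prop where
  pl : Plane p (EO l (Nb c))
  sp : ∀ a b x y, Ed l a b → Ed l x y → Sp c a b x y →
    (s(a, b) = f ∧ s(x, y) = g) ∨ (s(a, b) = g ∧ s(x, y) = f)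

theorem inn1_rot {c l l' : List α} {f g : Sym2 α} (hn : c.Nodup) (hi : Inn1 p c f g l) {v z : α}
    (hr : RotL v z l l') (hvz : Nb c v z) : Inn1 p c f g l' ∧ Rot p (Nb c) l l' := by
  have hR : Rot p (Nb c) l l' := by
    refine ⟨v, z, hr, ?_⟩
    intro x y hxy hX
    exact hi.pl z v x y (Or.inr (nb_symm hvz)) hxy hX
  refine ⟨⟨rot_plane hi.pl hR, ?_⟩, hR⟩
  have key : ∀ a b, Ed l' a b → Ed l a b ∨ Nb c a b := by
    intro a b hab
    rcases rotL_ed hr hab with h | ⟨rfl, rfl⟩ | ⟨rfl, rfl⟩
    · exact Or.inl h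
    · exact Or.inr hvz
    · exact Or.inr (nb_symm hvz)
  intro a b x y hab hxy hs
  rcases key a b hab with h1 | h1
  · rcases key x y hxy with h2 | h2
    · exact hi.sp a b x y h1 h2 hs
    · exact absurd (sp_swap hs) (not_sp_of_nb hn h2)
  · exact absurd hs (not_sp_of_nb hn h1)

theorem inn1_reverse {c l : List α} {f g : Sym2 α} (hi : Inn1 p c f g l) :
    Inn1 p c f g l.reverse := by
  refine ⟨?_, ?_⟩
  · rintro a b x y (h1 | h1) (h2 | h2)
    · exact hi.pl a b x y (Or.inl (ed_reverse.1 h1)) (Or.inl (ed_reverse.1 h2))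
    · exact hi.pl a b x y (Or.inl (ed_reverse.1 h1)) (Or.inr h2)
    · exact hi.pl a b x y (Or.inr h1) (Or.inl (ed_reverse.1 h2))
    · exact hi.pl a b x y (Or.inr h1) (Or.inr h2)
  · intro a b x y h1 h2
    exact hi.sp a b x y (ed_reverse.1 h1) (ed_reverse.1 h2)

theorem reduce1 {c : List α} (hn : c.Nodup) {f g : Sym2 α} (A : List α) : ∀ T : List α, T ≠ [] →
    (A ++ T).Perm c → Ch c T → Inn1 p c f g (A ++ T) →
    (∃ T' : List α, Relation.ReflTransGen (U p) (A ++ T) T' ∧ T'.Perm c ∧ Ch c T') ∨
    ∃ (A' : List α) (a b : α) (T' : List α), A' ++ [a] <+: A ∧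
      Relation.ReflTransGen (U p) (A ++ T) (A' ++ a :: b :: T') ∧
      (A' ++ a :: b :: T').Perm c ∧ Ch c (b :: T') ∧ Inn1 p c f g (A' ++ a :: b :: T') ∧
      ¬ Nb c a b ∧ ∃ x y, Ed A' x y ∧ Sp c a b x y := by
  induction A using List.reverseRecOn with
  | nil =>
    intro T _ hp hT _
    exact Or.inl ⟨T, Relation.ReflTransGen.refl, hp, hT⟩
  | append_singleton A a ih =>
    intro T hne hp hT hi
    obtain ⟨b, T1, rfl⟩ := List.exists_cons_of_ne_nil hne
    have e1 : A ++ [a] ++ b :: T1 = A ++ (a :: b :: T1) := by simp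
    rw [e1] at hp hi ⊢
    by_cases hab : Nb c a b
    · have hch : Ch c (a :: b :: T1) := by
        intro x y hxy
        rcases ed_cons2.1 hxy with ⟨rfl, rfl⟩ | ⟨rfl, rfl⟩ | h
        · exact hab
        · exact nb_symm hab
        · exact hT x y h
      rcases ih (a :: b :: T1) (by simp) hp hch hi with h | ⟨A', a', b', T', h1, h2⟩
      · exact Or.inl h
      · exact Or.inr ⟨A', a', b', T', h1.trans (List.prefix_append _ _), h2⟩
    · by_cases hS : ∃ x y, Ed A x y ∧ Sp c a b x y
      · exact Or.inr ⟨A, a, b, T1, List.prefix_rfl, Relation.ReflTransGen.refl, hp, hT, hi, hab, hS⟩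
      · obtain ⟨T0, e, hTe⟩ : ∃ T0 e, b :: T1 = T0 ++ [e] := by
          rcases List.eq_nil_or_concat (b :: T1) with h1 | ⟨T0, e, h1⟩
          · exact absurd h1 (by simp)
          · exact ⟨T0, e, by simpa using h1⟩
        have hae : Nb c a e := by
          refine key hn hp hab hT (fun x y hxy hs => hS ⟨x, y, hxy, hs⟩) (e := e) ?_
          rw [hTe]
          exact last_snoc T0 e
        have hr : RotL a e (A ++ a :: b :: T1) (A ++ a :: e :: T0.reverse) :=
          ⟨A, T0, by rw [hTe], rfl⟩
        obtain ⟨hi', hR⟩ := inn1_rot hn hi hr hae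
        have hch : Ch c (a :: e :: T0.reverse) := by
          intro x y hxy
          rcases ed_cons2.1 hxy with ⟨rfl, rfl⟩ | ⟨rfl, rfl⟩ | h
          · exact hae
          · exact nb_symm hae
          · have h4 : e :: T0.reverse = (b :: T1).reverse := by rw [hTe]; simp
            rw [h4, ed_reverse] at h
            exact hT x y h
        rcases ih (a :: e :: T0.reverse) (by simp) ((rotL_perm hr).trans hp) hch hi' with
          ⟨T', h1, h2, h3⟩ | ⟨A', a', b', T', h1, h2, h3⟩
        · exact Or.inl ⟨T', Relation.ReflTransGen.head (rot_u hR) h1, h2, h3⟩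
        · exact Or.inr ⟨A', a', b', T', h1.trans (List.prefix_append _ _),
            Relation.ReflTransGen.head (rot_u hR) h2, h3⟩

theorem chain_inn {c T : List α} (hn : c.Nodup) (hR : Plane p (Nb c)) (h : Ch c T) :
    Inn p c T := by
  refine ⟨?_, fun a b x y h1 _ hs => not_sp_of_nb hn (h a b h1) hs⟩
  rintro a b x y (h1 | h1) (h2 | h2)
  · exact hR a b x y (h a b h1) (h x y h2)
  · exact hR a b x y (h a b h1) h2
  · exact hR a b x y h1 (h x y h2)
  · exact hR a b x y h1 h2

theorem rot_removed {A B : List α} {v u z : α} (hn : (A ++ v :: u :: (B ++ [z])).Nodup) :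
    ¬ Ed (A ++ v :: z :: (u :: B).reverse) v u := by
  have h1 := List.nodup_append.1 hn
  have h2 := List.nodup_cons.1 h1.2.1
  have h3 := List.nodup_cons.1 h2.2
  rw [ed_mid, ed_cons2]
  rintro (h | ⟨_, h⟩ | ⟨h, _⟩ | h)
  · rcases List.mem_append.1 (ed_mem' h) with h4 | h4
    · exact h1.2.2 u h4 u (by simp) rfl
    · rw [List.mem_singleton] at h4
      exact h2.1 (by simp [h4])
  · exact h3.1 (by simp [h])
  · exact h2.1 (by simp [h])
  · have h4 := ed_mem h
    refine h2.1 ?_
    simp only [List.mem_cons, List.mem_reverse, List.mem_append, List.not_mem_nil, or_false] at h4 ⊢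
    tauto

/-- one rotation with a side of `c` -/
theorem stepU {c l l1 l2 : List α} (hpl : Plane p (EO l (Nb c)))
    (h1 : ∀ x y, Ed l1 x y → EO l (Nb c) x y) {v z : α} (hr : RotL v z l1 l2) (hvz : Nb c v z) :
    U p l1 l2 ∧ ∀ x y, Ed l2 x y → EO l (Nb c) x y := by
  refine ⟨Or.inl ⟨v, z, hr, ?_⟩, ?_⟩
  · intro x y hxy hX
    exact hpl z v x y (Or.inr (nb_symm hvz)) (h1 x y (eo_no.1 hxy)) hX
  · intro x y hxy
    rcases rotL_ed hr hxy with h | ⟨rfl, rfl⟩ | ⟨rfl, rfl⟩
    · exact h1 x y h
    · exact Or.inr hvz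
    · exact Or.inr (nb_symm hvz)

theorem rev_edges {c l l1 : List α} (h1 : ∀ x y, Ed l1 x y → EO l (Nb c) x y) :
    ∀ x y, Ed l1.reverse x y → EO l (Nb c) x y := fun x y h => h1 x y (ed_reverse.1 h)

theorem sp_reverse {c : List α} {a b x y : α} (h : Sp c.reverse a b x y) : Sp c a b y x := by
  obtain ⟨C, D, h1, h2, h3⟩ := h
  refine ⟨D.reverse, C.reverse, ?_, by simpa using h3, by simpa using h2⟩
  have h4 := h1.reverse
  rw [List.reverse_reverse] at h4
  refine h4.trans ?_
  simpa using rot_app (D.reverse ++ b :: C.reverse) [a]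

theorem prefix_notmem {X Y T : List α} {a : α} (haT : a ∉ T) (h : T <+: X ++ a :: Y) :
    ∃ X', X = T ++ X' := by
  obtain ⟨R, h⟩ := h
  rcases List.append_eq_append_iff.1 h with ⟨X', h1, _⟩ | ⟨X', h1, h2⟩
  · exact ⟨X', h1⟩
  · cases X' with
    | nil => exact ⟨[], by rw [h1]; simp⟩
    | cons u X' =>
      exfalso
      rw [List.cons_append, List.cons.injEq] at h2
      apply haT
      rw [h1, ← h2.1]
      simp

theorem side_all {P Q : α → Prop} : ∀ (L : List α) (a : α), (∀ z ∈ a :: L, P z ∨ Q z) → Q a →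
    (∀ x y, Ed (a :: L) x y → ¬ (P x ∧ Q y)) → (∀ z, ¬ (P z ∧ Q z)) → ∀ z ∈ a :: L, Q z
  | [], a, _, h2, _, _ => by simpa using h2
  | b :: L, a, h1, h2, h3, h4 => by
    have hb : Q b := by
      rcases h1 b (by simp) with h | h
      · exact absurd ⟨h, h2⟩ (h3 b a (Or.inr (Or.inl ⟨rfl, rfl⟩)))
      · exact h
    intro z hz
    rcases List.mem_cons.1 hz with rfl | hz
    · exact h2
    · exact side_all L b (fun z hz => h1 z (List.mem_cons_of_mem _ hz)) hb
        (fun x y hxy => h3 x y (Or.inr (Or.inr hxy))) h4 z hz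

/-- the position of `b'` in the case that the arc `a' S` lies between `a` and `b` -/
theorem nextb {c S C R T : List α} {a b a' b' e : α} (hn : c.Nodup)
    (h : c.IsRotated (a' :: (S ++ a :: (C ++ [b])))) (hT : Ch c (b :: T))
    (hp : (T.reverse ++ b :: a :: (R ++ b' :: a' :: S)).Perm c)
    (hsp : ∀ x y, Ed (a :: R) x y → ¬ Sp c a' b' x y)
    (he : (b :: T).getLast? = some e) : Nb c e b' := by
  have hl : (T.reverse ++ b :: a :: (R ++ b' :: a' :: S)).Nodup := hp.nodup_iff.2 hn
  have hn' := nodup_rot h hn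
  have hb : c.IsRotated (b :: (a' :: (S ++ a :: C))) := by
    refine h.trans ?_
    simpa using rot_app (a' :: (S ++ a :: C)) [b]
  have haT : a ∉ T := by
    intro h1
    exact (List.nodup_append.1 hl).2.2 a (by simpa using h1) a (by simp) rfl
  have ha'T : a' ∉ T := by
    intro h1
    exact (List.nodup_append.1 hl).2.2 a' (by simpa using h1) a' (by simp) rfl
  have hbT : (b :: T).Nodup := by
    have h1 : (T.reverse ++ [b]).Nodup := by
      refine hl.sublist ?_
      exact List.Sublist.append_left (by simp) _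
    have h2 : (b :: T) = (T.reverse ++ [b]).reverse := by simp
    rw [h2]
    exact List.nodup_reverse.2 h1
  have hpre : T <+: C.reverse ++ a :: (S.reverse ++ [a']) := by
    rcases chain_prefix hn hb T hbT hT with h1 | h1
    · cases T with
      | nil => exact List.nil_prefix
      | cons t T =>
        obtain ⟨Z, hZ⟩ := h1
        rw [List.cons_append, List.cons.injEq] at hZ
        exact absurd (by simp [hZ.1]) ha'T
    · simpa using h1
  obtain ⟨D, hD⟩ := prefix_notmem haT hpre
  have hC : C = D.reverse ++ T.reverse := by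
    have h1 : C.reverse.reverse = (T ++ D).reverse := by rw [hD]
    simpa using h1
  subst hC
  -- the vertices of `D` are those of `R` and `b'`
  have hDR : ∀ z, z ∈ D ↔ (z ∈ R ∨ z = b') := by
    have hpp : (R ++ [b']).Perm D := by
      have h1 : (T.reverse ++ b :: a :: (R ++ b' :: a' :: S)).Perm
          (a' :: (S ++ a :: (D.reverse ++ T.reverse ++ [b]))) := hp.trans h.perm
      have h2 : (T.reverse ++ b :: a :: (R ++ b' :: a' :: S)).Perm
          ((R ++ [b']) ++ (T.reverse ++ b :: a :: a' :: S)) := by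
        rw [← Multiset.coe_eq_coe]
        simp only [← Multiset.coe_add, ← Multiset.cons_coe, Multiset.coe_nil,
          ← Multiset.singleton_add]
        abel
      have h3 : (a' :: (S ++ a :: (D.reverse ++ T.reverse ++ [b]))).Perm
          (D ++ (T.reverse ++ b :: a :: a' :: S)) := by
        have h4 : D.reverse.Perm D := List.reverse_perm D
        rw [← Multiset.coe_eq_coe] at h4 ⊢
        simp only [← Multiset.coe_add, ← Multiset.cons_coe, Multiset.coe_nil,
          ← Multiset.singleton_add]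
        rw [h4]
        abel
      exact (List.perm_append_right_iff _).1 (h2.symm.trans (h1.trans h3))
    intro z
    rw [← hpp.mem_iff]
    simp
  cases D with
  | nil =>
    have := (hDR b').2 (Or.inr rfl)
    simp at this
  | cons g D =>
    have hge : Nb c e g := by
      obtain ⟨T0, hT0⟩ : ∃ T0, b :: T = T0 ++ [e] := by
        rcases List.eq_nil_or_concat (b :: T) with h1 | ⟨T0, w, h1⟩
        · exact absurd h1 (by simp)
        · rw [h1, List.concat_eq_append, last_snoc] at he
          exact ⟨T0, by rw [h1, List.concat_eq_append, Option.some.inj he]⟩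
      have h1 : T.reverse ++ [b] = e :: T0.reverse := by
        have h2 : (b :: T).reverse = (T0 ++ [e]).reverse := by rw [hT0]
        simpa using h2
      have h2 : a' :: (S ++ a :: ((g :: D).reverse ++ T.reverse ++ [b])) =
          (a' :: (S ++ a :: D.reverse)) ++ g :: e :: T0.reverse := by
        rw [List.append_assoc, h1]
        simp
      rw [h2] at h
      exact nb_symm (nb_rot h.symm nb_of_mid)
    by_cases hgb : g = b'
    · rw [← hgb]; exact hge
    · exfalso
      have hb'D : b' ∈ D := by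
        have h1 := (hDR b').2 (Or.inr rfl)
        rcases List.mem_cons.1 h1 with h2 | h2
        · exact absurd h2.symm hgb
        · exact h2
      obtain ⟨D1, D2, rfl⟩ := List.append_of_mem hb'D
      have hrot : c.IsRotated (a' :: ((S ++ a :: D2.reverse) ++ b' :: (D1.reverse ++ [g] ++
          T.reverse ++ [b]))) := by
        simpa using h
      have hgR : g ∈ R := by
        rcases (hDR g).1 (by simp) with h1 | h1
        · exact h1
        · exact absurd h1 hgb
      have hn2 := nodup_rot hrot hn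
      have hn3 := List.nodup_cons.1 hn2
      have hn4 := List.nodup_append.1 hn3.2
      have hdis : ∀ z, ¬ (z ∈ g :: D1 ∧ z ∈ a :: D2) := by
        rintro z ⟨h1, h2⟩
        refine hn4.2.2 z ?_ z ?_ rfl
        · rcases List.mem_cons.1 h2 with h3 | h3
          · simp [h3]
          · simp [h3]
        · rcases List.mem_cons.1 h1 with h3 | h3
          · simp [h3]
          · simp [h3]
      have hb'R : b' ∉ a :: R := by
        intro h1
        have h2 : (a :: (R ++ b' :: a' :: S)).Nodup :=
          (List.nodup_cons.1 (List.nodup_append.1 hl).2.1).2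
        rcases List.mem_cons.1 h1 with h3 | h3
        · exact (List.nodup_cons.1 h2).1 (by simp [← h3])
        · exact (List.nodup_append.1 (List.nodup_cons.1 h2).2).2.2 b' h3 b' (by simp) rfl
      have hQ := side_all (P := fun z => z ∈ g :: D1) (Q := fun z => z ∈ a :: D2) R a ?_ (by simp)
        ?_ hdis g (by simp [hgR])
      · exact hdis g ⟨by simp, hQ⟩
      · intro z hz
        rcases List.mem_cons.1 hz with h1 | h1
        · right
          simp [h1]
        · have h2 := (hDR z).2 (Or.inl h1)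
          have h3 : z ≠ b' := by
            rintro rfl
            exact hb'R (by simp [h1])
          simp only [List.mem_cons, List.mem_append] at h2 ⊢
          tauto
      · rintro x y hxy ⟨h1, h2⟩
        refine hsp y x (ed_symm hxy) ⟨S ++ a :: D2.reverse, D1.reverse ++ [g] ++ T.reverse ++ [b],
          hrot, ?_, ?_⟩
        · rcases List.mem_cons.1 h2 with h3 | h3
          · simp [h3]
          · simp [h3]
        · rcases List.mem_cons.1 h1 with h3 | h3
          · simp [h3]
          · simp [h3]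


theorem rot_split {c L : List α} (h : c.IsRotated L) : ∃ P Q, c = P ++ Q ∧ L = Q ++ P := by
  cases c with
  | nil =>
    have h1 : L = [] := List.isRotated_nil_iff'.1 h |>.symm
    exact ⟨[], [], rfl, by simp [h1]⟩
  | cons d c =>
    obtain ⟨k, rfl⟩ := h
    rw [← List.rotate_mod]
    have hk : k % (d :: c).length ≤ (d :: c).length := (Nat.mod_lt _ (by simp)).le
    exact ⟨(d :: c).take (k % (d :: c).length), (d :: c).drop (k % (d :: c).length),
      (List.take_append_drop _ _).symm, List.rotate_eq_drop_append_take hk⟩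

/-- inserting an arc into a cyclic list keeps separated pairs -/
theorem sp_arc {c W c2 : List α} (h : c.IsRotated (W ++ c2)) {a b x y : α}
    (hs : Sp c2 a b x y) : Sp c a b x y := by
  obtain ⟨C, D, h1, h2, h3⟩ := hs
  obtain ⟨P, Q, rfl, h4⟩ := rot_split h1
  have h5 : c.IsRotated (Q ++ W ++ P) := by
    refine h.trans ?_
    simpa using rot_app (W ++ P) Q
  cases Q with
  | nil =>
    rw [List.nil_append] at h4
    subst h4
    refine ⟨C, D ++ W, h5.trans ?_, h2, by simp [h3]⟩
    simpa using rot_app W (a :: (C ++ b :: D))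
  | cons q Q =>
    rw [List.cons_append, List.cons.injEq] at h4
    obtain ⟨rfl, h4⟩ := h4
    rcases List.append_eq_append_iff.1 h4 with ⟨X, h6, h7⟩ | ⟨X, h6, h7⟩
    · cases X with
      | nil =>
        rw [List.append_nil] at h6
        rw [List.nil_append] at h7
        subst h6
        subst h7
        exact ⟨Q ++ W, D, by simpa using h5, by simp [h2], h3⟩
      | cons u X =>
        rw [List.cons_append, List.cons.injEq] at h7
        obtain ⟨rfl, rfl⟩ := h7
        subst h6
        exact ⟨C, X ++ W ++ P, by simpa using h5, h2, by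
          rcases List.mem_append.1 h3 with h8 | h8
          · simp [h8]
          · simp [h8]⟩
    · subst h6
      subst h7
      refine ⟨Q ++ W ++ X, D, by simpa using h5, ?_, h3⟩
      rcases List.mem_append.1 h2 with h8 | h8
      · simp [h8]
      · simp [h8]

theorem ed_arc {c W c2 : List α} (h : c.IsRotated (W ++ c2)) {x y : α} (hxy : Ed c2 x y) :
    Nb c x y := by
  obtain ⟨A, B, h1 | h1⟩ := ed_split hxy
  · rw [h1, ← List.append_assoc] at h
    exact nb_rot h.symm nb_of_mid
  · rw [h1, ← List.append_assoc] at h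
    exact nb_symm (nb_rot h.symm nb_of_mid)

theorem nb_arc {c W c2 : List α} (hn : c.Nodup) (h : c.IsRotated (W ++ c2)) (hW : W ≠ []) {x y : α}
    (hx : x ∈ c2) (hy : y ∈ c2) (hxy : Nb c x y) : Nb c2 x y := by
  have hn' := nodup_rot h hn
  have hxW : x ∉ W := fun h1 => (List.nodup_append.1 hn').2.2 x h1 x hx rfl
  have hyW : y ∉ W := fun h1 => (List.nodup_append.1 hn').2.2 y h1 y hy rfl
  obtain ⟨w0, W0, hW0⟩ := List.exists_cons_of_ne_nil hW
  rcases nb_ed hn' (nb_rot h hxy) with h1 | ⟨C, h1⟩ | ⟨C, h1⟩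
  · rcases List.eq_nil_or_concat W with h2 | ⟨W1, w, h2⟩
    · exact absurd h2 hW
    · rw [List.concat_eq_append] at h2
      rw [h2, List.append_assoc, List.singleton_append, ed_mid] at h1
      rcases h1 with h1 | h1
      · exact absurd (by rw [h2]; exact ed_mem h1) hxW
      · cases c2 with
        | nil => simp at hx
        | cons d c2 =>
          rcases ed_cons2.1 h1 with ⟨h3, _⟩ | ⟨_, h3⟩ | h3
          · exact absurd (by rw [h2, h3]; simp) hxW
          · exact absurd (by rw [h2, h3]; simp) hyW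
          · exact ch_of_rot (List.IsRotated.refl _) x y h3
  · rw [hW0, List.cons_append, List.cons.injEq] at h1
    exact absurd (by rw [hW0, h1.1]; simp) hxW
  · rw [hW0, List.cons_append, List.cons.injEq] at h1
    exact absurd (by rw [hW0, h1.1]; simp) hyW

theorem head_last_not_ed {a b : α} {Y : List α} (hY : Y ≠ []) (hn : (a :: (Y ++ [b])).Nodup) :
    ¬ Ed (a :: (Y ++ [b])) a b := by
  obtain ⟨y, Y', rfl⟩ := List.exists_cons_of_ne_nil hY
  intro h
  have h1 := List.nodup_cons.1 hn
  rcases ed_cons2.1 h with ⟨_, h2⟩ | ⟨h2, _⟩ | h2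
  · have h3 := List.nodup_cons.1 h1.2
    exact h3.1 (by simp [← h2])
  · exact h1.1 (by simp [← h2])
  · exact h1.1 (ed_mem h2)

theorem config_pos {c T R S c2 : List α} {a b a' b' : α} (hn : c.Nodup)
    (hp : (T.reverse ++ b :: a :: (R ++ b' :: a' :: S)).Perm c)
    (hT : Ch c (b :: T)) (hab : ¬ Nb c a b)
    (hpl : Plane p (EO (T.reverse ++ b :: a :: (R ++ b' :: a' :: S)) (Nb c)))
    (h1 : ∀ x y, Ed (b' :: R.reverse) x y → ¬ Sp c a b x y)
    (h2 : ∀ x y, Ed (a :: R) x y → ¬ Sp c a' b' x y)
    (hc : c.IsRotated (a' :: S ++ c2)) :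
    ∃ l', Relation.ReflTransGen (U p) (T.reverse ++ b :: a :: (R ++ b' :: a' :: S)) l' ∧
      (∀ x y, Ed l' x y → EO (T.reverse ++ b :: a :: (R ++ b' :: a' :: S)) (Nb c) x y) ∧
      (¬ Ed l' a b ∨ ¬ Ed l' a' b') := by
  generalize hl : T.reverse ++ b :: a :: (R ++ b' :: a' :: S) = l at hp hpl ⊢
  have hln : l.Nodup := hp.nodup_iff.2 hn
  have hE : ∀ x y, Ed l x y → EO l (Nb c) x y := fun x y h => Or.inl h
  have hEr : ∀ x y, Ed l.reverse x y → EO l (Nb c) x y := rev_edges hE
  have hUr : U p l l.reverse := Or.inr rfl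
  have hlr : l.reverse = S.reverse ++ a' :: b' :: (R.reverse ++ a :: b :: T) := by
    rw [← hl]; simp
  have hlrn : l.reverse.Nodup := List.nodup_reverse.2 hln
  obtain ⟨T0, e, hTe⟩ : ∃ T0 e, b :: T = T0 ++ [e] := by
    rcases List.eq_nil_or_concat (b :: T) with h | ⟨T0, e, h⟩
    · exact absurd h (by simp)
    · exact ⟨T0, e, by simpa using h⟩
  obtain ⟨S0, s, hSs⟩ : ∃ S0 s, a' :: S = S0 ++ [s] := by
    rcases List.eq_nil_or_concat (a' :: S) with h | ⟨S0, s, h⟩
    · exact absurd h (by simp)
    · exact ⟨S0, s, by simpa using h⟩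
  have he : (b :: T).getLast? = some e := by rw [hTe]; exact last_snoc T0 e
  have hcn := nodup_rot hc hn
  have hc2n : c2.Nodup := (List.nodup_append.1 hcn).2.1
  have hpc2 : ((b' :: R.reverse) ++ a :: b :: T).Perm c2 := by
    have h3 : l.Perm (a' :: S ++ c2) := hp.trans hc.perm
    have h4 : l.Perm (a' :: S ++ ((b' :: R.reverse) ++ a :: b :: T)) := by
      have h5 : T.reverse.Perm T := List.reverse_perm T
      have h6 : R.reverse.Perm R := List.reverse_perm R
      rw [← hl]
      rw [← Multiset.coe_eq_coe] at h5 h6 ⊢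
      simp only [← Multiset.coe_add, ← Multiset.cons_coe, ← Multiset.singleton_add]
      rw [h5, h6]
      abel
    exact (List.perm_append_left_iff _).1 (h4.symm.trans h3)
  by_cases hc2 : Nb c2 a b
  · rcases nb_ed hc2n hc2 with h3 | ⟨C, h3⟩ | ⟨C, h3⟩
    · exact absurd (ed_arc hc h3) hab
    · -- case (I), `s` adjacent to `a`
      rw [h3] at hc
      have hsa : Nb c a s := by
        rw [hSs, List.append_assoc, List.singleton_append] at hc
        exact nb_symm (nb_rot hc.symm nb_of_mid)
      have heb' : Nb c b' e := by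
        refine nb_symm (nextb hn (by simpa using hc) hT (by rw [hl]; exact hp) h2 he)
      -- first rotation
      have r1 : RotL b' e l.reverse ((S.reverse ++ [a']) ++ b' :: e ::
          (R.reverse ++ a :: T0).reverse) := by
        refine ⟨S.reverse ++ [a'], R.reverse ++ a :: T0, ?_, rfl⟩
        rw [hlr, hTe]
        simp
      obtain ⟨u1, k1⟩ := stepU hpl hEr r1 heb'
      generalize hl1 : (S.reverse ++ [a']) ++ b' :: e :: (R.reverse ++ a :: T0).reverse = l1 at u1 k1
      have k2 := rev_edges k1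
      have hl1r : l1.reverse = R.reverse ++ a :: (b :: (T ++ b' :: S0) ++ [s]) := by
        have h4 : b :: (T ++ b' :: S0) ++ [s] = (b :: T) ++ b' :: (a' :: S) := by
          rw [hSs]; simp
        rw [h4, hTe, ← hl1]
        simp
      have r2 : RotL a s l1.reverse (R.reverse ++ a :: s :: (b :: (T ++ b' :: S0)).reverse) :=
        ⟨R.reverse, b :: (T ++ b' :: S0), by rw [hl1r], rfl⟩
      obtain ⟨u2, k3⟩ := stepU hpl k2 r2 hsa
      refine ⟨_, ((Relation.ReflTransGen.single hUr).tail u1 |>.tail (Or.inr rfl)).tail u2, k3, ?_⟩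
      left
      have hn1 : l1.reverse.Nodup := by
        have h5 := u_perm ((Relation.ReflTransGen.single hUr).tail u1)
        exact List.nodup_reverse.2 (h5.nodup_iff.2 hln)
      rw [hl1r] at hn1
      exact rot_removed hn1
    · -- case (I), `s` adjacent to `b`
      rw [h3] at hc
      have hsb : Nb c b s := by
        rw [hSs, List.append_assoc, List.singleton_append] at hc
        exact nb_symm (nb_rot hc.symm nb_of_mid)
      have hl' : l = T.reverse ++ b :: (a :: (R ++ b' :: S0) ++ [s]) := by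
        have h4 : a :: (R ++ b' :: S0) ++ [s] = a :: (R ++ b' :: (a' :: S)) := by
          rw [hSs]; simp
        rw [h4, ← hl]
      have r1 : RotL b s l (T.reverse ++ b :: s :: (a :: (R ++ b' :: S0)).reverse) :=
        ⟨T.reverse, a :: (R ++ b' :: S0), by rw [hl'], rfl⟩
      obtain ⟨u1, k1⟩ := stepU hpl hE r1 hsb
      refine ⟨_, Relation.ReflTransGen.single u1, k1, Or.inl ?_⟩
      rw [hl'] at hln
      exact fun h => rot_removed hln (ed_symm h)
  · have hab2 : Nb c2 a e := by
      refine key hc2n hpc2 hc2 ?_ ?_ he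
      · intro x y hxy
        have hx : x ∈ c2 := hpc2.mem_iff.1 (List.mem_append.2 (Or.inr
          (List.mem_cons_of_mem _ (ed_mem hxy))))
        have hy : y ∈ c2 := hpc2.mem_iff.1 (List.mem_append.2 (Or.inr
          (List.mem_cons_of_mem _ (ed_mem' hxy))))
        exact nb_arc hn hc (by simp) hx hy (hT x y hxy)
      · intro x y hxy hs
        exact h1 x y hxy (sp_arc hc hs)
    rcases nb_ed hc2n hab2 with h3 | ⟨C, h3⟩ | ⟨C, h3⟩
    · -- `e` adjacent to `a`
      have hae : Nb c a e := ed_arc hc h3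
      obtain ⟨T1, hT1⟩ : ∃ T1, T0 = b :: T1 := by
        cases T0 with
        | nil =>
          rw [List.nil_append, List.cons.injEq] at hTe
          rw [← hTe.1] at hae
          exact absurd hae hab
        | cons t T1 =>
          rw [List.cons_append, List.cons.injEq] at hTe
          exact ⟨T1, by rw [hTe.1]⟩
      have hlr' : l.reverse = (S.reverse ++ a' :: b' :: R.reverse) ++ a :: (b :: (T1 ++ [e])) := by
        rw [hlr, hTe, hT1]
        simp
      have r1 : RotL a e l.reverse ((S.reverse ++ a' :: b' :: R.reverse) ++ a :: e ::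
          (b :: T1).reverse) := ⟨_, b :: T1, by rw [hlr']; simp, rfl⟩
      obtain ⟨u1, k1⟩ := stepU hpl hEr r1 hae
      refine ⟨_, (Relation.ReflTransGen.single hUr).tail u1, k1, Or.inl ?_⟩
      rw [hlr'] at hlrn
      exact rot_removed hlrn
    · -- `e` adjacent to `a'`
      have hae : Nb c a' e := by
        rw [h3] at hc
        refine nb_rot hc.symm ?_
        have h4 : a' :: S ++ a :: (C ++ [e]) = a' :: ((S ++ a :: C) ++ [e]) := by simp
        rw [h4]
        exact nb_of_last
      have hlr' : l.reverse = S.reverse ++ a' :: (b' :: ((R.reverse ++ a :: T0) ++ [e])) := by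
        rw [hlr, hTe]
        simp
      have r1 : RotL a' e l.reverse (S.reverse ++ a' :: e :: (b' :: (R.reverse ++ a :: T0)).reverse) :=
        ⟨_, b' :: (R.reverse ++ a :: T0), by rw [hlr']; simp, rfl⟩
      obtain ⟨u1, k1⟩ := stepU hpl hEr r1 hae
      refine ⟨_, (Relation.ReflTransGen.single hUr).tail u1, k1, Or.inr ?_⟩
      rw [hlr'] at hlrn
      exact rot_removed hlrn
    · -- `e` adjacent to `s`
      have hes : Nb c e s := by
        rw [h3, hSs, List.append_assoc, List.singleton_append] at hc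
        exact nb_symm (nb_rot hc.symm nb_of_mid)
      have hl' : l = e :: (T0.reverse ++ a :: (R ++ b' :: S0) ++ [s]) := by
        have h4 : T.reverse ++ [b] = e :: T0.reverse := by
          have h5 : (b :: T).reverse = (T0 ++ [e]).reverse := by rw [hTe]
          simpa using h5
        have h6 : l = (T.reverse ++ [b]) ++ a :: (R ++ b' :: (a' :: S)) := by rw [← hl]; simp
        rw [h6, h4, hSs]
        simp
      have hNl : ∀ x y, Nb l x y → EO l (Nb c) x y := by
        intro x y hxy
        rcases nb_ed hln hxy with h4 | ⟨D, h4⟩ | ⟨D, h4⟩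
        · exact Or.inl h4
        · rw [hl', List.cons.injEq] at h4
          have h5 := List.append_inj' h4.2 rfl
          have h6 : s = y := by simpa using h5.2
          rw [← h4.1, ← h6]
          exact Or.inr hes
        · rw [hl', List.cons.injEq] at h4
          have h5 := List.append_inj' h4.2 rfl
          have h6 : s = x := by simpa using h5.2
          rw [← h4.1, ← h6]
          exact Or.inr (nb_symm hes)
      have hm : l.IsRotated (a :: ((R ++ b' :: a' :: S) ++ T.reverse ++ [b])) := by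
        rw [← hl]
        simpa using rot_app (T.reverse ++ [b]) (a :: (R ++ b' :: a' :: S))
      refine ⟨_, ring (fun x y u v h4 h5 => hpl x y u v (hNl x y h4) (hNl u v h5))
        (List.IsRotated.refl l) hm, fun x y h4 => hNl x y (ch_of_rot hm x y h4), Or.inl ?_⟩
      exact head_last_not_ed (by simp) (nodup_rot hm hln)


theorem config {c T R S : List α} {a b a' b' : α} (hn : c.Nodup)
    (hp : (T.reverse ++ b :: a :: (R ++ b' :: a' :: S)).Perm c)
    (hT : Ch c (b :: T)) (hS : Ch c (a' :: S)) (hab : ¬ Nb c a b)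
    (hpl : Plane p (EO (T.reverse ++ b :: a :: (R ++ b' :: a' :: S)) (Nb c)))
    (h1 : ∀ x y, Ed (b' :: R.reverse) x y → ¬ Sp c a b x y)
    (h2 : ∀ x y, Ed (a :: R) x y → ¬ Sp c a' b' x y) :
    ∃ l', Relation.ReflTransGen (U p) (T.reverse ++ b :: a :: (R ++ b' :: a' :: S)) l' ∧
      (∀ x y, Ed l' x y → EO (T.reverse ++ b :: a :: (R ++ b' :: a' :: S)) (Nb c) x y) ∧
      (¬ Ed l' a b ∨ ¬ Ed l' a' b') := by
  have ha' : a' ∈ c := hp.mem_iff.1 (by simp)
  obtain ⟨E, hE⟩ := rot_to ha'
  have hSn : (a' :: S).Nodup := by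
    refine (hp.nodup_iff.2 hn).sublist ?_
    have e1 : T.reverse ++ b :: a :: (R ++ b' :: a' :: S) =
        (T.reverse ++ b :: a :: (R ++ [b'])) ++ a' :: S := by simp
    rw [e1]
    exact List.sublist_append_right _ _
  rcases chain_prefix hn hE S hSn hS with ⟨E1, h3⟩ | ⟨E1, h3⟩
  · rw [← h3] at hE
    exact config_pos hn hp hT hab hpl h1 h2 (c2 := E1) (by simpa using hE)
  · have hr : c.reverse.IsRotated (a' :: S ++ E1) := by
      have h4 := hE.reverse
      have e1 : (a' :: E).reverse = E.reverse ++ [a'] := by simp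
      rw [e1, ← h3] at h4
      refine h4.trans ?_
      simpa using rot_app (S ++ E1) [a']
    have hNb : ∀ x y, Nb c.reverse x y → Nb c x y := by
      intro x y h
      have := nb_reverse h
      rwa [List.reverse_reverse] at this
    have hEO : ∀ x y, EO (T.reverse ++ b :: a :: (R ++ b' :: a' :: S)) (Nb c.reverse) x y →
        EO (T.reverse ++ b :: a :: (R ++ b' :: a' :: S)) (Nb c) x y := by
      rintro x y (h | h)
      · exact Or.inl h
      · exact Or.inr (hNb x y h)
    obtain ⟨l', k1, k2, k3⟩ := config_pos (p := p) (c := c.reverse) (List.nodup_reverse.2 hn)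
      (hp.trans (List.reverse_perm c).symm) (fun x y h => nb_reverse (hT x y h))
      (fun h => hab (hNb a b h))
      (fun x y u v h4 h5 => hpl x y u v (hEO x y h4) (hEO u v h5))
      (fun x y h hs => h1 y x (ed_symm h) (sp_reverse hs))
      (fun x y h hs => h2 y x (ed_symm h) (sp_reverse hs)) hr
    exact ⟨l', k1, fun x y h => hEO x y (k2 x y h), k3⟩

theorem ed_left {A B : List α} {x y : α} (h : Ed A x y) : Ed (A ++ B) x y := by
  obtain ⟨A1, A2, rfl | rfl⟩ := ed_split h
  · rw [List.append_assoc]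
    exact ed_of_split
  · rw [List.append_assoc]
    exact ed_of_split'

theorem ed_right {A B : List α} {x y : α} (h : Ed B x y) : Ed (A ++ B) x y := by
  obtain ⟨A1, A2, rfl | rfl⟩ := ed_split h
  · rw [← List.append_assoc]
    exact ed_of_split
  · rw [← List.append_assoc]
    exact ed_of_split'

theorem ed_of_sym {l : List α} {x y a b : α} (h : Ed l x y) (h1 : s(x, y) = s(a, b)) :
    Ed l a b := by
  rcases Sym2.eq_iff.1 h1 with ⟨rfl, rfl⟩ | ⟨rfl, rfl⟩
  · exact h
  · exact ed_symm h

/-- a path which crosses no side of the polygon `c` and has at most one interleaved pair of edges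
is connected with `c` -/
theorem one {c l : List α} {f g : Sym2 α} (hn : c.Nodup) (hp : l.Perm c)
    (hi : Inn1 p c f g l) : Relation.ReflTransGen (U p) l c := by
  have hR : Plane p (Nb c) := fun a b x y h1 h2 => hi.pl a b x y (Or.inr h1) (Or.inr h2)
  have hch : ∀ T' : List α, T'.Perm c → Ch c T' → Relation.ReflTransGen (U p) T' c :=
    fun T' h1 h2 => to_c hn h1 (chain_inn hn hR h2)
  rcases List.eq_nil_or_concat l with h0 | ⟨A, z, h0⟩
  · subst h0
    rw [List.nil_perm.1 hp]
  rw [List.concat_eq_append] at h0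
  subst h0
  rcases reduce1 hn A [z] (by simp) hp (fun x y hxy => (hxy : False).elim) hi with
    ⟨T', h1, h2, h3⟩ | ⟨A', a, b, T', -, h2, h3, h4, h5, h6, x1, y1, h7, h8⟩
  · exact h1.trans (hch T' h2 h3)
  refine h2.trans ?_
  have hrv : U p (A' ++ a :: b :: T') (A' ++ a :: b :: T').reverse := Or.inr rfl
  refine (Relation.ReflTransGen.single hrv).trans ?_
  obtain ⟨A1, z1, hz⟩ : ∃ A1 z1, A'.reverse = A1 ++ [z1] := by
    rcases List.eq_nil_or_concat A'.reverse with h | ⟨A1, z1, h⟩
    · rw [List.reverse_eq_nil_iff] at h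
      rw [h] at h7
      exact (h7 : False).elim
    · exact ⟨A1, z1, by simpa using h⟩
  have hrev : (A' ++ a :: b :: T').reverse = (T'.reverse ++ [b] ++ [a] ++ A1) ++ [z1] := by
    have e1 : (A' ++ a :: b :: T').reverse = T'.reverse ++ [b] ++ [a] ++ A'.reverse := by simp
    rw [e1, hz]
    simp
  have h5r := inn1_reverse h5
  have h3r : ((A' ++ a :: b :: T').reverse).Perm c := (List.reverse_perm _).trans h3
  rw [hrev] at h5r h3r ⊢
  rcases reduce1 hn (T'.reverse ++ [b] ++ [a] ++ A1) [z1] (by simp) h3r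
    (fun x y hxy => (hxy : False).elim) h5r with
    ⟨T'', k1, k2, k3⟩ | ⟨A2, a2, b2, T2, g1, g2, g3, g4, g5, g6, x2, y2, g7, g8⟩
  · exact k1.trans (hch T'' k2 k3)
  refine g2.trans ?_
  obtain ⟨R, rfl⟩ : ∃ R, A2 = T'.reverse ++ b :: a :: R := by
    have q1 : A2 <+: T'.reverse ++ [b] ++ [a] ++ A1 := (List.prefix_append _ _).trans g1
    have q2 : T'.reverse ++ [b] ++ [a] <+: T'.reverse ++ [b] ++ [a] ++ A1 :=
      List.prefix_append _ _
    have fin : T'.reverse ++ [b] ++ [a] <+: A2 → ∃ R, A2 = T'.reverse ++ b :: a :: R := by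
      rintro ⟨R, h⟩
      exact ⟨R, by rw [← h]; simp⟩
    rcases List.prefix_or_prefix_of_prefix q1 q2 with q3 | q3
    · rcases List.prefix_concat_iff.1 q3 with q4 | ⟨Z, q4⟩
      · exact fin (by rw [q4])
      · exfalso
        have q5 : Ed (T'.reverse ++ [b]) x2 y2 := by
          rw [← q4]
          exact ed_left g7
        have q6 : T'.reverse ++ [b] = (b :: T').reverse := by simp
        rw [q6, ed_reverse] at q5
        exact not_sp_of_nb hn (h4 x2 y2 q5) (sp_swap g8)
    · exact fin q3
  have e2 : T'.reverse ++ b :: a :: R ++ a2 :: b2 :: T2 =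
      T'.reverse ++ b :: a :: (R ++ a2 :: b2 :: T2) := by simp
  rw [e2] at g2 g3 g5 ⊢
  have hln : (T'.reverse ++ b :: a :: (R ++ a2 :: b2 :: T2)).Nodup := g3.nodup_iff.2 hn
  have hn1 : (b :: a :: (R ++ a2 :: b2 :: T2)).Nodup := (List.nodup_append.1 hln).2.1
  have hn2 := List.nodup_cons.1 hn1
  have hn3 := List.nodup_cons.1 hn2.2
  have hn4 := List.nodup_append.1 hn3.2
  have hb2R : b2 ∉ a2 :: R := by
    intro h
    rcases List.mem_cons.1 h with h | h
    · exact (List.nodup_cons.1 hn4.2.1).1 (by simp [← h])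
    · exact hn4.2.2 b2 h b2 (by simp) rfl
  have hbR : b ∉ a :: R := by
    intro h
    refine hn2.1 ?_
    rcases List.mem_cons.1 h with h | h
    · simp [h]
    · simp [h]
  have hne : s(a, b) ≠ s(a2, b2) := by
    intro h
    rcases Sym2.eq_iff.1 h with ⟨h, _⟩ | ⟨_, h⟩
    · exact hn3.1 (by simp [h])
    · exact hn2.1 (by simp [h])
  have hEab : Ed (T'.reverse ++ b :: a :: (R ++ a2 :: b2 :: T2)) a b := ed_of_split'
  have hEab2 : Ed (T'.reverse ++ b :: a :: (R ++ a2 :: b2 :: T2)) a2 b2 := by
    rw [← e2]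
    exact ed_of_split
  have hfg : (s(a, b) = f ∧ s(a2, b2) = g) ∨ (s(a, b) = g ∧ s(a2, b2) = f) := by
    have w1 := h5.sp a b x1 y1 ed_of_split (ed_left h7) h8
    have w2 := g5.sp a2 b2 x2 y2 hEab2 (by rw [← e2]; exact ed_left g7) g8
    rcases w1 with ⟨w1, _⟩ | ⟨w1, _⟩ <;> rcases w2 with ⟨w2, _⟩ | ⟨w2, _⟩
    · exact absurd (w1.trans w2.symm) hne
    · exact Or.inl ⟨w1, w2⟩
    · exact Or.inr ⟨w1, w2⟩
    · exact absurd (w1.trans w2.symm) hne
  -- every interleaved pair consists of `a b` and `a2 b2`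
  have hpair : ∀ u v x y, Ed (T'.reverse ++ b :: a :: (R ++ a2 :: b2 :: T2)) u v →
      Ed (T'.reverse ++ b :: a :: (R ++ a2 :: b2 :: T2)) x y → Sp c u v x y →
      (s(u, v) = s(a, b) ∧ s(x, y) = s(a2, b2)) ∨
        (s(u, v) = s(a2, b2) ∧ s(x, y) = s(a, b)) := by
    intro u v x y w1 w2 w3
    rcases g5.sp u v x y w1 w2 w3 with ⟨w4, w5⟩ | ⟨w4, w5⟩ <;>
      rcases hfg with ⟨w6, w7⟩ | ⟨w6, w7⟩
    · exact Or.inl ⟨w4.trans w6.symm, w5.trans w7.symm⟩
    · exact Or.inr ⟨w4.trans w7.symm, w5.trans w6.symm⟩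
    · exact Or.inr ⟨w4.trans w7.symm, w5.trans w6.symm⟩
    · exact Or.inl ⟨w4.trans w6.symm, w5.trans w7.symm⟩
  have hS : Ch c (b2 :: T2) := g4
  have H1 : ∀ x y, Ed (a2 :: R.reverse) x y → ¬ Sp c a b x y := by
    intro x y hxy hs
    have w1 : Ed (T'.reverse ++ b :: a :: (R ++ a2 :: b2 :: T2)) x y := by
      have e3 : T'.reverse ++ b :: a :: (R ++ a2 :: b2 :: T2) =
          (T'.reverse ++ b :: a :: (R ++ [a2])) ++ b2 :: T2 := by simp
      rw [e3]
      refine ed_left ?_
      have e4 : T'.reverse ++ b :: a :: (R ++ [a2]) =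
          (T'.reverse ++ b :: a :: []) ++ (R ++ [a2]) := by simp
      rw [e4]
      refine ed_right ?_
      have e5 : R ++ [a2] = (a2 :: R.reverse).reverse := by simp
      rw [e5, ed_reverse]
      exact hxy
    have hb2 : ∀ z, z ∈ a2 :: R.reverse → z ≠ b2 := by
      rintro z hz rfl
      apply hb2R
      simpa using hz
    rcases hpair a b x y hEab w1 hs with ⟨_, w2⟩ | ⟨w2, _⟩
    · rcases Sym2.eq_iff.1 w2 with ⟨_, w3⟩ | ⟨w3, _⟩
      · exact hb2 y (ed_mem' hxy) w3
      · exact hb2 x (ed_mem hxy) w3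
    · exact hne w2
  have H2 : ∀ x y, Ed (a :: R) x y → ¬ Sp c b2 a2 x y := by
    intro x y hxy hs
    have w1 : Ed (T'.reverse ++ b :: a :: (R ++ a2 :: b2 :: T2)) x y := by
      have e3 : T'.reverse ++ b :: a :: (R ++ a2 :: b2 :: T2) =
          (T'.reverse ++ [b]) ++ ((a :: R) ++ a2 :: b2 :: T2) := by simp
      rw [e3]
      exact ed_right (ed_left hxy)
    have hb : ∀ z, z ∈ a :: R → z ≠ b := by
      rintro z hz rfl
      exact hbR hz
    rcases hpair b2 a2 x y (ed_symm hEab2) w1 hs with ⟨w2, _⟩ | ⟨_, w2⟩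
    · exact hne (w2.symm.trans Sym2.eq_swap)
    · rcases Sym2.eq_iff.1 w2 with ⟨_, w3⟩ | ⟨w3, _⟩
      · exact hb y (ed_mem' hxy) w3
      · exact hb x (ed_mem hxy) w3
  obtain ⟨l', k1, k2, k3⟩ := config (p := p) (T := T') (R := R) (S := T2) (a := a) (b := b)
    (a' := b2) (b' := a2) hn g3 h4 hS h6 g5.pl H1 H2
  refine k1.trans (to_c hn ((u_perm k1).trans g3) ⟨?_, ?_⟩)
  · have hEO : ∀ x y, EO l' (Nb c) x y →
        EO (T'.reverse ++ b :: a :: (R ++ a2 :: b2 :: T2)) (Nb c) x y := by
      rintro x y (h | h)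
      · exact k2 x y h
      · exact Or.inr h
    intro x y u v w1 w2
    exact g5.pl x y u v (hEO x y w1) (hEO u v w2)
  · intro u v x y w1 w2 w3
    rcases k2 u v w1 with w4 | w4
    · rcases k2 x y w2 with w5 | w5
      · rcases hpair u v x y w4 w5 w3 with ⟨w6, w7⟩ | ⟨w6, w7⟩
        · rcases k3 with w8 | w8
          · exact w8 (ed_of_sym w1 w6)
          · exact w8 (ed_symm (ed_of_sym w2 w7))
        · rcases k3 with w8 | w8
          · exact w8 (ed_of_sym w2 w7)
          · exact w8 (ed_symm (ed_of_sym w1 w6))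
      · exact not_sp_of_nb hn w5 (sp_swap w3)
    · exact not_sp_of_nb hn w4 w3

end FPR
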