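import Pool.Agent.Lib.MP_deef39_co_PR.StarS

/-! # PR module StarK: a simple polygon all of whose sides are seen in positive orientation from
one point lists its vertices in the order of their directions -/

set_option autoImplicit false

namespace FPR

open FPW

section
variable {α : Type*} {p : α → ℝ × ℝ} {z : ℝ × ℝ}

theorem dz_neg (a b : α) : dz p z b a = - dz p z a b := by
  unfold dz
  ring

theorem dz_self (a : α) : dz p z a a = 0 := by
  unfold dz
  ring

theorem dz_pl (a b c d : α) :
    dz p z a b * dz p z c d = dz p z a c * dz p z b d + dz p z a d * dz p z c b := by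
  unfold dz
  ring

theorem dz_o (s t y y' v : α) : dz p z y y' * o p s t v =
    dz p z v y' * o p s t y + dz p z y v * o p s t y' + o p y y' v * dz p z s t := by
  unfold dz o
  ring

theorem o_aba (a b : α) : o p a b a = 0 := by
  unfold o
  ring

theorem o_abb (a b : α) : o p a b b = 0 := by
  unfold o
  ring

theorem back {R : α → Prop} : ∀ (E : List α) (y : α),
    (∀ A u v B, y :: E = A ++ u :: v :: B → R v → R u) → ∀ v ∈ y :: E, R v → R y
  | [], y, _, v, hv, hR => by
    rw [List.mem_singleton.1 hv] at hR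
    exact hR
  | e :: E, y, h, v, hv, hR => by
    rcases List.mem_cons.1 hv with h1 | h1
    · rw [h1] at hR
      exact hR
    · refine h [] y e E rfl (back E e ?_ v h1 hR)
      intro A u v B h2
      exact h (y :: A) u v B (by rw [h2]; rfl)

theorem forth {R : α → Prop} : ∀ (E : List α) (y : α), R y →
    (∀ A u v B, y :: E = A ++ u :: v :: B → R u → R v) → ∀ v ∈ y :: E, R v
  | [], y, hy, _, v, hv => by
    rw [List.mem_singleton.1 hv]
    exact hy
  | e :: E, y, hy, h, v, hv => by
    rcases List.mem_cons.1 hv with h1 | h1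
    · rw [h1]
      exact hy
    · refine forth E e (h [] y e E rfl hy) ?_ v h1
      intro A u v B h2
      exact h (y :: A) u v B (by rw [h2]; rfl)

private theorem pw_adj {R : α → α → Prop} (ht : ∀ a b c, R a b → R b c → R a c) :
    ∀ L : List α, (∀ A a b B, L = A ++ a :: b :: B → R a b) → L.Pairwise R
  | [], _ => List.Pairwise.nil
  | [a], _ => List.pairwise_singleton R a
  | a :: b :: L, h => by
    have h1 := pw_adj ht (b :: L) fun A x y B hL => h (a :: A) x y B (by rw [hL]; rfl)
    have h2 : R a b := h [] a b L rfl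
    refine List.Pairwise.cons ?_ h1
    intro y hy
    rcases List.mem_cons.1 hy with h3 | h3
    · rw [h3]
      exact h2
    · exact ht a b y h2 ((List.pairwise_cons.1 h1).1 y h3)

/-- directed sides -/
def Sd (c : List α) (x y : α) : Prop := ∃ C, c.IsRotated (x :: y :: C)

theorem sd_of {c m A B : List α} {x y : α} (h : c.IsRotated m) (hm : m = A ++ x :: y :: B) :
    Sd c x y := by
  refine ⟨B ++ A, h.trans ?_⟩
  rw [hm]
  simpa using rot_app A (x :: y :: B)

theorem sd_next {c : List α} (hn : c.Nodup) {x y y' : α} (h : Sd c x y) (h' : Sd c x y') :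
    y = y' := by
  obtain ⟨C, hC⟩ := h
  obtain ⟨C', hC'⟩ := h'
  have h1 := rot_head (nodup_rot hC hn) (hC.symm.trans hC')
  rw [List.cons.injEq] at h1
  exact h1.1

/-- `y` lies in no triangle formed by `z` and a side -/
def Out (p : α → ℝ × ℝ) (z : ℝ × ℝ) (c : List α) (y : α) : Prop :=
  ∀ s t, Sd c s t → ¬ (0 < dz p z s y ∧ 0 < dz p z y t ∧ 0 < o p s t y)

/-- `v` lies beyond the side `y y'` -/
def Bey (p : α → ℝ × ℝ) (z : ℝ × ℝ) (y y' v : α) : Prop :=
  0 < dz p z y v ∧ 0 < dz p z v y' ∧ o p y y' v < 0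

theorem pos_r {a b : ℝ} (ha : 0 < a) (h : 0 < a * b) : 0 < b :=
  (pos_iff_pos_of_mul_pos h).1 ha

theorem neg_r {a b : ℝ} (ha : 0 < a) (h : a * b < 0) : b < 0 := by
  by_contra h1
  have := mul_nonneg ha.le (not_lt.1 h1)
  linarith

theorem bey_pred (hgp : GP p) {c : List α} (hn : c.Nodup) (hpl : Plane p (Nb c))
    (hz : ∀ a b : α, a ≠ b → dz p z a b ≠ 0) (hk : ∀ x y, Sd c x y → 0 < dz p z x y)
    {y y' : α} (hy : Sd c y y') (ho : Out p z c y) {u v : α} (huv : Sd c u v)
    (hv : Bey p z y y' v) : Bey p z y y' u := by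
  obtain ⟨v1, v2, v3⟩ := hv
  have ky := hk y y' hy
  have ku := hk u v huv
  have huy : u ≠ y := by
    rintro rfl
    rw [sd_next hn huv hy, o_abb] at v3
    exact lt_irrefl _ v3
  have huy' : u ≠ y' := by
    rintro rfl
    rw [dz_neg] at v2
    linarith
  have hvy : v ≠ y := by
    rintro rfl
    rw [dz_self] at v1
    exact lt_irrefl _ v1
  have hvy' : v ≠ y' := by
    rintro rfl
    rw [dz_self] at v2
    exact lt_irrefl _ v2
  have huv' : u ≠ v := by
    rintro rfl
    rw [dz_self] at ku
    exact lt_irrefl _ ku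
  have hyy' : y ≠ y' := by
    rintro rfl
    rw [dz_self] at ky
    exact lt_irrefl _ ky
  have hX : ¬ X p y y' u v := by
    obtain ⟨C, hC⟩ := hy
    obtain ⟨C', hC'⟩ := huv
    exact hpl y y' u v ⟨C, Or.inl hC⟩ ⟨C', Or.inl hC'⟩
  have i1 := dz_o (p := p) (z := z) u v y y' u
  have i2 := dz_o (p := p) (z := z) u v y y' v
  have i3 := dz_o (p := p) (z := z) y y' u v y
  rw [o_aba, mul_zero] at i1 i3
  rw [o_abb, mul_zero] at i2
  rcases lt_or_gt_of_ne (hz y u huy.symm) with h1 | h1
  · exfalso
    have h2 : 0 < dz p z u y := by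
      rw [dz_neg]
      linarith
    have h3 : o p u v y < 0 :=
      lt_of_le_of_ne (not_lt.1 fun h => ho u v huv ⟨h2, v1, h⟩)
        (hgp.ne u v y huv' hvy huy)
    have h4 : 0 < o p y y' u := by
      refine pos_r v1 ?_
      have := mul_pos h2 (neg_pos.2 v3)
      have := mul_pos (neg_pos.2 h3) ky
      linarith
    have h5 : 0 < o p u v y' := by
      refine pos_r v1 ?_
      have := mul_pos (neg_pos.2 v3) ku
      have := mul_pos v2 (neg_pos.2 h3)
      linarith
    exact hX ⟨mul_neg_of_pos_of_neg h4 v3, mul_neg_of_neg_of_pos h3 h5⟩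
  · have h2 : 0 < dz p z u y' := by
      refine pos_r v1 ?_
      have e := dz_pl (p := p) (z := z) y v u y'
      have := mul_pos ku ky
      have := mul_pos h1 v2
      have e2 := dz_pl (p := p) (z := z) y v u y'
      linarith
    refine ⟨h1, h2, ?_⟩
    by_contra h3
    have h4 : 0 < o p y y' u :=
      lt_of_le_of_ne (not_lt.1 h3) (hgp.ne y y' u hyy' huy'.symm huy.symm).symm
    have h5 : o p u v y < 0 := by
      refine neg_r (mul_pos ku ky) ?_
      have e := dz_pl (p := p) (z := z) u v y y'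
      have e1 : dz p z u v * dz p z y y' =
          dz p z u y' * dz p z y v - dz p z v y' * dz p z y u := by
        unfold dz
        ring
      have k1 := mul_pos (mul_pos h4 ku) v1
      have k2 := mul_pos (mul_pos (neg_pos.2 v3) ku) h1
      have e3 : dz p z u v * dz p z y y' * o p u v y =
          dz p z y v * (dz p z u y' * o p u v y + dz p z y u * o p u v y') -
          dz p z y u * (dz p z v y' * o p u v y + dz p z y v * o p u v y') := by
        rw [e1]
        ring
      have e4 : dz p z u y' * o p u v y + dz p z y u * o p u v y' =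
          -(o p y y' u * dz p z u v) := by linarith
      have e5 : dz p z v y' * o p u v y + dz p z y v * o p u v y' =
          -(o p y y' v * dz p z u v) := by linarith
      rw [e3, e4, e5]
      linarith
    have h6 : 0 < o p u v y' := by
      refine pos_r v1 ?_
      have := mul_pos (neg_pos.2 v3) ku
      have := mul_pos v2 (neg_pos.2 h5)
      linarith
    exact hX ⟨mul_neg_of_pos_of_neg h4 v3, mul_neg_of_neg_of_pos h5 h6⟩

theorem bey_empty (hgp : GP p) {c : List α} (hn : c.Nodup) (hall : ∀ v, v ∈ c)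
    (hpl : Plane p (Nb c))
    (hz : ∀ a b : α, a ≠ b → dz p z a b ≠ 0) (hk : ∀ x y, Sd c x y → 0 < dz p z x y)
    {y y' : α} (hy : Sd c y y') (ho : Out p z c y) (v : α) : ¬ Bey p z y y' v := by
  intro hv
  obtain ⟨E, hE⟩ := rot_to (hall y)
  have h1 := back (R := Bey p z y y') E y
    (fun A u v B h h2 => bey_pred hgp hn hpl hz hk hy ho (sd_of hE h) h2) v
    (hE.mem_iff.1 (hall v)) hv
  have h2 := h1.1
  rw [dz_self] at h2
  exact lt_irrefl _ h2

theorem out_next (hgp : GP p) {c : List α} (hn : c.Nodup) (hall : ∀ v, v ∈ c)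
    (hpl : Plane p (Nb c))
    (hz : ∀ a b : α, a ≠ b → dz p z a b ≠ 0) (hk : ∀ x y, Sd c x y → 0 < dz p z x y)
    {y y' : α} (hy : Sd c y y') (ho : Out p z c y) : Out p z c y' := by
  rintro s t hst ⟨h1, h2, h3⟩
  have ky := hk y y' hy
  have ks := hk s t hst
  have hsy : s ≠ y := by
    rintro rfl
    rw [sd_next hn hst hy, dz_self] at h2
    exact lt_irrefl _ h2
  have hty : t ≠ y := by
    rintro rfl
    rw [dz_neg] at h2
    linarith
  have hsy' : s ≠ y' := by
    rintro rfl
    rw [dz_self] at h1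
    exact lt_irrefl _ h1
  have hty' : t ≠ y' := by
    rintro rfl
    rw [dz_self] at h2
    exact lt_irrefl _ h2
  have hst' : s ≠ t := by
    rintro rfl
    rw [dz_self] at ks
    exact lt_irrefl _ ks
  have hyy' : y ≠ y' := by
    rintro rfl
    rw [dz_self] at ky
    exact lt_irrefl _ ky
  have hX : ¬ X p y y' s t := by
    obtain ⟨C, hC⟩ := hy
    obtain ⟨C', hC'⟩ := hst
    exact hpl y y' s t ⟨C, Or.inl hC⟩ ⟨C', Or.inl hC'⟩
  have i1 := dz_o (p := p) (z := z) y y' s t y'
  have i2 := dz_o (p := p) (z := z) s t y y' s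
  have i3 := dz_o (p := p) (z := z) y y' s t y
  rw [o_abb, mul_zero] at i1
  rw [o_aba, mul_zero] at i2 i3
  rcases lt_or_gt_of_ne (hz y s hsy.symm) with h4 | h4
  · have h5 : 0 < dz p z s y := by
      rw [dz_neg]
      linarith
    have e1 : dz p z s y' * dz p z y t =
        dz p z s y * dz p z y' t + dz p z s t * dz p z y y' := by
      unfold dz
      ring
    have h6 : 0 < dz p z y t := by
      refine pos_r h1 ?_
      have := mul_pos h5 h2
      have := mul_pos ks ky
      linarith
    have h7 : o p s t y < 0 :=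
      lt_of_le_of_ne (not_lt.1 fun h => ho s t hst ⟨h5, h6, h⟩)
        (hgp.ne s t y hst' hty hsy)
    have h8 : 0 < o p y y' s := by
      refine pos_r (mul_pos ks ky) ?_
      have e2 : dz p z s t * dz p z y y' * o p y y' s =
          dz p z s y' * (dz p z y t * o p y y' s + dz p z s y * o p y y' t) -
          dz p z s y * (dz p z y' t * o p y y' s + dz p z s y' * o p y y' t) := by
        have e3 : dz p z s t * dz p z y y' =
          dz p z s y' * dz p z y t - dz p z s y * dz p z y' t := by linarith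
        rw [e3]
        ring
      have e4 : dz p z y t * o p y y' s + dz p z s y * o p y y' t =
          -(o p s t y * dz p z y y') := by linarith
      have e5 : dz p z y' t * o p y y' s + dz p z s y' * o p y y' t =
          -(o p s t y' * dz p z y y') := by linarith
      rw [e2, e4, e5]
      have k1 := mul_pos (mul_pos (neg_pos.2 h7) ky) h1
      have k2 := mul_pos (mul_pos h3 ky) h5
      linarith
    have h9 : o p y y' t < 0 := by
      refine neg_r h1 ?_
      have := mul_pos h2 h8
      have := mul_pos h3 ky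
      linarith
    exact hX ⟨mul_neg_of_pos_of_neg h8 h9, mul_neg_of_neg_of_pos h7 h3⟩
  · rcases lt_or_gt_of_ne (hgp.ne y y' s hyy' hsy'.symm hsy.symm) with h5 | h5
    · exact bey_empty hgp hn hall hpl hz hk hy ho s ⟨h4, h1, h5⟩
    · have h6 : o p y y' t < 0 := by
        refine neg_r h1 ?_
        have := mul_pos h2 h5
        have := mul_pos h3 ky
        linarith
      have h7 : o p s t y < 0 := by
        refine neg_r h1 ?_
        have := mul_pos h4 h3
        have := mul_pos h5 ks
        linarith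
      exact hX ⟨mul_neg_of_pos_of_neg h5 h6, mul_neg_of_neg_of_pos h7 h3⟩

theorem out_far {c : List α} (hk : ∀ x y, Sd c x y → 0 < dz p z x y) {v : α}
    (hv : ∀ a, ((p a).1 - z.1) ^ 2 + ((p a).2 - z.2) ^ 2 ≤
      ((p v).1 - z.1) ^ 2 + ((p v).2 - z.2) ^ 2) : Out p z c v := by
  rintro s t hst ⟨h1, h2, h3⟩
  have ks := hk s t hst
  have hs := hv s
  have ht := hv t
  obtain ⟨N, hN⟩ : ∃ N, N = ((p v).1 - z.1) ^ 2 + ((p v).2 - z.2) ^ 2 := ⟨_, rfl⟩
  obtain ⟨S, hS⟩ : ∃ S, S = ((p s).1 - z.1) * ((p v).1 - z.1) +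
    ((p s).2 - z.2) * ((p v).2 - z.2) := ⟨_, rfl⟩
  obtain ⟨T, hT⟩ : ∃ T, T = ((p t).1 - z.1) * ((p v).1 - z.1) +
    ((p t).2 - z.2) * ((p v).2 - z.2) := ⟨_, rfl⟩
  have e1 : dz p z s t * N = dz p z v t * S + dz p z s v * T := by
    rw [hN, hS, hT]
    unfold dz
    ring
  have e2 : dz p z v t + dz p z s v < dz p z s t := by
    have : o p s t v = dz p z s t - dz p z v t - dz p z s v := by
      unfold o dz
      ring
    linarith
  have k1 : S ≤ N := by
    have q1 := sq_nonneg (((p s).1 - z.1) - ((p v).1 - z.1))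
    have q2 := sq_nonneg (((p s).2 - z.2) - ((p v).2 - z.2))
    rw [hS, hN]
    linarith
  have k2 : T ≤ N := by
    have q1 := sq_nonneg (((p t).1 - z.1) - ((p v).1 - z.1))
    have q2 := sq_nonneg (((p t).2 - z.2) - ((p v).2 - z.2))
    rw [hT, hN]
    linarith
  have k3 : 0 < N := by
    by_contra h4
    have q1 := sq_nonneg ((p v).1 - z.1)
    have q2 := sq_nonneg ((p v).2 - z.2)
    have h5 : (p v).1 - z.1 = 0 := by
      have : ((p v).1 - z.1) ^ 2 = 0 := by linarith
      exact pow_eq_zero_iff (two_ne_zero) |>.1 this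
    have h6 : (p v).2 - z.2 = 0 := by
      have : ((p v).2 - z.2) ^ 2 = 0 := by linarith
      exact pow_eq_zero_iff (two_ne_zero) |>.1 this
    unfold dz at h1
    rw [h5, h6] at h1
    linarith
  have k4 := mul_le_mul_of_nonneg_left k1 h2.le
  have k5 := mul_le_mul_of_nonneg_left k2 h1.le
  have k6 := mul_lt_mul_of_pos_right e2 k3
  linarith

/-- the vertices of such a polygon are in the order of their directions -/
theorem star_of {c : List α} (hgp : GP p) (hn : c.Nodup) (hall : ∀ v, v ∈ c)
    (hpl : Plane p (Nb c)) (hz : ∀ a b : α, a ≠ b → dz p z a b ≠ 0)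
    (hk : ∀ x y, Sd c x y → 0 < dz p z x y) {v0 : α}
    (hv0 : ∀ a, ((p a).1 - z.1) ^ 2 + ((p a).2 - z.2) ^ 2 ≤
      ((p v0).1 - z.1) ^ 2 + ((p v0).2 - z.2) ^ 2) : Star p z c := by
  have hout : ∀ v, Out p z c v := by
    obtain ⟨E, hE⟩ := rot_to (hall v0)
    intro v
    exact forth (R := Out p z c) E v0 (out_far hk hv0)
      (fun A u v B h h2 => out_next hgp hn hall hpl hz hk (sd_of hE h) h2) v
      (hE.mem_iff.1 (hall v))
  have hcone : ∀ x y v, Sd c x y → ¬ (0 < dz p z x v ∧ 0 < dz p z v y) := by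
    rintro x y v hxy ⟨h1, h2⟩
    have kx := hk x y hxy
    have hxv : x ≠ v := by
      rintro rfl
      rw [dz_self] at h1
      exact lt_irrefl _ h1
    have hvy : v ≠ y := by
      rintro rfl
      rw [dz_self] at h2
      exact lt_irrefl _ h2
    have hxy' : x ≠ y := by
      rintro rfl
      rw [dz_self] at kx
      exact lt_irrefl _ kx
    rcases lt_or_gt_of_ne (hgp.ne x y v hxy' hvy.symm hxv) with h3 | h3
    · exact bey_empty hgp hn hall hpl hz hk hxy (hout x) v ⟨h1, h2, h3⟩
    · exact hout v x y hxy ⟨h1, h2, h3⟩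
  refine ⟨fun x y C h => hk x y ⟨C, h⟩, ?_⟩
  intro v E hE
  refine pw_adj ?_ E ?_
  · rintro a b c (⟨a1, b1⟩ | ⟨ab, dab⟩) (⟨b2, c2⟩ | ⟨bc, dbc⟩)
    · linarith
    · refine Or.inl ⟨a1, ?_⟩
      rcases mul_pos_iff.1 bc with ⟨h1, _⟩ | ⟨_, h1⟩
      · linarith
      · exact h1
    · refine Or.inl ⟨?_, c2⟩
      rcases mul_pos_iff.1 ab with ⟨h1, _⟩ | ⟨_, h1⟩
      · exact h1
      · linarith
    · have e : dz p z v b * dz p z a c = dz p z v a * dz p z b c + dz p z v c * dz p z a b := by
        unfold dz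
        ring
      rcases mul_pos_iff.1 ab with ⟨h1, h2⟩ | ⟨h1, h2⟩
      · have h3 : 0 < dz p z v c := pos_r h2 bc
        refine Or.inr ⟨mul_pos h1 h3, pos_r h2 ?_⟩
        rw [e]
        exact add_pos (mul_pos h1 dbc) (mul_pos h3 dab)
      · have h3 : dz p z v c < 0 := by
          rcases mul_pos_iff.1 bc with ⟨h4, _⟩ | ⟨_, h4⟩
          · linarith
          · exact h4
        refine Or.inr ⟨mul_pos_of_neg_of_neg h1 h3, ?_⟩
        refine pos_r (neg_pos.2 h2) ?_
        have k1 := mul_pos (neg_pos.2 h1) dbc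
        have k2 := mul_pos (neg_pos.2 h3) dab
        linarith
  · intro A a b B hAB
    have hab : Sd c a b := sd_of hE (by rw [hAB]; rfl : v :: E = (v :: A) ++ a :: b :: B)
    have kab := hk a b hab
    have hnE := nodup_rot hE hn
    rw [hAB] at hnE
    have hva : v ≠ a := by
      rintro rfl
      exact (List.nodup_cons.1 hnE).1 (by simp)
    have hvb : v ≠ b := by
      rintro rfl
      exact (List.nodup_cons.1 hnE).1 (by simp)
    rcases lt_or_gt_of_ne (hz v a hva) with h1 | h1
    · rcases lt_or_gt_of_ne (hz v b hvb) with h2 | h2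
      · exact Or.inr ⟨mul_pos_of_neg_of_neg h1 h2, kab⟩
      · exfalso
        refine hcone a b v hab ⟨?_, h2⟩
        rw [dz_neg]
        linarith
    · rcases lt_or_gt_of_ne (hz v b hvb) with h2 | h2
      · exact Or.inl ⟨h1, h2⟩
      · exact Or.inr ⟨mul_pos h1 h2, kab⟩

end

open Filter Topology in
/-- a centre may be moved into general position -/
theorem exists_gen {n : ℕ} {p : Fin n → ℝ × ℝ} (hi : Function.Injective p) {z : ℝ × ℝ}
    {T : Fin n → Fin n → Prop} (hT : ∀ a b, T a b → 0 < dz p z a b) :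
    ∃ z' : ℝ × ℝ, (∀ a b, T a b → 0 < dz p z' a b) ∧ ∀ a b, a ≠ b → dz p z' a b ≠ 0 := by
  have key : ∀ a b : Fin n, ∀ᶠ ε in 𝓝[>] (0 : ℝ),
      (T a b → 0 < dz p (z.1 + ε, z.2 + ε ^ 2) a b) ∧
        (a ≠ b → dz p (z.1 + ε, z.2 + ε ^ 2) a b ≠ 0) := by
    intro a b
    obtain ⟨c1, hc1⟩ : ∃ c1, c1 = (p a).2 - (p b).2 := ⟨_, rfl⟩
    obtain ⟨c2, hc2⟩ : ∃ c2, c2 = (p b).1 - (p a).1 := ⟨_, rfl⟩
    have e : ∀ ε : ℝ, dz p (z.1 + ε, z.2 + ε ^ 2) a b =
        dz p z a b + ε * (c1 + ε * c2) := by
      intro ε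
      unfold dz
      rw [hc1, hc2]
      ring
    have t1 : Tendsto (fun ε : ℝ => dz p z a b + ε * (c1 + ε * c2)) (𝓝[>] 0)
        (𝓝 (dz p z a b)) := by
      have h1 : ContinuousAt (fun ε : ℝ => dz p z a b + ε * (c1 + ε * c2)) 0 := by fun_prop
      have h2 := h1.tendsto
      simp only [zero_mul, add_zero] at h2
      exact h2.mono_left nhdsWithin_le_nhds
    have t2 : Tendsto (fun ε : ℝ => c1 + ε * c2) (𝓝[>] 0) (𝓝 c1) := by
      have h1 : ContinuousAt (fun ε : ℝ => c1 + ε * c2) 0 := by fun_prop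
      have h2 := h1.tendsto
      simp only [zero_mul, add_zero] at h2
      exact h2.mono_left nhdsWithin_le_nhds
    have hpos : ∀ᶠ ε in 𝓝[>] (0 : ℝ), 0 < ε := eventually_mem_nhdsWithin
    refine Eventually.and ?_ ?_
    · by_cases h : T a b
      · have h1 := t1.eventually (lt_mem_nhds (hT a b h))
        filter_upwards [h1] with ε h2 _
        rw [e]
        exact h2
      · exact Eventually.of_forall fun _ h' => absurd h' h
    · by_cases hab : a = b
      · exact Eventually.of_forall fun _ h' => absurd hab h'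
      · by_cases h0 : dz p z a b = 0
        · by_cases h1 : c1 = 0
          · have h2 : c2 ≠ 0 := by
              intro h2
              refine hab (hi (Prod.ext ?_ ?_))
              · linarith
              · linarith
            filter_upwards [hpos] with ε h3 _
            rw [e, h0, h1, zero_add, zero_add]
            exact mul_ne_zero h3.ne' (mul_ne_zero h3.ne' h2)
          · have h2 := t2.eventually (isOpen_ne.mem_nhds h1)
            filter_upwards [h2, hpos] with ε h3 h4 _
            rw [e, h0, zero_add]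
            exact mul_ne_zero h4.ne' h3
        · have h2 := t1.eventually (isOpen_ne.mem_nhds h0)
          filter_upwards [h2] with ε h3 _
          rw [e]
          exact h3
  have key2 : ∀ᶠ ε in 𝓝[>] (0 : ℝ), ∀ a b : Fin n,
      (T a b → 0 < dz p (z.1 + ε, z.2 + ε ^ 2) a b) ∧
        (a ≠ b → dz p (z.1 + ε, z.2 + ε ^ 2) a b ≠ 0) :=
    eventually_all.2 fun a => eventually_all.2 fun b => key a b
  obtain ⟨ε, hε⟩ := key2.exists
  exact ⟨_, fun a b => (hε a b).1, fun a b => (hε a b).2⟩

/-- a star-shaped polygon (some point sees all sides in positive orientation) is connected with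
a suffix-independent path -/
theorem star_u {n : ℕ} {p : Fin n → ℝ × ℝ} (hgp : GP p) {c : List (Fin n)} (hn : c.Nodup)
    (hall : ∀ v, v ∈ c) (hpl : Plane p (Nb c))
    (hk : ∃ z : ℝ × ℝ, ∀ (x y : Fin n) (C : List (Fin n)), c.IsRotated (x :: y :: C) →
      0 < dz p z x y) :
    ∃ l : List (Fin n), l.Nodup ∧ (∀ v, v ∈ l) ∧ Plane p (Ed l) ∧ Dsm.SI p l ∧
      Relation.ReflTransGen (U p) l c := by
  obtain ⟨z0, hk⟩ := hk
  have hst : ∃ z, Star p z c := by
    rcases Nat.eq_zero_or_pos n with h0 | h0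
    · subst h0
      exact ⟨z0, fun x => x.elim0, fun v => v.elim0⟩
    · obtain ⟨z, h1, h2⟩ := exists_gen (T := Sd c) hgp.inj (z := z0)
        (fun a b h => by
          obtain ⟨C, hC⟩ := h
          exact hk a b C hC)
      obtain ⟨v, -, hv⟩ := Finset.exists_max_image Finset.univ
        (fun a => ((p a).1 - z.1) ^ 2 + ((p a).2 - z.2) ^ 2)
        ⟨(⟨0, h0⟩ : Fin n), Finset.mem_univ _⟩
      exact ⟨z, star_of hgp hn hall hpl h2 h1 (fun a => hv a (Finset.mem_univ _))⟩
  obtain ⟨z, hst⟩ := hst
  obtain ⟨l, h1, h2, h3, h4⟩ := star_si hgp hn hall hpl hst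
  have hc : Plane p (Ed c) := by
    intro a b x y h5 h6
    exact hpl a b x y (ch_of_rot (List.IsRotated.refl c) a b h5)
      (ch_of_rot (List.IsRotated.refl c) x y h6)
  exact ⟨l, h1, h2, u_plane hc h4, h3, u_symm hc h4⟩

end FPR
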