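import Pool.Agent.Lib.MP_deef39_co_PR.Mono
import Pool.Agent.Lib.MP_deef39_co_PR.Exch
import Pool.Agent.Lib.MP_deef39_co_PR.One
import Pool.Agent.Lib.MP_deef39_co_PR.StarK
import Pool.Agent.Lib.MP_deef39_co_Dsm.Main
import Pool.Agent.Lib.MP_deef39_co_PW.GrphL
import Pool.Agent.Lib.MP_deef39_co_PW.GrphS
import Pool.Agent.Lib.MP_deef39_co_PW.Seg

/-! # PR module Fin: from lists to graphs -/

set_option autoImplicit false

namespace FPR

open FPW

/-- `c` is a simple polygon through all points, given by its cyclic order -/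
def Polygon {n : ℕ} (p : Fin n → ℝ × ℝ) (c : List (Fin n)) : Prop :=
  c.Nodup ∧ (∀ v, v ∈ c) ∧ Plane p (Nb c)

/-- the graph `G` crosses no side of `c`, and at most one pair `f`, `g` of edges of `G` is
interleaved on `c` -/
def Within {n : ℕ} (p : Fin n → ℝ × ℝ) (c : List (Fin n)) (G : SimpleGraph (Fin n)) : Prop :=
  (∀ a b x y, G.Adj a b → Nb c x y → ¬ X p a b x y) ∧
    ∃ f g : Sym2 (Fin n), ∀ a b x y, G.Adj a b → G.Adj x y → Sp c a b x y →
      (s(a, b) = f ∧ s(x, y) = g) ∨ (s(a, b) = g ∧ s(x, y) = f)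

/-- plane spanning paths, as in the frozen statement -/
def PSP {n : ℕ} (p : Fin n → ℝ × ℝ) (A : SimpleGraph (Fin n)) : Prop :=
  A.IsTree ∧ (∀ v : Fin n, (A.neighborSet v).ncard ≤ 2) ∧
    ∀ a b c d : Fin n, A.Adj a b → A.Adj c d → s(a, b) ≠ s(c, d) →
      ∀ x : ℝ × ℝ, x ∈ segment ℝ (p a) (p b) → x ∈ segment ℝ (p c) (p d) →
        (x = p a ∨ x = p b) ∧ (x = p c ∨ x = p d)

/-- `A` is a suffix independent plane spanning path: in one of its two orders every point lies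
outside of the convex hull of the later ones -/
def SIP {n : ℕ} (p : Fin n → ℝ × ℝ) (A : SimpleGraph (Fin n)) : Prop :=
  PSP p A ∧ ∃ l : List (Fin n), l.Nodup ∧ (∀ v, v ∈ l) ∧ (∀ x y, A.Adj x y ↔ Ed l x y) ∧
    ∀ (V : List (Fin n)) (x : Fin n) (Q : List (Fin n)), l = V ++ x :: Q →
      p x ∉ convexHull ℝ (p '' {t | t ∈ Q})

/-- the polygon `c` is monotone in some direction, or star-shaped (some point `z` lies to the left
of every side), or some suffix independent plane spanning path is Within `c` -/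
def Good {n : ℕ} (p : Fin n → ℝ × ℝ) (c : List (Fin n)) : Prop :=
  (∃ w : ℝ × ℝ, (∀ a b : Fin n, gd p w a = gd p w b → a = b) ∧ Mon p w c) ∨
    (∃ z : ℝ × ℝ, ∀ (x y : Fin n) (C : List (Fin n)), c.IsRotated (x :: y :: C) →
      0 < dz p z x y) ∨
    ∃ A : SimpleGraph (Fin n), SIP p A ∧ Within p c A

/-- some plane spanning path is Within both polygons, or they differ by the exchange of two
sides, or by moving one vertex to another place, or both are Good -/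
def Step {n : ℕ} (p : Fin n → ℝ × ℝ) (c c' : List (Fin n)) : Prop :=
  Polygon p c ∧ Polygon p c' ∧
    ((∃ A : SimpleGraph (Fin n), PSP p A ∧ Within p c A ∧ Within p c' A) ∨
    (∃ A B : List (Fin n), c.IsRotated (A ++ B) ∧ c'.IsRotated (A ++ B.reverse)) ∨
    (∃ (v : Fin n) (D E : List (Fin n)), c.IsRotated (v :: (D ++ E)) ∧
      c'.IsRotated (v :: (E ++ D))) ∨
    (Good p c ∧ Good p c'))

theorem perm_of_all {n : ℕ} {l l' : List (Fin n)} (h1 : l.Nodup) (h2 : l'.Nodup)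
    (h3 : ∀ v, v ∈ l) (h4 : ∀ v, v ∈ l') : l.Perm l' :=
  (List.perm_ext_iff_of_nodup h1 h2).2 fun v => ⟨fun _ => h4 v, fun _ => h3 v⟩

theorem plane_of {n : ℕ} {p : Fin n → ℝ × ℝ} (hgp : GP p) {A : SimpleGraph (Fin n)}
    (h : PSP p A) {l : List (Fin n)} (hl1 : l.Nodup) (hl3 : ∀ x y, A.Adj x y ↔ Ed l x y) :
    A = gr l ∧ Plane p (Ed l) := by
  obtain ⟨h1, h2, h3⟩ := h
  refine ⟨?_, ?_⟩
  · ext x y
    rw [gr_adj hl1, hl3]
  · intro a b c d hab hcd hX
    have hne := X_ne hX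
    by_cases hs : s(a, b) = s(c, d)
    · rcases Sym2.eq_iff.1 hs with ⟨h4, _⟩ | ⟨h4, _⟩
      · exact hne.2.2.1 h4
      · exact hne.2.2.2.1 h4
    · exact (seg_iff hgp hne.1 hne.2.1 hs).1
        (h3 a b c d ((hl3 a b).2 hab) ((hl3 c d).2 hcd) hs) hX

theorem psp_list {n : ℕ} {p : Fin n → ℝ × ℝ} (hgp : GP p) {A : SimpleGraph (Fin n)}
    (h : PSP p A) : ∃ l : List (Fin n),
      l.Nodup ∧ (∀ v, v ∈ l) ∧ A = gr l ∧ Plane p (Ed l) := by
  obtain ⟨l, hl1, hl2, hl3⟩ := tree_list A h.1 h.2.1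
  obtain ⟨h4, h5⟩ := plane_of hgp h hl1 hl3
  exact ⟨l, hl1, hl2, h4, h5⟩

theorem within_u {n : ℕ} {p : Fin n → ℝ × ℝ} {c l : List (Fin n)} (h1 : Polygon p c)
    (h2 : l.Nodup) (h3 : ∀ v, v ∈ l) (h4 : Plane p (Ed l)) (h5 : Within p c (gr l)) :
    Relation.ReflTransGen (U p) l c := by
  obtain ⟨f, g, h8⟩ := h5.2
  refine one h1.1 (perm_of_all h2 h1.1 h3 h1.2.1) (f := f) (g := g) ⟨?_, ?_⟩
  · rintro a b x y (h6 | h6) (h7 | h7) hX
    · exact h4 a b x y h6 h7 hX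
    · exact h5.1 a b x y ((gr_adj h2).2 h6) h7 hX
    · exact h5.1 x y a b ((gr_adj h2).2 h7) h6 (X_comm.1 hX)
    · exact h1.2.2 a b x y h6 h7 hX
  · intro a b x y h6 h7
    exact h8 a b x y ((gr_adj h2).2 h6) ((gr_adj h2).2 h7)

theorem sp_of_out {n : ℕ} {p : Fin n → ℝ × ℝ} {y : Fin n} {L : List (Fin n)} (hy : y ∉ L)
    (h : p y ∉ convexHull ℝ (p '' {t | t ∈ L})) : Dsm.Sp p y L := by
  have he : ({t | t ∈ y :: L} : Set (Fin n)) \ {y} = {t | t ∈ L} := by
    ext t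
    simp only [Set.mem_sdiff, Set.mem_singleton_iff]
    constructor
    · rintro ⟨h1, h2⟩
      exact (List.mem_cons.1 h1).resolve_left h2
    · intro h1
      exact ⟨List.mem_cons_of_mem _ h1, fun h2 => hy (h2 ▸ h1)⟩
  have hE : FPW.Ext p {t | t ∈ y :: L} y := by
    unfold FPW.Ext
    rw [he]
    exact h
  obtain ⟨r, _, hr⟩ := ext_sep hE
  exact ⟨r, fun t ht => hr t (List.mem_cons_of_mem _ ht) (fun h2 => hy (h2 ▸ ht))⟩

theorem si_of_out {n : ℕ} {p : Fin n → ℝ × ℝ} : ∀ l : List (Fin n), l.Nodup →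
    (∀ (V : List (Fin n)) (x : Fin n) (Q : List (Fin n)), l = V ++ x :: Q →
      p x ∉ convexHull ℝ (p '' {t | t ∈ Q})) → Dsm.SI p l
  | [], _, _ => trivial
  | x :: l, hn, h => by
    refine ⟨sp_of_out (List.nodup_cons.1 hn).1 (h [] x l rfl), ?_⟩
    refine si_of_out l (List.nodup_cons.1 hn).2 ?_
    intro V y Q hl
    exact h (x :: V) y Q (by rw [hl]; rfl)

theorem si_of_inc {α : Type*} {p : α → ℝ × ℝ} {w : ℝ × ℝ} : ∀ l : List α, Inc p w l →
    Dsm.SI p l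
  | [], _ => trivial
  | x :: l, h => by
    have h1 := List.pairwise_cons.1 h
    refine ⟨⟨(w.2, -w.1), ?_⟩, si_of_inc l h1.2⟩
    intro t ht
    have h2 := h1.1 t ht
    unfold gd at h2
    unfold cr
    simp only
    linarith

theorem good_u {n : ℕ} {p : Fin n → ℝ × ℝ} (hgp : GP p) {c : List (Fin n)}
    (hc : Polygon p c) (h : Good p c) : ∃ l : List (Fin n), l.Nodup ∧ (∀ v, v ∈ l) ∧
      Plane p (Ed l) ∧ Dsm.SI p l ∧ Relation.ReflTransGen (U p) l c := by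
  rcases h with ⟨w, h1, h2⟩ | h1 | ⟨A, ⟨h1, l, h2, h3, h4, h5⟩, h6⟩
  · obtain ⟨M, h3, h4⟩ := exists_inc h1 c hc.1
    have h5 := mono_inn hc.1 h1 hc.2.2 h2 h3 h4
    exact ⟨M, h3.nodup_iff.2 hc.1, fun v => h3.mem_iff.2 (hc.2.1 v),
      fun a b x y k1 k2 => h5.pl a b x y (Or.inl k1) (Or.inl k2), si_of_inc M h4,
      to_c hc.1 h3 h5⟩
  · exact star_u hgp hc.1 hc.2.1 hc.2.2 h1
  · obtain ⟨rfl, h8⟩ := plane_of hgp h1 h2 h4
    exact ⟨l, h2, h3, h8, si_of_out l h2 h5, within_u hc h2 h3 h8 h6⟩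

theorem step_u {n : ℕ} {p : Fin n → ℝ × ℝ} (hgp : GP p) {c c' : List (Fin n)}
    (h : Step p c c') : Relation.ReflTransGen (U p) c c' := by
  obtain ⟨hc, hc', h⟩ := h
  obtain ⟨h1, h2, h3⟩ := id hc
  obtain ⟨h4, h5, h6⟩ := id hc'
  rcases h with ⟨A, k1, k2, k3⟩ | h | h | ⟨h, h'⟩
  · obtain ⟨l, l1, l2, rfl, l3⟩ := psp_list hgp k1
    exact (u_symm l3 (within_u hc l1 l2 l3 k2)).trans (within_u hc' l1 l2 l3 k3)
  · obtain ⟨A, B, h7, h8⟩ := h
    exact exch2 h4 h3 h6 h7 h8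
  · obtain ⟨v, D, E, h7, h8⟩ := h
    exact vmove h4 h3 h6 h7 h8
  · obtain ⟨l, l1, l2, l3, l4, l5⟩ := good_u hgp hc h
    obtain ⟨l', l1', l2', l3', l4', l5'⟩ := good_u hgp hc' h'
    have k1 : Relation.ReflTransGen (U p) l l' :=
      Dsm.kkrU hgp l1 (perm_of_all l1' l1 l2' l2) l3 l3' l4 l4'
    exact ((u_symm l3 l5).trans k1).trans l5'

theorem steps_u {n : ℕ} {p : Fin n → ℝ × ℝ} (hgp : GP p) {c c' : List (Fin n)}
    (h : Relation.ReflTransGen (Step p) c c') : Relation.ReflTransGen (U p) c c' := by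
  induction h with
  | refl => exact Relation.ReflTransGen.refl
  | tail _ h2 ih => exact ih.trans (step_u hgp h2)

theorem steps_polygon {n : ℕ} {p : Fin n → ℝ × ℝ} {c c' : List (Fin n)} (hc : Polygon p c)
    (h : Relation.ReflTransGen (Step p) c c') : Polygon p c' := by
  induction h with
  | refl => exact hc
  | tail _ h2 _ => exact h2.2.1

theorem final (n : ℕ) (p : Fin n → ℝ × ℝ) (hi : Function.Injective p)
    (hc : ∀ i j k : Fin n, i ≠ j → j ≠ k → i ≠ k →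
      ¬ Collinear ℝ ({p i, p j, p k} : Set (ℝ × ℝ)))
    (c c' : List (Fin n)) (hpol : Polygon p c)
    (hstep : Relation.ReflTransGen (Step p) c c') :
    ∀ P : SimpleGraph (Fin n) → Prop,
      (∀ A : SimpleGraph (Fin n), P A ↔
        (A.IsTree ∧ (∀ v : Fin n, (A.neighborSet v).ncard ≤ 2) ∧
          ∀ a b c d : Fin n, A.Adj a b → A.Adj c d → s(a, b) ≠ s(c, d) →
            ∀ x : ℝ × ℝ, x ∈ segment ℝ (p a) (p b) → x ∈ segment ℝ (p c) (p d) →
              (x = p a ∨ x = p b) ∧ (x = p c ∨ x = p d))) →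
      ∀ G H : SimpleGraph (Fin n), P G → P H → Within p c G → Within p c' H →
        Relation.ReflTransGen
          (fun A B : SimpleGraph (Fin n) =>
            P A ∧ P B ∧ (A.edgeSet \ B.edgeSet).ncard = 1 ∧
              (B.edgeSet \ A.edgeSet).ncard = 1)
          G H := by
  intro P hP G H hG hH hwG hwH
  have hgp : GP p := gp_of hi hc
  have hlist : ∀ A : SimpleGraph (Fin n), P A → ∃ l : List (Fin n),
      l.Nodup ∧ (∀ v, v ∈ l) ∧ A = gr l ∧ Plane p (Ed l) :=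
    fun A hA => psp_list hgp ((hP A).1 hA)
  obtain ⟨v0⟩ := ((hP G).1 hG).1.connected.nonempty
  have hback : ∀ l : List (Fin n), l.Nodup → (∀ v, v ∈ l) → Plane p (Ed l) → P (gr l) := by
    intro l h1 h2 h3
    refine (hP _).2 ⟨gr_tree h1 (List.ne_nil_of_mem (h2 v0)) h2, gr_deg h1, ?_⟩
    intro a b c d hab hcd hs
    have h4 := (gr_adj h1).1 hab
    have h5 := (gr_adj h1).1 hcd
    exact (seg_iff hgp (ed_ne h1 h4) (ed_ne h1 h5) hs).2 (h3 a b c d h4 h5)
  obtain ⟨l, hl1, hl2, rfl, hl4⟩ := hlist G hG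
  obtain ⟨l', hl1', hl2', rfl, hl4'⟩ := hlist H hH
  have hU : Relation.ReflTransGen (U p) l l' :=
    ((within_u hpol hl1 hl2 hl4 hwG).trans (steps_u hgp hstep)).trans
      (u_symm hl4' (within_u (steps_polygon hpol hstep) hl1' hl2' hl4' hwH))
  have hmain : ∀ l₁ : List (Fin n), Relation.ReflTransGen (U p) l l₁ →
      Relation.ReflTransGen
        (fun A B : SimpleGraph (Fin n) =>
          P A ∧ P B ∧ (A.edgeSet \ B.edgeSet).ncard = 1 ∧
            (B.edgeSet \ A.edgeSet).ncard = 1)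
        (gr l) (gr l₁) := by
    intro l₁ h
    induction h with
    | refl => exact Relation.ReflTransGen.refl
    | @tail l₁ l₂ h1 h2 ih =>
      have hP' : ∀ m : List (Fin n), Relation.ReflTransGen (U p) l m → P (gr m) := by
        intro m hm
        have h3 := u_perm hm
        exact hback m (h3.nodup_iff.2 hl1) (fun v => h3.mem_iff.2 (hl2 v)) (u_plane hl4 hm)
      have hn1 : l₁.Nodup := (u_perm h1).nodup_iff.2 hl1
      rcases h2 with h3 | h3
      · obtain ⟨v, z, h4, _⟩ := id h3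
        rcases gr_rot hn1 h4 with h5 | h5
        · rw [h5]
          exact ih
        · exact ih.tail ⟨hP' l₁ h1, hP' l₂ (h1.tail (Or.inl h3)), h5.1, h5.2⟩
      · rw [h3, gr_reverse]
        exact ih
  exact hmain l' hU

end FPR
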