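import Pool.Agent.Lib.MP_deef39_co_PR.Red

/-! # PR module Mono: monotone polygons contain the sorted path -/

set_option autoImplicit false

namespace FPR

open FPW

section
variable {α : Type*} {p : α → ℝ × ℝ}

/-- coordinate of the point `a` in the direction `w` -/
def gd (p : α → ℝ × ℝ) (w : ℝ × ℝ) (a : α) : ℝ := w.1 * (p a).1 + w.2 * (p a).2

/-- strictly increasing in the direction `w` -/
def Inc (p : α → ℝ × ℝ) (w : ℝ × ℝ) (l : List α) : Prop :=
  l.Pairwise (fun a b => gd p w a < gd p w b)

/-- the polygon `c` consists of two paths which are monotone in the direction `w` -/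
def Mon (p : α → ℝ × ℝ) (w : ℝ × ℝ) (c : List α) : Prop :=
  ∃ (l r : α) (U D : List α), c.IsRotated (l :: (U ++ r :: D.reverse)) ∧
    Inc p w (l :: (U ++ [r])) ∧ Inc p w (l :: (D ++ [r]))

theorem X_pt {a b c d : α} (h : X p a b c d) : ∃ t τ : ℝ, 0 < t ∧ t < 1 ∧ 0 < τ ∧ τ < 1 ∧
    (1 - t) * (p a).1 + t * (p b).1 = (1 - τ) * (p c).1 + τ * (p d).1 ∧
    (1 - t) * (p a).2 + t * (p b).2 = (1 - τ) * (p c).2 + τ * (p d).2 := by
  obtain ⟨h1, h2⟩ := h
  have hne1 : o p a b c - o p a b d ≠ 0 := by
    intro h0
    have : o p a b c = o p a b d := by linarith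
    rw [this] at h1
    nlinarith [mul_self_nonneg (o p a b d)]
  have hne2 : o p c d a - o p c d b ≠ 0 := by
    intro h0
    have : o p c d a = o p c d b := by linarith
    rw [this] at h2
    nlinarith [mul_self_nonneg (o p c d b)]
  have key : ∀ s r : ℝ, s * r < 0 → 0 < s / (s - r) ∧ s / (s - r) < 1 := by
    intro s r hsr
    rcases mul_neg_iff.1 hsr with ⟨hs, hr⟩ | ⟨hs, hr⟩
    · have : 0 < s - r := by linarith
      exact ⟨div_pos hs this, by rw [div_lt_one this]; linarith⟩
    · have : s - r < 0 := by linarith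
      exact ⟨div_pos_of_neg_of_neg hs this, by rw [div_lt_one_of_neg this]; linarith⟩
  obtain ⟨k1, k2⟩ := key _ _ h1
  obtain ⟨k3, k4⟩ := key _ _ h2
  refine ⟨o p c d a / (o p c d a - o p c d b), o p a b c / (o p a b c - o p a b d),
    k3, k4, k1, k2, ?_, ?_⟩
  · field_simp
    unfold o
    ring
  · field_simp
    unfold o
    ring

/-- crossing segments: some value lies strictly between the values of the ends of both -/
theorem X_gd {a b c d : α} (w : ℝ × ℝ) (h : X p a b c d) (hab : gd p w a < gd p w b)
    (hcd : gd p w c < gd p w d) : gd p w a < gd p w d ∧ gd p w c < gd p w b := by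
  obtain ⟨t, τ, h1, h2, h3, h4, h5, h6⟩ := X_pt h
  have h7 : (1 - t) * gd p w a + t * gd p w b = (1 - τ) * gd p w c + τ * gd p w d := by
    unfold gd
    linear_combination w.1 * h5 + w.2 * h6
  constructor
  · nlinarith
  · nlinarith

variable {w : ℝ × ℝ}

theorem inc_split {l : List α} (h : Inc p w l) (v : ℝ) :
    ∃ A B, l = A ++ B ∧ (∀ z ∈ A, gd p w z < v) ∧ (∀ z ∈ B, v ≤ gd p w z) := by
  induction l with
  | nil => exact ⟨[], [], rfl, by simp, by simp⟩
  | cons a l ih =>
    have h1 := List.pairwise_cons.1 h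
    by_cases ha : gd p w a < v
    · obtain ⟨A, B, h2, h3, h4⟩ := ih h1.2
      refine ⟨a :: A, B, by rw [h2]; simp, ?_, h4⟩
      intro z hz
      rcases List.mem_cons.1 hz with rfl | hz
      · exact ha
      · exact h3 z hz
    · refine ⟨[], a :: l, rfl, by simp, ?_⟩
      intro z hz
      rcases List.mem_cons.1 hz with rfl | hz
      · exact not_lt.1 ha
      · exact (not_lt.1 ha).trans (h1.1 z hz).le

/-- entries of an increasing list without entry in between are consecutive -/
theorem inc_ed {l : List α} (h : Inc p w l) {x y : α} (hx : x ∈ l) (hy : y ∈ l)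
    (hxy : gd p w x < gd p w y) (hno : ∀ z ∈ l, ¬ (gd p w x < gd p w z ∧ gd p w z < gd p w y)) :
    Ed l x y := by
  obtain ⟨A, B, rfl⟩ := List.append_of_mem hx
  have h1 := List.pairwise_append.1 h
  have h2 := List.pairwise_cons.1 h1.2.1
  rcases List.mem_append.1 hy with h3 | h3
  · have h4 := h1.2.2 y h3 x (by simp)
    exact absurd h4 (not_lt.2 hxy.le)
  · rcases List.mem_cons.1 h3 with h4 | h4
    · rw [h4] at hxy
      exact absurd hxy (lt_irrefl _)
    · cases B with
      | nil => simp at h4
      | cons b B =>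
        rcases List.mem_cons.1 h4 with h5 | h5
        · rw [h5]
          exact ed_of_split
        · exfalso
          have h6 := (List.pairwise_cons.1 h2.2).1 y h5
          exact hno b (by simp) ⟨h2.1 b (by simp), h6⟩

/-- consecutive entries of an increasing list: the values, and nothing in between -/
theorem ed_inc {l : List α} (h : Inc p w l) {x y : α} (hxy : Ed l x y) :
    (gd p w x < gd p w y ∨ gd p w y < gd p w x) ∧
      ∀ z ∈ l, ¬ (gd p w x < gd p w z ∧ gd p w z < gd p w y) ∧
        ¬ (gd p w y < gd p w z ∧ gd p w z < gd p w x) := by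
  have key : ∀ x y : α, (∃ A B, l = A ++ x :: y :: B) → gd p w x < gd p w y ∧
      ∀ z ∈ l, ¬ (gd p w x < gd p w z ∧ gd p w z < gd p w y) := by
    rintro x y ⟨A, B, rfl⟩
    have h1 := List.pairwise_append.1 h
    have h2 := List.pairwise_cons.1 h1.2.1
    have h3 := List.pairwise_cons.1 h2.2
    refine ⟨h2.1 y (by simp), ?_⟩
    rintro z hz ⟨h4, h5⟩
    rcases List.mem_append.1 hz with h6 | h6
    · exact absurd (h1.2.2 z h6 x (by simp)) (not_lt.2 h4.le)
    · rcases List.mem_cons.1 h6 with h7 | h7
      · rw [h7] at h4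
        exact lt_irrefl _ h4
      · rcases List.mem_cons.1 h7 with h8 | h8
        · rw [h8] at h5
          exact lt_irrefl _ h5
        · exact absurd (h3.1 z h8) (not_lt.2 h5.le)
  obtain ⟨A, B, h1 | h1⟩ := ed_split hxy
  · obtain ⟨h2, h3⟩ := key x y ⟨A, B, h1⟩
    refine ⟨Or.inl h2, fun z hz => ⟨h3 z hz, ?_⟩⟩
    rintro ⟨h4, h5⟩
    exact absurd (h4.trans h5) (not_lt.2 h2.le)
  · obtain ⟨h2, h3⟩ := key y x ⟨A, B, h1⟩
    refine ⟨Or.inr h2, fun z hz => ⟨?_, h3 z hz⟩⟩
    rintro ⟨h4, h5⟩
    exact absurd (h4.trans h5) (not_lt.2 h2.le)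

/-- two arcs are not interleaved -/
theorem arc {c P Q : List α} (hn : c.Nodup) (h : c.IsRotated (P ++ Q)) {a b x y : α}
    (ha : a ∈ P) (hb : b ∈ P) (hx : x ∈ Q) (hy : y ∈ Q) : ¬ Sp c a b x y := by
  rintro ⟨C, D, h1, h2, h3⟩
  have hPQ := nodup_rot h hn
  have hdis : ∀ z, z ∈ P → z ∉ Q := fun z h4 h5 => (List.nodup_append.1 hPQ).2.2 z h4 z h5 rfl
  obtain ⟨P1, P2, rfl⟩ := List.append_of_mem ha
  have h4 : (P1 ++ a :: P2 ++ Q).IsRotated (a :: (P2 ++ Q ++ P1)) := by
    simpa using rot_app P1 (a :: P2 ++ Q)
  have h5 : (a :: (C ++ b :: D)).IsRotated (a :: (P2 ++ Q ++ P1)) :=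
    h1.symm.trans (h.trans h4)
  have hn1 := nodup_rot h1 hn
  have h6 : C ++ b :: D = P2 ++ Q ++ P1 := rot_head hn1 h5
  have hbC : b ∉ C := by
    intro h7
    exact (List.nodup_append.1 (List.nodup_cons.1 hn1).2).2.2 b h7 b (by simp) rfl
  have hbD : b ∉ D :=
    (List.nodup_cons.1 (List.nodup_append.1 (List.nodup_cons.1 hn1).2).2.1).1
  have hba : b ≠ a := by
    rintro rfl
    exact (List.nodup_cons.1 hn1).1 (by simp)
  -- position of `b`
  rcases List.append_eq_append_iff.1 h6 with ⟨R, h7, h8⟩ | ⟨R, h7, h8⟩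
  · -- `P2 ++ Q = C ++ R`, `b :: D = R ++ P1`
    cases R with
    | nil =>
      -- `b` is the head of `P1`
      rw [List.append_nil] at h7
      rw [List.nil_append] at h8
      have h9 : y ∈ P1 := by rw [← h8]; simp [h3]
      exact hdis y (by simp [h9]) hy
    | cons r R =>
      rw [List.cons_append, List.cons.injEq] at h8
      have h9 : b ∈ P2 ++ Q := by rw [h7, h8.1]; simp
      have h10 : b ∈ P2 := by
        rcases List.mem_append.1 h9 with h | h
        · exact h
        · exact absurd h (hdis b hb)
      -- then `C` is inside `P2`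
      obtain ⟨P21, P22, h11⟩ := List.append_of_mem h10
      rw [h11] at h7
      have h12 : C = P21 := by
        have h13 : P21 ++ b :: (P22 ++ Q) = C ++ b :: R := by
          rw [← h8.1] at h7
          simpa using h7
        have hb1 : b ∉ P21 := by
          intro h14
          have h15 : (P21 ++ b :: (P22 ++ Q)).Nodup := by
            rw [h13]
            have h16 : (C ++ b :: R ++ P1).Nodup := by
              have h17 : C ++ b :: D = C ++ b :: R ++ P1 := by rw [h8.2]; simp
              rw [← h17]
              exact (List.nodup_cons.1 hn1).2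
            exact (List.nodup_append.1 h16).1
          exact (List.nodup_append.1 h15).2.2 b h14 b (by simp) rfl
        rcases List.append_eq_append_iff.1 h13 with ⟨S, h14, h15⟩ | ⟨S, h14, h15⟩
        · cases S with
          | nil => rw [h14]; simp
          | cons s S =>
            rw [List.cons_append, List.cons.injEq] at h15
            exact absurd (by rw [h14, h15.1]; simp) hbC
        · cases S with
          | nil => rw [h14]; simp
          | cons s S =>
            rw [List.cons_append, List.cons.injEq] at h15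
            exact absurd (by rw [h14, h15.1]; simp) hb1
      rw [h12] at h2
      exact hdis x (by rw [h11]; simp [h2]) hx
  · -- `C = P2 ++ Q ++ R`, `P1 = R ++ b :: D`
    have h9 : y ∈ P1 := by rw [h8]; simp [h3]
    exact hdis y (by simp [h9]) hy

/-- the sorted path lies in every polygon monotone in the direction `w` -/
theorem mono_inn {c M : List α} (hn : c.Nodup) (hinj : ∀ a b : α, gd p w a = gd p w b → a = b)
    (hR : Plane p (Nb c)) (hm : Mon p w c) (hp : M.Perm c) (hM : Inc p w M) : Inn p c M := by
  obtain ⟨l, r, U, D, hc, hL, hL'⟩ := hm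
  have hn' := nodup_rot hc hn
  have hcov : ∀ z, z ∈ c → z ∈ l :: (U ++ [r]) ∨ z ∈ l :: (D ++ [r]) := by
    intro z hz
    have h1 := hc.mem_iff.1 hz
    simp only [List.mem_cons, List.mem_append, List.mem_reverse] at h1 ⊢
    tauto
  have hsub : ∀ z, z ∈ l :: (U ++ [r]) ∨ z ∈ l :: (D ++ [r]) → z ∈ c := by
    intro z hz
    refine hc.mem_iff.2 ?_
    simp only [List.mem_cons, List.mem_append, List.mem_reverse] at hz ⊢
    simp only [List.not_mem_nil, or_false] at hz
    tauto
  have hc2 : c.IsRotated (r :: (D.reverse ++ l :: U)) := by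
    refine hc.trans ?_
    simpa using rot_app (l :: U) (r :: D.reverse)
  -- edges of the two paths are sides
  have hE1 : ∀ x y, Ed (l :: (U ++ [r])) x y → Nb c x y := by
    intro x y hxy
    have h1 : l :: (U ++ r :: D.reverse) = (l :: (U ++ [r])) ++ D.reverse := by simp
    refine nb_rot hc.symm ?_
    rw [h1]
    obtain ⟨A, B, h2 | h2⟩ := ed_split hxy
    · rw [h2, List.append_assoc]
      exact nb_of_mid
    · rw [h2, List.append_assoc]
      exact nb_symm nb_of_mid
  have hE2 : ∀ x y, Ed (l :: (D ++ [r])) x y → Nb c x y := by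
    intro x y hxy
    rw [← ed_reverse] at hxy
    have h0 : (l :: (D ++ [r])).reverse = r :: (D.reverse ++ [l]) := by simp
    rw [h0] at hxy
    have h1 : r :: (D.reverse ++ l :: U) = (r :: (D.reverse ++ [l])) ++ U := by simp
    refine nb_rot hc2.symm ?_
    rw [h1]
    obtain ⟨A, B, h2 | h2⟩ := ed_split hxy
    · rw [h2, List.append_assoc]
      exact nb_of_mid
    · rw [h2, List.append_assoc]
      exact nb_symm nb_of_mid
  -- every side is an edge of one of the two paths
  have hE3 : ∀ x y, Nb c x y → Ed (l :: (U ++ [r])) x y ∨ Ed (l :: (D ++ [r])) x y := by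
    intro x y hxy
    have hlast : ∀ x' y' : α, (∃ C, l :: (U ++ r :: D.reverse) = x' :: (C ++ [y'])) →
        Ed (l :: (U ++ [r])) x' y' ∨ Ed (l :: (D ++ [r])) x' y' := by
      rintro x' y' ⟨C, hC⟩
      rw [List.cons.injEq] at hC
      obtain ⟨rfl, hC⟩ := hC
      cases D with
      | nil =>
        have h2 : r = y' := by
          have h3 := (List.append_inj' (by simpa using hC : U ++ [r] = C ++ [y']) rfl).2
          simpa using h3
        right
        rw [← h2]
        exact Or.inl ⟨rfl, rfl⟩
      | cons d D =>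
        have h2 : d = y' := by
          have h4 : (U ++ r :: D.reverse) ++ [d] = C ++ [y'] := by simpa using hC
          have h3 := (List.append_inj' h4 rfl).2
          simpa using h3
        right
        rw [← h2]
        exact Or.inl ⟨rfl, rfl⟩
    rcases nb_ed hn' (nb_rot hc hxy) with h1 | h1 | h1
    · have h2 : l :: (U ++ r :: D.reverse) = (l :: U) ++ r :: D.reverse := rfl
      rw [h2, ed_mid] at h1
      rcases h1 with h1 | h1
      · exact Or.inl h1
      · right
        rw [← ed_reverse]
        have h3 : (l :: (D ++ [r])).reverse = r :: D.reverse ++ [l] := by simp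
        rw [h3]
        obtain ⟨A, B, h2 | h2⟩ := ed_split h1
        · rw [h2, List.append_assoc]
          exact ed_of_split
        · rw [h2, List.append_assoc]
          exact ed_of_split'
    · exact hlast x y h1
    · rcases hlast y x h1 with h2 | h2
      · exact Or.inl (ed_symm h2)
      · exact Or.inr (ed_symm h2)
  -- an increasing edge of `M` crosses no increasing segment without `M`-vertex rule
  have hMall : ∀ z, z ∈ c → z ∈ M := fun z hz => hp.mem_iff.2 hz
  -- a crossing of an edge `x y` of `M` with a pair `s t`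
  have hcross : ∀ (K : List α), Inc p w K → (∀ z ∈ K, z ∈ c) → ∀ x y s t : α,
      Ed M x y → gd p w x < gd p w y → Ed K s t → gd p w s < gd p w t → X p x y s t →
      x ∉ K ∧ y ∉ K := by
    intro K hK hKc x y s t hxy hlt hst hlt' hX
    obtain ⟨h1, h2⟩ := X_gd w hX hlt hlt'
    have hMb := (ed_inc hM hxy).2
    have hKb := (ed_inc hK hst).2
    have hne := X_ne hX
    have hsK : s ∈ K := ed_mem hst
    have htK : t ∈ K := ed_mem' hst
    have h3 : gd p w s ≤ gd p w x := by
      by_contra h4
      exact (hMb s (hMall s (hKc s hsK))).1 ⟨not_le.1 h4, h2⟩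
    have h5 : gd p w y ≤ gd p w t := by
      by_contra h4
      exact (hMb t (hMall t (hKc t htK))).1 ⟨h1, not_le.1 h4⟩
    constructor
    · intro hxK
      have h6 := (hKb x hxK).1
      rcases eq_or_lt_of_le h3 with h7 | h7
      · exact hne.2.2.1 (hinj _ _ h7).symm
      · exact h6 ⟨h7, h1⟩
    · intro hyK
      have h6 := (hKb y hyK).1
      rcases eq_or_lt_of_le h5 with h7 | h7
      · exact hne.2.2.2.2.2 (hinj _ _ h7)
      · exact h6 ⟨h2, h7⟩
  -- orientation free version
  have hcross' : ∀ (K : List α), Inc p w K → (∀ z ∈ K, z ∈ c) → ∀ x y s t : α,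
      Ed M x y → Ed K s t → X p x y s t → x ∉ K ∧ y ∉ K := by
    intro K hK hKc x y s t hxy hst hX
    rcases (ed_inc hM hxy).1 with h1 | h1
    · rcases (ed_inc hK hst).1 with h2 | h2
      · exact hcross K hK hKc x y s t hxy h1 hst h2 hX
      · exact hcross K hK hKc x y t s hxy h1 (ed_symm hst) h2 (X_sw2.1 hX)
    · rcases (ed_inc hK hst).1 with h2 | h2
      · exact (hcross K hK hKc y x s t (ed_symm hxy) h1 hst h2 (X_sw1.1 hX)).symm
      · exact (hcross K hK hKc y x t s (ed_symm hxy) h1 (ed_symm hst) h2
          (X_sw2.1 (X_sw1.1 hX))).symm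
  -- an edge of `M` with both ends in `K` is an edge of `K`
  have hinK : ∀ (K : List α), Inc p w K → (∀ z ∈ K, z ∈ c) → ∀ x y : α,
      Ed M x y → x ∈ K → y ∈ K → Ed K x y := by
    intro K hK hKc x y hxy hx hy
    have hMb := ed_inc hM hxy
    rcases hMb.1 with h1 | h1
    · exact inc_ed hK hx hy h1 (fun z hz => (hMb.2 z (hMall z (hKc z hz))).1)
    · exact ed_symm (inc_ed hK hy hx h1 (fun z hz => (hMb.2 z (hMall z (hKc z hz))).2))
  have hMc : ∀ z ∈ M, z ∈ c := fun z hz => hp.mem_iff.1 hz
  have hMN : ∀ x y s t : α, Ed M x y → Nb c s t → ¬ X p x y s t := by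
    intro x y s t hxy hst hX
    have hxc : x ∈ c := hMc x (ed_mem hxy)
    have hyc : y ∈ c := hMc y (ed_mem' hxy)
    rcases hE3 s t hst with h1 | h1
    · obtain ⟨h2, h3⟩ := hcross' _ hL (fun z hz => hsub z (Or.inl hz)) x y s t hxy h1 hX
      have h4 : x ∈ l :: (D ++ [r]) := (hcov x hxc).resolve_left h2
      have h5 : y ∈ l :: (D ++ [r]) := (hcov y hyc).resolve_left h3
      exact hR x y s t
        (hE2 x y (hinK _ hL' (fun z hz => hsub z (Or.inr hz)) x y hxy h4 h5)) hst hX
    · obtain ⟨h2, h3⟩ := hcross' _ hL' (fun z hz => hsub z (Or.inr hz)) x y s t hxy h1 hX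
      have h4 : x ∈ l :: (U ++ [r]) := (hcov x hxc).resolve_right h2
      have h5 : y ∈ l :: (U ++ [r]) := (hcov y hyc).resolve_right h3
      exact hR x y s t
        (hE1 x y (hinK _ hL (fun z hz => hsub z (Or.inl hz)) x y hxy h4 h5)) hst hX
  refine ⟨?_, ?_⟩
  · rintro x y s t (h1 | h1) (h2 | h2) hX
    · exact (hcross' M hM hMc x y s t h1 h2 hX).1 (ed_mem h1)
    · exact hMN x y s t h1 h2 hX
    · exact hMN s t x y h2 h1 (X_comm.1 hX)
    · exact hR x y s t h1 h2 hX
  · intro a b x y hab hxy hs
    obtain ⟨hxa, hxb, hya, hyb⟩ := sp_ne hn hs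
    have h1 := ed_inc hM hab
    have h2 := ed_inc hM hxy
    have hxM := ed_mem hxy
    have hyM := ed_mem' hxy
    have haM := ed_mem hab
    have hbM := ed_mem' hab
    have gxa : gd p w x ≠ gd p w a := fun h => hxa (hinj _ _ h)
    have gxb : gd p w x ≠ gd p w b := fun h => hxb (hinj _ _ h)
    have gya : gd p w y ≠ gd p w a := fun h => hya (hinj _ _ h)
    have gyb : gd p w y ≠ gd p w b := fun h => hyb (hinj _ _ h)
    -- the arcs below and above a value
    have harc : ∀ v : ℝ, ∃ P Q : List α, c.IsRotated (P ++ Q) ∧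
        (∀ z, z ∈ c → gd p w z < v → z ∈ P) ∧ (∀ z, z ∈ c → v ≤ gd p w z → z ∈ Q) := by
      intro v
      by_cases hr : gd p w r < v
      · refine ⟨c, [], by simpa using List.IsRotated.refl c, fun z hz _ => hz, ?_⟩
        intro z hz hv
        exfalso
        have h3 : gd p w z ≤ gd p w r := by
          rcases hcov z hz with h4 | h4
          · have h5 : l :: (U ++ [r]) = (l :: U) ++ [r] := rfl
            rw [h5] at h4 hL
            rcases List.mem_append.1 h4 with h6 | h6
            · exact ((List.pairwise_append.1 hL).2.2 z h6 r (by simp)).le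
            · rw [List.mem_singleton.1 h6]
          · have h5 : l :: (D ++ [r]) = (l :: D) ++ [r] := rfl
            rw [h5] at h4 hL'
            rcases List.mem_append.1 h4 with h6 | h6
            · exact ((List.pairwise_append.1 hL').2.2 z h6 r (by simp)).le
            · rw [List.mem_singleton.1 h6]
        linarith
      · by_cases hl : gd p w l < v
        · have hU : Inc p w U := ((List.pairwise_append.1 (List.pairwise_cons.1 hL).2).1)
          have hD : Inc p w D := ((List.pairwise_append.1 (List.pairwise_cons.1 hL').2).1)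
          obtain ⟨U1, U2, hU0, hU1, hU2⟩ := inc_split hU v
          obtain ⟨D1, D2, hD0, hD1, hD2⟩ := inc_split hD v
          refine ⟨D1.reverse ++ l :: U1, U2 ++ r :: D2.reverse, ?_, ?_, ?_⟩
          · refine hc.trans ?_
            rw [hU0, hD0]
            simpa using rot_app (l :: U1 ++ (U2 ++ r :: D2.reverse)) D1.reverse
          · intro z hz hzv
            have h3 := hc.mem_iff.1 hz
            rw [hU0, hD0] at h3
            simp only [List.mem_cons, List.mem_append, List.mem_reverse] at h3 ⊢
            rcases h3 with h3 | (h3 | h3) | h3 | h3 | h3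
            · exact Or.inr (Or.inl h3)
            · exact Or.inr (Or.inr h3)
            · exact absurd hzv (not_lt.2 (hU2 z h3))
            · rw [h3] at hzv
              exact absurd hzv hr
            · exact Or.inl h3
            · exact absurd hzv (not_lt.2 (hD2 z h3))
          · intro z hz hzv
            have h3 := hc.mem_iff.1 hz
            rw [hU0, hD0] at h3
            simp only [List.mem_cons, List.mem_append, List.mem_reverse] at h3 ⊢
            rcases h3 with h3 | (h3 | h3) | h3 | h3 | h3
            · rw [h3] at hzv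
              exact absurd hl (not_lt.2 hzv)
            · exact absurd (hU1 z h3) (not_lt.2 hzv)
            · exact Or.inl h3
            · exact Or.inr (Or.inl h3)
            · exact absurd (hD1 z h3) (not_lt.2 hzv)
            · exact Or.inr (Or.inr h3)
        · refine ⟨[], c, by simpa using List.IsRotated.refl c, ?_, fun z hz _ => hz⟩
          intro z hz hv
          exfalso
          have h3 : gd p w l ≤ gd p w z := by
            rcases hcov z hz with h4 | h4
            · rcases List.mem_cons.1 h4 with h6 | h6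
              · rw [h6]
              · exact ((List.pairwise_cons.1 hL).1 z h6).le
            · rcases List.mem_cons.1 h4 with h6 | h6
              · rw [h6]
              · exact ((List.pairwise_cons.1 hL').1 z h6).le
          exact hl (lt_of_le_of_lt h3 hv)
    -- either both ends of `a b` are below both ends of `x y`, or above
    have hcase : (gd p w a < min (gd p w x) (gd p w y) ∧ gd p w b < min (gd p w x) (gd p w y)) ∨
        (gd p w x < min (gd p w a) (gd p w b) ∧ gd p w y < min (gd p w a) (gd p w b)) := by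
      have k1 := h1.2 x hxM
      have k2 := h1.2 y hyM
      have k3 := h2.2 a haM
      simp only [lt_min_iff]
      rcases lt_or_gt_of_ne gxa with q1 | q1 <;> rcases lt_or_gt_of_ne gxb with q2 | q2 <;>
        rcases lt_or_gt_of_ne gya with q3 | q3 <;> rcases lt_or_gt_of_ne gyb with q4 | q4 <;>
        rcases h1.1 with q5 | q5 <;> rcases h2.1 with q6 | q6
      all_goals first
        | (left; exact ⟨⟨q1, q3⟩, ⟨q2, q4⟩⟩)
        | (right; exact ⟨⟨q1, q2⟩, ⟨q3, q4⟩⟩)
        | (exfalso; exact k1.1 ⟨by assumption, by assumption⟩)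
        | (exfalso; exact k1.2 ⟨by assumption, by assumption⟩)
        | (exfalso; exact k2.1 ⟨by assumption, by assumption⟩)
        | (exfalso; exact k2.2 ⟨by assumption, by assumption⟩)
        | (exfalso; exact k3.1 ⟨by assumption, by assumption⟩)
        | (exfalso; exact k3.2 ⟨by assumption, by assumption⟩)
    rcases hcase with ⟨h3, h4⟩ | ⟨h3, h4⟩
    · obtain ⟨P, Q, h5, h6, h7⟩ := harc (min (gd p w x) (gd p w y))
      exact arc hn h5 (h6 a (hMc a haM) h3) (h6 b (hMc b hbM) h4)
        (h7 x (hMc x hxM) (min_le_left _ _)) (h7 y (hMc y hyM) (min_le_right _ _)) hs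
    · obtain ⟨P, Q, h5, h6, h7⟩ := harc (min (gd p w a) (gd p w b))
      exact arc hn (h5.trans (rot_app P Q)) (h7 a (hMc a haM) (min_le_left _ _))
        (h7 b (hMc b hbM) (min_le_right _ _)) (h6 x (hMc x hxM) h3) (h6 y (hMc y hyM) h4) hs

theorem exists_inc (hinj : ∀ a b : α, gd p w a = gd p w b → a = b) :
    ∀ c : List α, c.Nodup → ∃ M : List α, M.Perm c ∧ Inc p w M
  | [], _ => ⟨[], List.Perm.refl _, List.Pairwise.nil⟩
  | a :: c, hn => by
    obtain ⟨M, h1, h2⟩ := exists_inc hinj c (List.nodup_cons.1 hn).2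
    obtain ⟨A, B, h3, h4, h5⟩ := inc_split h2 (gd p w a)
    have haM : a ∉ M := fun h => (List.nodup_cons.1 hn).1 (h1.mem_iff.1 h)
    refine ⟨A ++ a :: B, ?_, ?_⟩
    · refine List.perm_middle.trans (List.Perm.cons a ?_)
      rw [← h3]
      exact h1
    · rw [h3] at h2
      have h6 := List.pairwise_append.1 h2
      refine List.pairwise_append.2 ⟨h6.1, List.pairwise_cons.2 ⟨?_, h6.2.1⟩, ?_⟩
      · intro z hz
        refine lt_of_le_of_ne (h5 z hz) ?_
        intro h7
        apply haM
        rw [hinj _ _ h7, h3]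
        simp [hz]
      · intro z hz y hy
        rcases List.mem_cons.1 hy with rfl | hy
        · exact h4 z hz
        · exact h6.2.2 z hz y hy

/-- two polygons monotone in the same direction are connected -/
theorem mono_conn {c c' : List α} (hn : c.Nodup) (hn' : c'.Nodup)
    (hcc : c'.Perm c) (hinj : ∀ a b : α, gd p w a = gd p w b → a = b)
    (hR : Plane p (Nb c)) (hR' : Plane p (Nb c')) (hm : Mon p w c) (hm' : Mon p w c') :
    Relation.ReflTransGen (U p) c c' := by
  obtain ⟨M, hM1, hM2⟩ := exists_inc hinj c hn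
  have i1 := mono_inn hn hinj hR hm hM1 hM2
  have i2 := mono_inn hn' hinj hR' hm' (hM1.trans hcc.symm) hM2
  have r1 := to_c hn hM1 i1
  have r2 := to_c hn' (hM1.trans hcc.symm) i2
  have hpl : Plane p (Ed M) := fun a b x y h1 h2 => i1.pl a b x y (Or.inl h1) (Or.inl h2)
  exact (u_symm hpl r1).trans r2

end

end FPR
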