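import Pool.Agent.Lib.MP_deef39_co_PR.Red

/-! # PR module Near: a path with at most two edges which are no sides of the polygon

The path may have edges on both sides of the polygon. `near3`: if `R₀ ++ R₁ ++ R₂` crosses no side
of `c` and `R₀`, `R₁`, `R₂` run along `c`, then it is rotated onto `c`. -/

set_option autoImplicit false

namespace FPR

open FPW

variable {α : Type*} {p : α → ℝ × ℝ}

theorem ch_rev {c R : List α} (h : Ch c R) : Ch c R.reverse :=
  fun x y hxy => h x y (ed_reverse.1 hxy)

theorem ch_right {c X Y : List α} {f : α} (h : Ch c (X ++ f :: Y)) : Ch c (f :: Y) :=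
  fun x y hxy => h x y (ed_mid.2 (Or.inr hxy))

theorem ch_left {c X Y : List α} {f : α} (h : Ch c (X ++ f :: Y)) : Ch c (X ++ [f]) :=
  fun x y hxy => h x y (ed_mid.2 (Or.inl hxy))

theorem ch_app {c X Y : List α} (hX : Ch c X) (hY : Ch c Y)
    (h : ∀ x y, X.getLast? = some x → Y.head? = some y → Nb c x y) : Ch c (X ++ Y) := by
  rcases List.eq_nil_or_concat X with rfl | ⟨A, v, rfl⟩
  · simpa using hY
  rw [List.concat_eq_append] at hX h ⊢
  cases Y with
  | nil => simpa using hX
  | cons y Y =>
    have hvy : Nb c v y := h v y (by simp) (by simp)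
    intro s t hst
    have e1 : A ++ [v] ++ y :: Y = A ++ v :: y :: Y := by simp
    rw [e1, ed_mid] at hst
    rcases hst with hst | hst
    · exact hX s t hst
    · rcases ed_cons2.1 hst with ⟨rfl, rfl⟩ | ⟨rfl, rfl⟩ | hst
      · exact hvy
      · exact nb_symm hvy
      · exact hY s t hst

theorem junc {c X Y : List α} (h : c.IsRotated (X ++ Y)) {x y : α}
    (hx : X.getLast? = some x) (hy : Y.head? = some y) : Nb c x y := by
  rcases List.eq_nil_or_concat X with rfl | ⟨A, v, rfl⟩
  · simp at hx
  rw [List.concat_eq_append] at hx h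
  cases Y with
  | nil => simp at hy
  | cons z Y =>
    have h1 : v = x := by simpa using hx
    have h2 : z = y := by simpa using hy
    subst h1 h2
    have e1 : A ++ [v] ++ z :: Y = A ++ v :: z :: Y := by simp
    rw [e1] at h
    exact nb_rot h.symm nb_of_mid

theorem pref_last {R G Z : List α} (hlast : ∀ z, G.getLast? = some z → z ∉ R)
    (hZ : ∀ x ∈ Z, x ∈ R) (h : Z <+: G.reverse) : Z = [] := by
  cases Z with
  | nil => rfl
  | cons z Z =>
    exfalso
    obtain ⟨S, hS⟩ := h
    refine hlast z ?_ (hZ z (by simp))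
    rw [← List.head?_reverse, ← hS]
    simp

/-- a chain through the head `f` of a cycle which does not contain the last entry -/
theorem fill1 {c : List α} (hn : c.Nodup) {f : α} {G R : List α} (hc : c.IsRotated (f :: G))
    (hRn : R.Nodup) (hR : Ch c R) (hf : f ∈ R)
    (hlast : ∀ z, G.getLast? = some z → z ∉ R) :
    ∃ Y, (R = f :: Y ∨ R.reverse = f :: Y) ∧ Y <+: G := by
  obtain ⟨X, Y, rfl⟩ := List.append_of_mem hf
  have h1 : (f :: Y).Nodup := (List.nodup_append.1 hRn).2.1
  have h2 : Ch c (f :: Y) := ch_right hR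
  have h3 : Ch c (f :: X.reverse) := by
    have := ch_rev (ch_left hR)
    simpa using this
  have h4 : (f :: X.reverse).Nodup := by
    have h5 : (X ++ [f]).Nodup := by
      have h6 : (X ++ f :: Y) = (X ++ [f]) ++ Y := by simp
      rw [h6] at hRn
      exact (List.nodup_append.1 hRn).1
    have := List.nodup_reverse.2 h5
    simpa using this
  have hY := chain_prefix hn hc Y h1 h2
  have hX := chain_prefix hn hc X.reverse h4 h3
  have hX' : X.reverse <+: G := by
    rcases hX with h | h
    · exact h
    · rw [pref_last hlast (by simp +contextual) h]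
      exact List.nil_prefix
  have hY' : Y <+: G := by
    rcases hY with h | h
    · exact h
    · rw [pref_last hlast (by simp +contextual) h]
      exact List.nil_prefix
  cases Y with
  | nil => exact ⟨X.reverse, Or.inr (by simp), hX'⟩
  | cons y Y =>
    rcases List.eq_nil_or_concat X with rfl | ⟨X', w, rfl⟩
    · exact ⟨y :: Y, Or.inl rfl, hY'⟩
    · exfalso
      rw [List.concat_eq_append] at hX' hRn
      obtain ⟨S, hS⟩ := hX'
      obtain ⟨S', hS'⟩ := hY'
      have h5 : w = y := by
        have h6 : (X' ++ [w]).reverse ++ S = y :: Y ++ S' := by rw [hS, hS']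
        simp at h6
        exact h6.1
      subst h5
      exact (List.nodup_append.1 hRn).2.2 w (by simp) w (by simp) rfl

/-- two chains which fill the rest of a cycle -/
theorem fill {c : List α} (hn : c.Nodup) {R S K F' : List α} {f : α}
    (hc : c.IsRotated (K ++ f :: F')) (hK : K ≠ []) (hS0 : S ≠ [])
    (hF : (f :: F').Perm (R ++ S)) (hR : Ch c R) (hS : Ch c S) (hf : f ∈ R) :
    ∃ R' S', (R = R' ∨ R.reverse = R') ∧ (S = S' ∨ S.reverse = S') ∧ f :: F' = R' ++ S' := by
  have hn1 : (K ++ f :: F').Nodup := nodup_rot hc hn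
  have hKF : ∀ x ∈ K, x ∉ f :: F' := fun x hx hx' =>
    (List.nodup_append.1 hn1).2.2 x hx x hx' rfl
  have hFn : (f :: F').Nodup := (List.nodup_append.1 hn1).2.1
  have hRS : (R ++ S).Nodup := hF.nodup_iff.1 hFn
  have hRn : R.Nodup := (List.nodup_append.1 hRS).1
  have hSn : S.Nodup := (List.nodup_append.1 hRS).2.1
  have hdis : ∀ x ∈ R, x ∉ S := fun x hx hx' => (List.nodup_append.1 hRS).2.2 x hx x hx' rfl
  have hRF : ∀ x ∈ R, x ∈ f :: F' := fun x hx => hF.mem_iff.2 (by simp [hx])
  have hSF : ∀ x ∈ S, x ∈ f :: F' := fun x hx => hF.mem_iff.2 (by simp [hx])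
  have hc1 : c.IsRotated (f :: (F' ++ K)) := hc.trans (by simpa using rot_app K (f :: F'))
  obtain ⟨Y, hY, hYp⟩ := fill1 hn hc1 hRn hR hf (by
    intro z hz hzR
    rw [List.getLast?_append_of_ne_nil _ hK] at hz
    exact hKF z (List.mem_of_getLast? hz) (hRF z hzR))
  have hYR : ∀ x ∈ f :: Y, x ∈ R := by
    intro x hx
    rcases hY with h | h
    · rw [h]; exact hx
    · rw [← List.mem_reverse, h]; exact hx
  have hpY : (f :: Y).Perm R := by
    rcases hY with h | h
    · rw [h]
    · rw [← h]; exact List.reverse_perm R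
  have hYF : Y <+: F' := by
    rcases List.prefix_or_prefix_of_prefix hYp (List.prefix_append F' K) with h | h
    · exact h
    · exfalso
      obtain ⟨s, S1, rfl⟩ := List.exists_cons_of_ne_nil hS0
      have h1 : s ∈ f :: F' := hSF s (by simp)
      have h2 : s ∈ R := by
        rcases List.mem_cons.1 h1 with h3 | h3
        · rw [h3]; exact hf
        · exact hYR s (List.mem_cons_of_mem _ (h.subset h3))
      exact hdis s h2 (by simp)
  obtain ⟨F2, rfl⟩ := hYF
  have hF2 : F2.Perm S := by
    have h1 : (f :: Y ++ F2).Perm (f :: Y ++ S) := by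
      refine (by simpa using hF : (f :: Y ++ F2).Perm (R ++ S)).trans ?_
      exact hpY.symm.append_right S
    exact (List.perm_append_left_iff _).1 h1
  have hF20 : F2 ≠ [] := by
    rintro rfl
    exact hS0 (List.nil_perm.1 hF2)
  obtain ⟨g, F3, rfl⟩ := List.exists_cons_of_ne_nil hF20
  have hc2 : c.IsRotated (g :: (F3 ++ (K ++ f :: Y))) := by
    refine hc.trans ?_
    simpa using rot_app (K ++ f :: Y) (g :: F3)
  obtain ⟨Y2, hY2, hY2p⟩ := fill1 hn hc2 hSn hS (hF2.mem_iff.1 (by simp)) (by
    intro z hz hzS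
    rw [List.getLast?_append_of_ne_nil _ (by simp), List.getLast?_append_of_ne_nil _ (by simp)]
      at hz
    exact hdis z (hYR z (List.mem_of_getLast? hz)) hzS)
  have hlen : Y2.length = F3.length := by
    have h1 := hF2.length_eq
    rcases hY2 with h | h
    · rw [h] at h1
      simpa using h1.symm
    · rw [← List.length_reverse (as := S), h] at h1
      simpa using h1.symm
  have hY2F : Y2 = F3 := by
    rcases List.prefix_or_prefix_of_prefix hY2p (List.prefix_append F3 _) with h | h
    · exact h.eq_of_length hlen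
    · exact (h.eq_of_length hlen.symm).symm
  subst hY2F
  refine ⟨f :: Y, g :: Y2, ?_, ?_, by simp⟩
  · exact hY
  · exact hY2

/-- one chord is never interleaved with a side or with itself -/
theorem near2 {c X Y : List α} (hn : c.Nodup) (hp : (X ++ Y).Perm c)
    (hpl : Plane p (EO (X ++ Y) (Nb c))) (hX : Ch c X) (hY : Ch c Y) :
    Relation.ReflTransGen (U p) (X ++ Y) c := by
  refine to_c hn hp ⟨hpl, ?_⟩
  rcases List.eq_nil_or_concat X with rfl | ⟨A, v, rfl⟩
  · intro a b x y hab _ hs
    exact not_sp_of_nb hn (hY a b (by simpa using hab)) hs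
  rw [List.concat_eq_append] at hX ⊢
  cases Y with
  | nil =>
    intro a b x y hab _ hs
    exact not_sp_of_nb hn (hX a b (by simpa using hab)) hs
  | cons w Y =>
    have key : ∀ a b, Ed (A ++ [v] ++ w :: Y) a b →
        Nb c a b ∨ (a = v ∧ b = w) ∨ (a = w ∧ b = v) := by
      intro a b hab
      have e1 : A ++ [v] ++ w :: Y = A ++ v :: w :: Y := by simp
      rw [e1, ed_mid, ed_cons2] at hab
      rcases hab with h | h | h | h
      · exact Or.inl (hX a b h)
      · exact Or.inr (Or.inl h)
      · exact Or.inr (Or.inr h)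
      · exact Or.inl (hY a b h)
    intro a b x y hab hxy hs
    have h1 := sp_ne hn hs
    rcases key a b hab with h | h
    · exact not_sp_of_nb hn h hs
    · rcases key x y hxy with h' | h'
      · exact not_sp_of_nb hn h' (sp_swap hs)
      · rcases h with ⟨rfl, rfl⟩ | ⟨rfl, rfl⟩ <;> rcases h' with ⟨rfl, rfl⟩ | ⟨rfl, rfl⟩
        · exact h1.1 rfl
        · exact h1.2.1 rfl
        · exact h1.2.1 rfl
        · exact h1.1 rfl

theorem eo_rev {l : List α} {O : α → α → Prop} (h : Plane p (EO l O)) :
    Plane p (EO l.reverse O) := by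
  refine Plane_mono ?_ h
  rintro a b (hab | hab)
  · exact Or.inl (ed_reverse.1 hab)
  · exact Or.inr hab

/-- rotation of the end along a side -/
theorem rotm {c X Y : List α} (hpl : Plane p (EO (X ++ Y) (Nb c)))
    (h : ∀ x e, X.getLast? = some x → Y.getLast? = some e → Nb c x e) :
    Plane p (EO (X ++ Y.reverse) (Nb c)) ∧
      Relation.ReflTransGen (U p) (X ++ Y) (X ++ Y.reverse) := by
  rcases List.eq_nil_or_concat X with rfl | ⟨A, v, rfl⟩
  · refine ⟨?_, Relation.ReflTransGen.single (Or.inr (by simp))⟩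
    simpa using eo_rev hpl
  rcases List.eq_nil_or_concat Y with rfl | ⟨B, z, rfl⟩
  · exact ⟨by simpa using hpl, by simpa using Relation.ReflTransGen.refl⟩
  rw [List.concat_eq_append, List.concat_eq_append] at *
  have hvz : Nb c v z := h v z (by simp) (by simp)
  have hr : RotL v z (A ++ [v] ++ (B ++ [z])) (A ++ [v] ++ (B ++ [z]).reverse) :=
    ⟨A, B, by simp, by simp⟩
  have hR : Rot p (Nb c) (A ++ [v] ++ (B ++ [z])) (A ++ [v] ++ (B ++ [z]).reverse) := by
    refine ⟨v, z, hr, ?_⟩
    intro x y hxy hX
    exact hpl z v x y (Or.inr (nb_symm hvz)) hxy hX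
  exact ⟨rot_plane hpl hR, Relation.ReflTransGen.single (rot_u hR)⟩

/-- rotation of the first vertex along a side -/
theorem rotm' {c X Y : List α} (hpl : Plane p (EO (X ++ Y) (Nb c)))
    (h : ∀ x e, X.head? = some x → Y.head? = some e → Nb c x e) :
    Plane p (EO (X.reverse ++ Y) (Nb c)) ∧
      Relation.ReflTransGen (U p) (X ++ Y) (X.reverse ++ Y) := by
  have h1 : Plane p (EO (Y.reverse ++ X.reverse) (Nb c)) := by
    have := eo_rev hpl
    simpa using this
  obtain ⟨h2, h3⟩ := rotm (X := Y.reverse) (Y := X.reverse) h1 (by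
    intro x e hx he
    rw [List.getLast?_reverse] at hx he
    exact nb_symm (h e x he hx))
  rw [List.reverse_reverse] at h2 h3
  refine ⟨?_, ?_⟩
  · have := eo_rev h2
    simpa using this
  · refine (Relation.ReflTransGen.head (b := Y.reverse ++ X.reverse) (Or.inr (by simp)) h3).tail ?_
    exact Or.inr (by simp)

/-- the chain `X` in front is carried behind the end -/
theorem shift {c : List α} : ∀ (X Z : List α), Ch c X → Z ≠ [] →
    Plane p (EO (X ++ Z) (Nb c)) →
    (∀ x e, X.head? = some x → Z.getLast? = some e → Nb c x e) →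
    Plane p (EO (Z ++ X) (Nb c)) ∧ Relation.ReflTransGen (U p) (X ++ Z) (Z ++ X) := by
  intro X
  induction X with
  | nil =>
    intro Z _ _ hpl _
    exact ⟨by simpa using hpl, by simpa using Relation.ReflTransGen.refl⟩
  | cons a X ih =>
    intro Z hX hZ hpl h
    obtain ⟨h1, h2⟩ := rotm (X := [a]) (Y := X ++ Z) (by simpa using hpl) (by
      intro x e hx he
      rw [List.getLast?_append_of_ne_nil _ hZ] at he
      have hx' : a = x := by simpa using hx
      subst hx'
      exact h a e (by simp) he)
    have h3 : Plane p (EO (X ++ (Z ++ [a])) (Nb c)) := by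
      have := eo_rev h1
      simpa using this
    obtain ⟨h4, h5⟩ := ih (Z ++ [a]) (ch_tail hX) (by simp) h3 (by
      intro x e hx he
      have he' : a = e := by simpa using he
      subst he'
      cases X with
      | nil => simp at hx
      | cons b X =>
        have hx' : b = x := by simpa using hx
        subst hx'
        exact nb_symm (hX a b (Or.inl ⟨rfl, rfl⟩)))
    refine ⟨by simpa using h4, ?_⟩
    have h6 : Relation.ReflTransGen (U p) (a :: X ++ Z) (X ++ (Z ++ [a])) := by
      refine Relation.ReflTransGen.tail (by simpa using h2) (Or.inr ?_)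
      simp
    refine h6.trans ?_
    simpa using h5

/-- the eight orders of the three chains on the cycle -/
theorem near3' {c R₀ R₁ R₂ : List α} (hn : c.Nodup) (hp : (R₀ ++ (R₁ ++ R₂)).Perm c)
    (hpl : Plane p (EO (R₀ ++ (R₁ ++ R₂)) (Nb c))) (h0 : Ch c R₀) (h1 : Ch c R₁) (h2 : Ch c R₂)
    (hr0 : R₀ ≠ []) (hr1 : R₁ ≠ []) {F : List α} (hr2 : R₂ ≠ [])
    (hc : c.IsRotated (R₂ ++ F)) : Relation.ReflTransGen (U p) (R₀ ++ (R₁ ++ R₂)) c := by
  have hF : F.Perm (R₀ ++ R₁) := by
    have e1 : (R₂ ++ F).Perm (R₂ ++ (R₀ ++ R₁)) := by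
      refine hc.perm.symm.trans (hp.symm.trans ?_)
      rw [← List.append_assoc]
      exact List.perm_append_comm
    exact (List.perm_append_left_iff _).1 e1
  have hF0 : F ≠ [] := by
    rintro rfl
    have := List.nil_perm.1 hF
    simp [hr0] at this
  obtain ⟨f, F', rfl⟩ := List.exists_cons_of_ne_nil hF0
  -- permutation bookkeeping is done by `near2` through `hq`
  have hq : ∀ {X Y : List α}, (X ++ Y).Perm (R₀ ++ (R₁ ++ R₂)) →
      Plane p (EO (X ++ Y) (Nb c)) → Ch c X → Ch c Y →
      Relation.ReflTransGen (U p) (X ++ Y) c :=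
    fun h3 h4 h5 h6 => near2 hn (h3.trans hp) h4 h5 h6
  rcases List.mem_append.1 (hF.mem_iff.1 (by simp : f ∈ f :: F')) with hf | hf
  · obtain ⟨R0', R1', hR0, hR1, hFe⟩ := fill hn hc hr2 hr1 hF h0 h1 hf
    rw [hFe] at hc
    rcases hR0 with rfl | rfl
    · rcases hR1 with rfl | rfl
      · -- `R₀ R₁ R₂`: the first chord is a side
        have e1 : R₀ ++ (R₁ ++ R₂) = (R₀ ++ R₁) ++ R₂ := by simp
        have hc' : c.IsRotated ((R₂ ++ R₀) ++ R₁) := by simpa using hc
        rw [e1]
        refine hq (by simp) (by simpa using hpl) (ch_app h0 h1 ?_) h2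
        intro x y hx hy
        refine junc hc' ?_ hy
        rw [List.getLast?_append_of_ne_nil _ hr0]
        exact hx
      · -- closable
        obtain ⟨h3, h4⟩ := shift R₀ (R₁ ++ R₂) h0 (by simp [hr1]) hpl (by
          intro x e hx he
          rw [List.getLast?_append_of_ne_nil _ hr2] at he
          refine nb_symm (junc hc he ?_)
          rw [List.head?_append_of_ne_nil _ hr0]
          exact hx)
        refine h4.trans ?_
        have e1 : R₁ ++ R₂ ++ R₀ = R₁ ++ (R₂ ++ R₀) := by simp
        rw [e1] at h3 ⊢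
        refine hq ?_ h3 h1 (ch_app h2 h0 ?_)
        · have : (R₁ ++ R₂ ++ R₀).Perm (R₀ ++ (R₁ ++ R₂)) := List.perm_append_comm
          simpa using this
        · intro x y hx hy
          refine junc hc hx ?_
          rw [List.head?_append_of_ne_nil _ hr0]
          exact hy
    · -- the end sees the last vertex of `R₀`
      obtain ⟨h3, h4⟩ := rotm hpl (by
        intro x e hx he
        rw [List.getLast?_append_of_ne_nil _ hr2] at he
        refine nb_symm (junc hc he ?_)
        rw [List.head?_append_of_ne_nil _ (by simpa using hr0), List.head?_reverse]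
        exact hx)
      refine h4.trans ?_
      have e1 : R₀ ++ (R₁ ++ R₂).reverse = (R₀ ++ R₂.reverse) ++ R₁.reverse := by simp
      rw [e1] at h3 ⊢
      refine hq ?_ h3 (ch_app h0 (ch_rev h2) ?_) (ch_rev h1)
      · rw [← e1]
        exact (List.reverse_perm _).append_left R₀
      · intro x e hx he
        rw [List.head?_reverse] at he
        refine nb_symm (junc hc he ?_)
        rw [List.head?_append_of_ne_nil _ (by simpa using hr0), List.head?_reverse]
        exact hx
  · obtain ⟨R1', R0', hR1, hR0, hFe⟩ := fill hn hc hr2 hr0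
      (hF.trans List.perm_append_comm) h1 h0 hf
    rw [hFe] at hc
    rcases hR1 with rfl | rfl
    · rcases hR0 with rfl | rfl
      · -- the interleaved case: two rotations
        obtain ⟨u, B, rfl⟩ := List.exists_cons_of_ne_nil hr1
        have e0 : R₀ ++ (u :: B ++ R₂) = (R₀ ++ [u]) ++ (B ++ R₂) := by simp
        have hu : ∀ e, R₂.getLast? = some e → Nb c u e := by
          intro e he
          exact nb_symm (junc hc he (by simp))
        have hperm : ((R₀ ++ [u]) ++ (B ++ R₂)).Perm (R₀ ++ (u :: B ++ R₂)) := by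
          rw [e0]
        have hpl0 := hpl
        rw [e0] at hpl0
        obtain ⟨h3, h4⟩ := rotm hpl0 (by
          intro x e hx he
          rw [List.getLast?_append_of_ne_nil _ hr2] at he
          have hx' : u = x := by simpa using hx
          subst hx'
          exact hu e he)
        have e1 : (R₀ ++ [u]) ++ (B ++ R₂).reverse = (R₀ ++ [u] ++ R₂.reverse) ++ B.reverse := by
          simp
        have hg : ∀ x g, R₀.head? = some x → B.getLast? = some g → Nb c x g := by
          intro x g hx hgB
          have hc' : c.IsRotated ((R₂ ++ (u :: B)) ++ R₀) := by simpa using hc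
          refine nb_symm (junc hc' ?_ hx)
          cases B with
          | nil => simp at hgB
          | cons b B =>
            rw [List.getLast?_append_of_ne_nil _ (by simp), List.getLast?_cons_cons]
            exact hgB
        rw [e1] at h3
        obtain ⟨h5, h6⟩ := rotm' h3 (by
          intro x g hx hgB
          rw [List.head?_reverse] at hgB
          rw [List.append_assoc, List.head?_append_of_ne_nil _ hr0] at hx
          exact hg x g hx hgB)
        rw [e0]
        refine h4.trans ?_
        rw [e1]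
        refine h6.trans ?_
        have e2 : (R₀ ++ [u] ++ R₂.reverse).reverse ++ B.reverse =
            (R₂ ++ [u]) ++ (R₀.reverse ++ B.reverse) := by simp
        rw [e2] at h5 ⊢
        refine hq ?_ h5 (ch_app h2 (fun x y hxy => (ed_single hxy).elim) ?_)
          (ch_app (ch_rev h0) (ch_rev ?_) ?_)
        · rw [← e2]
          refine ((List.reverse_perm _).append_right _).trans ?_
          rw [← e1]
          exact ((List.reverse_perm _).append_left _).trans hperm
        · intro x y hx hy
          have hy' : u = y := by simpa using hy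
          subst hy'
          exact nb_symm (hu x hx)
        · exact ch_tail h1
        · intro x g hx hgB
          rw [List.getLast?_reverse] at hx
          rw [List.head?_reverse] at hgB
          exact hg x g hx hgB
      · -- the first vertex sees the first vertex of `R₂`
        have hc' : c.IsRotated ((R₁ ++ R₀.reverse) ++ R₂) :=
          hc.trans (rot_app R₂ (R₁ ++ R₀.reverse))
        have hau : ∀ x u, R₀.head? = some x → R₂.head? = some u → Nb c x u := by
          intro x u hx hu
          refine junc hc' ?_ hu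
          rw [List.getLast?_append_of_ne_nil _ (by simpa using hr0), List.getLast?_reverse]
          exact hx
        have e0 : R₀ ++ (R₁ ++ R₂) = (R₀ ++ R₁) ++ R₂ := by simp
        have hpl0 := hpl
        rw [e0] at hpl0
        obtain ⟨h3, h4⟩ := rotm' hpl0 (by
          intro x u hx hu
          rw [List.head?_append_of_ne_nil _ hr0] at hx
          exact hau x u hx hu)
        rw [e0]
        refine h4.trans ?_
        have e1 : (R₀ ++ R₁).reverse ++ R₂ = R₁.reverse ++ (R₀.reverse ++ R₂) := by simp
        rw [e1] at h3 ⊢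
        refine hq ?_ h3 (ch_rev h1) (ch_app (ch_rev h0) h2 ?_)
        · rw [← e1, e0]
          exact (List.reverse_perm _).append_right R₂
        · intro x u hx hu
          rw [List.getLast?_reverse] at hx
          exact hau x u hx hu
    · -- the end sees the last vertex of `R₁`
      have hge : ∀ x e, R₁.getLast? = some x → R₂.getLast? = some e → Nb c x e := by
        intro x e hx he
        refine nb_symm (junc hc he ?_)
        rw [List.head?_append_of_ne_nil _ (by simpa using hr1), List.head?_reverse]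
        exact hx
      have e0 : R₀ ++ (R₁ ++ R₂) = (R₀ ++ R₁) ++ R₂ := by simp
      have hpl0 := hpl
      rw [e0] at hpl0
      obtain ⟨h3, h4⟩ := rotm hpl0 (by
        intro x e hx he
        rw [List.getLast?_append_of_ne_nil _ hr1] at hx
        exact hge x e hx he)
      rw [e0]
      refine h4.trans ?_
      have e1 : (R₀ ++ R₁) ++ R₂.reverse = R₀ ++ (R₁ ++ R₂.reverse) := by simp
      rw [e1] at h3 ⊢
      refine hq ?_ h3 h0 (ch_app h1 (ch_rev h2) ?_)
      · exact ((List.reverse_perm R₂).append_left R₁).append_left R₀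
      · intro x e hx he
        rw [List.head?_reverse] at he
        exact hge x e hx he

theorem near3 {c R₀ R₁ R₂ : List α} (hn : c.Nodup) (hp : (R₀ ++ (R₁ ++ R₂)).Perm c)
    (hpl : Plane p (EO (R₀ ++ (R₁ ++ R₂)) (Nb c))) (h0 : Ch c R₀) (h1 : Ch c R₁)
    (h2 : Ch c R₂) : Relation.ReflTransGen (U p) (R₀ ++ (R₁ ++ R₂)) c := by
  by_cases hr0 : R₀ = []
  · subst hr0
    rw [List.nil_append] at hp hpl ⊢
    exact near2 hn hp hpl h1 h2
  by_cases hr1 : R₁ = []
  · subst hr1
    rw [List.nil_append] at hp hpl ⊢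
    exact near2 hn hp hpl h0 h2
  by_cases hr2 : R₂ = []
  · subst hr2
    rw [List.append_nil] at hp hpl ⊢
    exact near2 hn hp hpl h0 h1
  obtain ⟨u, T, rfl⟩ := List.exists_cons_of_ne_nil hr2
  obtain ⟨E, hE⟩ := rot_to (hp.mem_iff.1 (by simp) : u ∈ c)
  have hnT : (u :: T).Nodup := by
    have h3 := hp.nodup_iff.2 hn
    exact (List.nodup_append.1 (List.nodup_append.1 h3).2.1).2.1
  rcases chain_prefix hn hE T hnT h2 with ⟨F, rfl⟩ | ⟨F, hF⟩
  · exact near3' hn hp hpl h0 h1 h2 hr0 hr1 (F := F) hr2 (by simpa using hE)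
  · have hnr : c.reverse.Nodup := List.nodup_reverse.2 hn
    have hch : ∀ {R : List α}, Ch c R → Ch c.reverse R :=
      fun h x y hxy => nb_reverse (h x y hxy)
    have hr : c.reverse.IsRotated (u :: T ++ F) := by
      refine hE.reverse.trans ?_
      have e1 : (u :: E).reverse = E.reverse ++ [u] := by simp
      rw [e1, ← hF]
      simpa using rot_app (T ++ F) [u]
    have hpl' : Plane p (EO (R₀ ++ (R₁ ++ u :: T)) (Nb c.reverse)) := by
      refine Plane_mono ?_ hpl
      rintro a b (hab | hab)
      · exact Or.inl hab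
      · refine Or.inr ?_
        simpa using nb_reverse hab
    have h3 := near3' hnr (hp.trans (List.reverse_perm c).symm) hpl' (hch h0) (hch h1) (hch h2)
      hr0 hr1 hr2 hr
    exact h3.tail (Or.inr (by simp))

/-- the last edge which is no side -/
theorem cut (c : List α) (l : List α) : Ch c l ∨
    ∃ (A : List α) (a b : α) (B : List α), l = A ++ a :: b :: B ∧ Ch c (b :: B) ∧ ¬ Nb c a b := by
  induction l with
  | nil => exact Or.inl fun x y h => h.elim
  | cons x l ih =>
    rcases ih with h | ⟨A, a, b, B, h1, h2, h3⟩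
    · cases l with
      | nil => exact Or.inl fun s t h' => (ed_single h').elim
      | cons y l =>
        by_cases hxy : Nb c x y
        · left
          intro s t hst
          rcases ed_cons2.1 hst with ⟨rfl, rfl⟩ | ⟨rfl, rfl⟩ | hst
          · exact hxy
          · exact nb_symm hxy
          · exact h s t hst
        · exact Or.inr ⟨[], x, y, l, rfl, h, hxy⟩
    · exact Or.inr ⟨x :: A, a, b, B, by rw [h1]; rfl, h2, h3⟩

/-- a plane spanning path which crosses no side of the simple polygon `c`, with at most two edges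
which are no sides of `c` (they may lie on different sides of `c`), is connected with `c` -/
theorem near {n : ℕ} {p : Fin n → ℝ × ℝ} {c l : List (Fin n)} (hcn : c.Nodup)
    (hca : ∀ v, v ∈ c) (hcp : Plane p (Nb c)) (hl : l.Nodup) (ha : ∀ v, v ∈ l)
    (hpl : Plane p (Ed l)) (hx : ∀ a b x y, Ed l a b → Nb c x y → ¬ X p a b x y)
    (h2 : {e : Sym2 (Fin n) | ∃ x y, e = s(x, y) ∧ Ed l x y ∧ ¬ Nb c x y}.ncard ≤ 2) :
    Relation.ReflTransGen (U p) l c := by
  have hp : l.Perm c := (List.perm_ext_iff_of_nodup hl hcn).2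
    fun v => ⟨fun _ => hca v, fun _ => ha v⟩
  have hall : Plane p (EO l (Nb c)) := by
    rintro a b x y (h6 | h6) (h7 | h7) hX
    · exact hpl a b x y h6 h7 hX
    · exact hx a b x y h6 h7 hX
    · exact hx x y a b h7 h6 (X_comm.1 hX)
    · exact hcp a b x y h6 h7 hX
  have hnil : Ch c [] := fun x y h => h.elim
  rcases cut c l with h | ⟨A1, a1, b1, B1, e1, hB1, hn1⟩
  · exact near3 (R₀ := []) (R₁ := []) hcn hp hall hnil hnil h
  have e1' : l = (A1 ++ [a1]) ++ b1 :: B1 := by rw [e1]; simp
  rcases cut c (A1 ++ [a1]) with h | ⟨A2, a2, b2, B2, e2, hB2, hn2⟩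
  · rw [e1'] at hp hall ⊢
    exact near3 (R₀ := []) hcn hp hall hnil h hB1
  have e2' : l = (A2 ++ [a2]) ++ (b2 :: B2 ++ b1 :: B1) := by rw [e1', e2]; simp
  rcases cut c (A2 ++ [a2]) with h | ⟨A3, a3, b3, B3, e3, hB3, hn3⟩
  · rw [e2'] at hp hall ⊢
    exact near3 hcn hp hall h hB2 hB1
  exfalso
  have hd1 : ∀ x ∈ A1 ++ [a1], x ≠ b1 := by
    intro x hx' h'
    rw [e1'] at hl
    exact (List.nodup_append.1 hl).2.2 x hx' b1 (by simp) h'
  have hd2 : ∀ x ∈ A2 ++ [a2], x ≠ b2 := by
    intro x hx' h'
    rw [e2'] at hl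
    exact (List.nodup_append.1 hl).2.2 x hx' b2 (by simp) h'
  have m3 : a3 ∈ A2 ++ [a2] ∧ b3 ∈ A2 ++ [a2] := by rw [e3]; simp
  have m2 : a2 ∈ A1 ++ [a1] ∧ b2 ∈ A1 ++ [a1] ∧ ∀ x ∈ A2 ++ [a2], x ∈ A1 ++ [a1] := by
    rw [e2]
    refine ⟨by simp, by simp, ?_⟩
    intro x hx'
    simp only [List.mem_append, List.mem_cons] at hx' ⊢
    tauto
  have k1 : Ed l a1 b1 := by rw [e1]; exact ed_of_split
  have hsub1 : ∀ x y, Ed (A1 ++ [a1]) x y → Ed l x y := by
    intro x y h
    rw [e1]
    exact ed_mid.2 (Or.inl h)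
  have k2 : Ed l a2 b2 := hsub1 a2 b2 (by rw [e2]; exact ed_of_split)
  have k3 : Ed l a3 b3 := by
    refine hsub1 a3 b3 ?_
    rw [e2]
    refine ed_mid.2 (Or.inl ?_)
    rw [e3]
    exact ed_of_split
  refine absurd h2 (not_le.2 ((Set.two_lt_ncard (Set.toFinite _)).2
    ⟨s(a1, b1), ⟨a1, b1, rfl, k1, hn1⟩, s(a2, b2), ⟨a2, b2, rfl, k2, hn2⟩,
      s(a3, b3), ⟨a3, b3, rfl, k3, hn3⟩, ?_, ?_, ?_⟩))
  · intro h
    rcases Sym2.eq_iff.1 h with ⟨_, h'⟩ | ⟨_, h'⟩
    · exact hd1 b2 m2.2.1 h'.symm
    · exact hd1 a2 m2.1 h'.symm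
  · intro h
    rcases Sym2.eq_iff.1 h with ⟨_, h'⟩ | ⟨_, h'⟩
    · exact hd1 b3 (m2.2.2 b3 m3.2) h'.symm
    · exact hd1 a3 (m2.2.2 a3 m3.1) h'.symm
  · intro h
    rcases Sym2.eq_iff.1 h with ⟨_, h'⟩ | ⟨_, h'⟩
    · exact hd2 b3 m3.2 h'.symm
    · exact hd2 a3 m3.1 h'.symm

end FPR
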