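import Pool.Agent.Lib.MP_deef39_co_PR.Mono

/-! # PR module Rad: polygons which follow the directions from a point -/

set_option autoImplicit false

namespace FPR

open FPW

variable {α : Type*} {q : α → ℝ × ℝ}

/-- orientation of the directions of `a` and `b` seen from the point `(s, 0)` -/
def dv (q : α → ℝ × ℝ) (s : ℝ) (a b : α) : ℝ :=
  ((q a).1 - s) * (q b).2 - ((q b).1 - s) * (q a).2

/-- seen from `(s, 0)`, counted from the ray to the right, `b` does not come before `a` -/
def Wk (q : α → ℝ × ℝ) (s : ℝ) (a b : α) : Prop :=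
  (0 < (q a).2 * (q b).2 ∧ 0 ≤ dv q s a b) ∨ (0 < (q a).2 ∧ (q b).2 < 0)

theorem X_sep {a b c d : α} (A B C : ℝ) (h : X q a b c d)
    (ha : A * (q a).1 + B * (q a).2 + C ≤ 0) (hb : A * (q b).1 + B * (q b).2 + C ≤ 0)
    (hc : 0 ≤ A * (q c).1 + B * (q c).2 + C) (hd : 0 ≤ A * (q d).1 + B * (q d).2 + C) :
    (A * (q a).1 + B * (q a).2 + C = 0 ∧ A * (q b).1 + B * (q b).2 + C = 0) ∧
      A * (q c).1 + B * (q c).2 + C = 0 ∧ A * (q d).1 + B * (q d).2 + C = 0 := by
  obtain ⟨t, τ, h1, h2, h3, h4, h5, h6⟩ := X_pt h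
  have h7 : (1 - t) * (A * (q a).1 + B * (q a).2 + C) + t * (A * (q b).1 + B * (q b).2 + C) =
      (1 - τ) * (A * (q c).1 + B * (q c).2 + C) + τ * (A * (q d).1 + B * (q d).2 + C) := by
    linear_combination A * h5 + B * h6
  generalize A * (q a).1 + B * (q a).2 + C = fa at *
  generalize A * (q b).1 + B * (q b).2 + C = fb at *
  generalize A * (q c).1 + B * (q c).2 + C = fc at *
  generalize A * (q d).1 + B * (q d).2 + C = fd at *
  have k1 : (1 - t) * fa ≤ 0 := mul_nonpos_of_nonneg_of_nonpos (by linarith) ha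
  have k2 : t * fb ≤ 0 := mul_nonpos_of_nonneg_of_nonpos (by linarith) hb
  have k3 : 0 ≤ (1 - τ) * fc := mul_nonneg (by linarith) hc
  have k4 : 0 ≤ τ * fd := mul_nonneg (by linarith) hd
  have e1 : (1 - t) * fa = 0 := by linarith
  have e2 : t * fb = 0 := by linarith
  have e3 : (1 - τ) * fc = 0 := by linarith
  have e4 : τ * fd = 0 := by linarith
  refine ⟨⟨?_, ?_⟩, ?_, ?_⟩
  · exact (mul_eq_zero.1 e1).resolve_left (by linarith)
  · exact (mul_eq_zero.1 e2).resolve_left (by linarith)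
  · exact (mul_eq_zero.1 e3).resolve_left (by linarith)
  · exact (mul_eq_zero.1 e4).resolve_left (by linarith)

theorem dv_neg (s : ℝ) (a b : α) : dv q s b a = - dv q s a b := by
  unfold dv
  ring

/-- a line through `(s, 0)` and `x` separates two crossing segments: everything lies on it -/
theorem X_dv {a b c d x : α} {s : ℝ} (h : X q a b c d) (ha : dv q s x a ≤ 0)
    (hb : dv q s x b ≤ 0) (hc : 0 ≤ dv q s x c) (hd : 0 ≤ dv q s x d) :
    (dv q s x a = 0 ∧ dv q s x b = 0) ∧ dv q s x c = 0 ∧ dv q s x d = 0 := by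
  have e : ∀ y : α, dv q s x y =
      (-(q x).2) * (q y).1 + ((q x).1 - s) * (q y).2 + s * (q x).2 := by
    intro y
    unfold dv
    ring
  rw [e] at ha hb hc hd
  rw [e, e, e, e]
  exact X_sep _ _ _ h ha hb hc hd

theorem X_y {a b c d : α} (h : X q a b c d) (ha : (q a).2 ≤ 0)
    (hb : (q b).2 ≤ 0) (hc : 0 ≤ (q c).2) (hd : 0 ≤ (q d).2) :
    ((q a).2 = 0 ∧ (q b).2 = 0) ∧ (q c).2 = 0 ∧ (q d).2 = 0 := by
  have := X_sep 0 1 0 h (by simpa using ha) (by simpa using hb) (by simpa using hc)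
    (by simpa using hd)
  simpa using this

theorem col3 {s : ℝ} {a b c : α} (hb : (q b).2 ≠ 0) (h1 : dv q s b a = 0)
    (h2 : dv q s b c = 0) : o q a b c = 0 := by
  have h3 : (q b).2 * o q a b c = 0 := by
    have e : (q b).2 * o q a b c = ((q b).2 - (q a).2) * dv q s b c +
      ((q c).2 - (q b).2) * dv q s b a := by
      unfold o dv
      ring
    rw [e, h1, h2]
    ring
  exact (mul_eq_zero.1 h3).resolve_left hb

/-- two sides, the first one before the second one -/
theorem rad_core (hgp : GP q) {s : ℝ} {a b c d : α} (ab : Wk q s a b) (ac : Wk q s a c)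
    (bc : Wk q s b c) (bd : Wk q s b d) (cd : Wk q s c d)
    (sab : 0 < (q a).2 → (q b).2 < 0 → 0 < dv q s a b)
    (scd : 0 < (q c).2 → (q d).2 < 0 → 0 < dv q s c d) : ¬ X q a b c d := by
  intro hX
  have hne := X_ne hX
  have hcol : ∀ x, (q b).2 ≠ 0 → dv q s b a = 0 → dv q s b c = 0 → x = b → False := by
    intro x h1 h2 h3 _
    exact hgp.ne a b c hne.1 hne.2.2.2.2.1 hne.2.2.1 (col3 h1 h2 h3)
  have hbb : dv q s b b = 0 := by unfold dv; ring
  have hcc : dv q s c c = 0 := by unfold dv; ring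
  rcases bc with ⟨y1, d1⟩ | ⟨y1, y2⟩
  · rcases mul_pos_iff.1 y1 with ⟨yb, yc⟩ | ⟨yb, yc⟩
    · -- `b`, `c` left, so `a` left
      have ya : 0 < (q a).2 ∧ 0 ≤ dv q s a b := by
        rcases ab with ⟨y3, d3⟩ | ⟨_, y4⟩
        · exact ⟨(pos_iff_pos_of_mul_pos y3).2 yb, d3⟩
        · exact absurd y4 (not_lt.2 yb.le)
      rcases bd with ⟨y3, d3⟩ | ⟨_, y4⟩
      · obtain ⟨⟨k1, _⟩, k3, _⟩ := X_dv (x := b) (s := s) hX
          (by rw [dv_neg]; linarith [ya.2]) hbb.le d1 d3
        exact hcol b yb.ne' k1 k3 rfl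
      · have k := scd yc y4
        have hac : 0 ≤ dv q s a c := by
          rcases ac with ⟨_, d4⟩ | ⟨_, y5⟩
          · exact d4
          · exact absurd y5 (not_lt.2 yc.le)
        obtain ⟨_, _, k4⟩ := X_dv (x := c) (s := s) hX
          (by rw [dv_neg]; linarith) (by rw [dv_neg]; linarith) hcc.ge k.le
        linarith
    · -- `b`, `c` right, so `d` right
      have yd : 0 ≤ dv q s b d := by
        rcases bd with ⟨_, d3⟩ | ⟨y3, _⟩
        · exact d3
        · exact absurd y3 (not_lt.2 yb.le)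
      rcases ab with ⟨_, d3⟩ | ⟨y3, y4⟩
      · obtain ⟨⟨k1, _⟩, k3, _⟩ := X_dv (x := b) (s := s) hX
          (by rw [dv_neg]; linarith) hbb.le d1 yd
        exact hcol b yb.ne k1 k3 rfl
      · have k := sab y3 y4
        obtain ⟨⟨k1, _⟩, _, _⟩ := X_dv (x := b) (s := s) hX
          (by rw [dv_neg]; linarith) hbb.le d1 yd
        rw [dv_neg] at k1
        linarith
  · -- `b` left, `c` right
    have ya : 0 < (q a).2 := by
      rcases ab with ⟨y3, _⟩ | ⟨y3, _⟩
      · exact (pos_iff_pos_of_mul_pos y3).2 y1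
      · exact y3
    have yd : (q d).2 < 0 := by
      rcases cd with ⟨y3, _⟩ | ⟨y3, _⟩
      · rcases mul_pos_iff.1 y3 with ⟨y4, _⟩ | ⟨_, y4⟩
        · exact absurd y4 (not_lt.2 y2.le)
        · exact y4
      · exact absurd y3 (not_lt.2 y2.le)
    obtain ⟨⟨k1, _⟩, _, _⟩ := X_y (X_comm.1 hX) y2.le yd.le ya.le y1.le
    linarith

theorem rad_first {s m : ℝ} {v y c d : α} (hv : q v = (m, 0)) (hs : s < m)
    (hy : 0 < (q y).2) (yc : Wk q s y c) (yd : Wk q s y d) (cd : Wk q s c d)
    (scd : 0 < (q c).2 → (q d).2 < 0 → 0 < dv q s c d) : ¬ X q v y c d := by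
  intro hX
  have hyy : dv q s y y = 0 := by unfold dv; ring
  have hcc : dv q s c c = 0 := by unfold dv; ring
  have hdv : ∀ x, dv q s x v = -((m - s) * (q x).2) := by
    intro x
    unfold dv
    rw [hv]
    ring
  have hms : 0 < m - s := by linarith
  rcases yc with ⟨y1, d1⟩ | ⟨y1, y2⟩
  · have hc : 0 < (q c).2 := (pos_iff_pos_of_mul_pos y1).1 hy
    rcases yd with ⟨y3, d3⟩ | ⟨y3, y4⟩
    · obtain ⟨⟨k1, _⟩, _, _⟩ := X_dv (x := y) (s := s) hX
        (by rw [hdv]; nlinarith [mul_pos hms hy]) hyy.le d1 d3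
      rw [hdv] at k1
      nlinarith [mul_pos hms hy]
    · have k := scd hc y4
      obtain ⟨_, _, k4⟩ := X_dv (x := c) (s := s) hX
        (by rw [hdv]; nlinarith [mul_pos hms hc]) (by rw [dv_neg]; linarith) hcc.ge k.le
      linarith
  · have hd : (q d).2 < 0 := by
      rcases cd with ⟨y3, _⟩ | ⟨y3, _⟩
      · rcases mul_pos_iff.1 y3 with ⟨y4, _⟩ | ⟨_, y4⟩
        · exact absurd y4 (not_lt.2 y2.le)
        · exact y4
      · exact absurd y3 (not_lt.2 y2.le)
    obtain ⟨⟨k1, _⟩, _, _⟩ := X_y (X_comm.1 hX) y2.le hd.le (by rw [hv]) hy.le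
    linarith

theorem rad_last {s m : ℝ} {v x c d : α} (hv : q v = (m, 0)) (hs : s < m)
    (hx : (q x).2 < 0) (cx : Wk q s c x) (dx : Wk q s d x) (cd : Wk q s c d)
    (scd : 0 < (q c).2 → (q d).2 < 0 → 0 < dv q s c d) : ¬ X q c d x v := by
  intro hX
  have hxx : dv q s x x = 0 := by unfold dv; ring
  have hdd : dv q s d d = 0 := by unfold dv; ring
  have hdv : ∀ x, dv q s x v = -((m - s) * (q x).2) := by
    intro x
    unfold dv
    rw [hv]
    ring
  have hms : 0 < m - s := by linarith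
  have hneg : ∀ z, (q z).2 < 0 → 0 < dv q s z v := by
    intro z hz
    rw [hdv]
    nlinarith [mul_pos hms (neg_pos.2 hz)]
  rcases dx with ⟨y1, d1⟩ | ⟨y1, y2⟩
  · have hd : (q d).2 < 0 := by
      rcases mul_pos_iff.1 y1 with ⟨_, y4⟩ | ⟨y4, _⟩
      · exact absurd y4 (not_lt.2 hx.le)
      · exact y4
    rcases cx with ⟨y3, d3⟩ | ⟨y3, y4⟩
    · obtain ⟨_, _, k⟩ := X_dv (x := x) (s := s) hX
        (by rw [dv_neg]; linarith) (by rw [dv_neg]; linarith) hxx.ge (hneg x hx).le
      linarith [hneg x hx]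
    · have k := scd y3 hd
      obtain ⟨⟨k1, _⟩, _, _⟩ := X_dv (x := d) (s := s) hX
        (by rw [dv_neg]; linarith) hdd.le d1 (hneg d hd).le
      rw [dv_neg] at k1
      linarith
  · have hc : 0 < (q c).2 := by
      rcases cd with ⟨y3, _⟩ | ⟨y3, _⟩
      · exact (pos_iff_pos_of_mul_pos y3).2 y1
      · exact y3
    obtain ⟨⟨k1, _⟩, _, _⟩ := X_y (X_comm.1 hX) hx.le (by rw [hv]) hc.le y1.le
    linarith

/-- directed sides of the cyclic list `v :: L` -/
def DS (v : α) (L : List α) (x y : α) : Prop :=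
  (∃ A B, L = A ++ x :: y :: B) ∨ (x = v ∧ ∃ B, L = y :: B) ∨ (y = v ∧ ∃ C, L = C ++ [x])

theorem nb_ds {v : α} {L : List α} (hn : (v :: L).Nodup) {x y : α} (h : Nb (v :: L) x y) :
    DS v L x y ∨ DS v L y x := by
  have key : ∀ x y : α, (∃ A B, v :: L = A ++ x :: y :: B) → DS v L x y := by
    rintro x y ⟨A, B, h1⟩
    cases A with
    | nil =>
      rw [List.nil_append, List.cons.injEq] at h1
      exact Or.inr (Or.inl ⟨h1.1.symm, B, h1.2⟩)
    | cons a A =>
      rw [List.cons_append, List.cons.injEq] at h1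
      exact Or.inl ⟨A, B, h1.2⟩
  rcases nb_ed hn h with h1 | ⟨C, h1⟩ | ⟨C, h1⟩
  · obtain ⟨A, B, h2 | h2⟩ := ed_split h1
    · exact Or.inl (key x y ⟨A, B, h2⟩)
    · exact Or.inr (key y x ⟨A, B, h2⟩)
  · rw [List.cons.injEq] at h1
    exact Or.inr (Or.inr (Or.inr ⟨h1.1.symm, C, h1.2⟩))
  · rw [List.cons.injEq] at h1
    exact Or.inl (Or.inr (Or.inr ⟨h1.1.symm, C, h1.2⟩))

theorem pw4 {W : α → α → Prop} {A B R : List α} {a b c d : α}
    (h : (A ++ a :: b :: (R ++ c :: d :: B)).Pairwise W) :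
    W a b ∧ W a c ∧ W b c ∧ W b d ∧ W c d := by
  have h1 := List.pairwise_cons.1 (List.pairwise_append.1 h).2.1
  have h2 := List.pairwise_cons.1 h1.2
  have h3 := List.pairwise_cons.1 (List.pairwise_append.1 h2.2).2.1
  exact ⟨h1.1 b (by simp), h1.1 c (by simp), h2.1 c (by simp), h2.1 d (by simp),
    h3.1 d (by simp)⟩

/-- a polygon which (weakly) follows the directions from `(s, 0)` is plane -/
theorem rad_plane (hgp : GP q) {v : α} {L : List α} {m s : ℝ} (hv : q v = (m, 0)) (hs : s < m)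
    (hn : (v :: L).Nodup) (hL : L.Pairwise (Wk q s)) {a0 b0 : α} (ha0 : a0 ∈ L) (hb0 : b0 ∈ L)
    (ya : 0 < (q a0).2) (yb : (q b0).2 < 0) (hab : 0 < dv q s a0 b0) :
    Plane q (Nb (v :: L)) := by
  have hspec : ∀ (A B : List α) (x y : α), L = A ++ x :: y :: B → 0 < (q x).2 → (q y).2 < 0 →
      0 < dv q s x y := by
    intro A B x y h1 hx hy
    rw [h1] at hL ha0 hb0
    have p1 := List.pairwise_append.1 hL
    have p2 := List.pairwise_cons.1 p1.2.1
    have p3 := List.pairwise_cons.1 p2.2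
    have k1 : 0 ≤ dv q s a0 x := by
      rcases List.mem_append.1 ha0 with h2 | h2
      · rcases p1.2.2 a0 h2 x (by simp) with ⟨_, h3⟩ | ⟨_, h3⟩
        · exact h3
        · exact absurd h3 (not_lt.2 hx.le)
      · rcases List.mem_cons.1 h2 with h3 | h3
        · rw [h3]; unfold dv; linarith
        · exfalso
          rcases List.mem_cons.1 h3 with h4 | h4
          · rw [h4] at ya; linarith
          · rcases p3.1 a0 h4 with ⟨h5, _⟩ | ⟨h5, _⟩
            · rcases mul_pos_iff.1 h5 with ⟨h6, _⟩ | ⟨_, h6⟩ <;> linarith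
            · linarith
    have k2 : 0 ≤ dv q s y b0 := by
      rcases List.mem_append.1 hb0 with h2 | h2
      · exfalso
        rcases p1.2.2 b0 h2 x (by simp) with ⟨h5, _⟩ | ⟨h5, _⟩
        · rcases mul_pos_iff.1 h5 with ⟨h6, _⟩ | ⟨_, h6⟩ <;> linarith
        · linarith
      · rcases List.mem_cons.1 h2 with h3 | h3
        · rw [h3] at yb; linarith
        · rcases List.mem_cons.1 h3 with h4 | h4
          · rw [h4]; unfold dv; linarith
          · rcases p3.1 b0 h4 with ⟨_, h5⟩ | ⟨h5, _⟩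
            · exact h5
            · linarith
    have k3 : 0 < dv q s x b0 := by
      have e : (q a0).2 * dv q s x b0 = (q x).2 * dv q s a0 b0 + (-(q b0).2) * dv q s a0 x := by
        unfold dv
        ring
      have h2 : 0 < (q a0).2 * dv q s x b0 := by
        rw [e]
        have := mul_pos hx hab
        have := mul_nonneg (neg_pos.2 yb).le k1
        linarith
      exact (pos_iff_pos_of_mul_pos h2).1 ya
    have e : (-(q b0).2) * dv q s x y = (q x).2 * dv q s y b0 + (-(q y).2) * dv q s x b0 := by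
      unfold dv
      ring
    have h2 : 0 < (-(q b0).2) * dv q s x y := by
      rw [e]
      have := mul_pos (neg_pos.2 hy) k3
      have := mul_nonneg hx.le k2
      linarith
    exact (pos_iff_pos_of_mul_pos h2).1 (neg_pos.2 yb)
  have hfirst : ∀ (B : List α) (y : α), L = y :: B → 0 < (q y).2 := by
    intro B y h1
    rw [h1] at hL ha0
    rcases List.mem_cons.1 ha0 with h2 | h2
    · rw [← h2]; exact ya
    · rcases (List.pairwise_cons.1 hL).1 a0 h2 with ⟨h3, _⟩ | ⟨h3, _⟩
      · exact (pos_iff_pos_of_mul_pos h3).2 ya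
      · exact h3
  have hlast : ∀ (C : List α) (x : α), L = C ++ [x] → (q x).2 < 0 := by
    intro C x h1
    rw [h1] at hL hb0
    rcases List.mem_append.1 hb0 with h2 | h2
    · rcases (List.pairwise_append.1 hL).2.2 b0 h2 x (by simp) with ⟨h3, _⟩ | ⟨_, h3⟩
      · rcases mul_pos_iff.1 h3 with ⟨h4, _⟩ | ⟨_, h4⟩
        · linarith
        · exact h4
      · exact h3
    · rw [← List.mem_singleton.1 h2]; exact yb
  have hDS : ∀ x y c d : α, DS v L x y → DS v L c d → ¬ X q x y c d := by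
    intro x y c d h1 h2 hX
    have hne := X_ne hX
    -- two inner sides
    have h11 : ∀ x y c d : α, (∃ A B, L = A ++ x :: y :: B) → (∃ A B, L = A ++ c :: d :: B) →
        ¬ X q x y c d := by
      rintro x y c d ⟨A, B, h1⟩ ⟨A', B', h2⟩ hX
      have hne := X_ne hX
      have core : ∀ (A R B : List α) (x y c d : α), L = A ++ x :: y :: (R ++ c :: d :: B) →
          ¬ X q x y c d := by
        intro A R B x y c d h3
        have h4 := hL
        rw [h3] at h4
        obtain ⟨w1, w2, w3, w4, w5⟩ := pw4 h4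
        exact rad_core hgp w1 w2 w3 w4 w5 (hspec A _ x y h3)
          (hspec (A ++ x :: y :: R) B c d (by rw [h3]; simp))
      rcases List.append_eq_append_iff.1 (h1.symm.trans h2) with ⟨R, h3, h4⟩ | ⟨R, h3, h4⟩
      · match R, h3, h4 with
        | [], _, h4 =>
          rw [List.nil_append, List.cons.injEq] at h4
          exact hne.2.2.1 h4.1
        | [r], _, h4 =>
          rw [List.cons_append, List.nil_append, List.cons.injEq, List.cons.injEq] at h4
          exact hne.2.2.2.2.1 h4.2.1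
        | r :: r' :: R, h3, h4 =>
          rw [List.cons_append, List.cons_append, List.cons.injEq, List.cons.injEq] at h4
          refine core A R B' x y c d ?_ hX
          rw [h1, h4.2.2]
      · match R, h3, h4 with
        | [], _, h4 =>
          rw [List.nil_append, List.cons.injEq] at h4
          exact hne.2.2.1 h4.1.symm
        | [r], _, h4 =>
          rw [List.cons_append, List.nil_append, List.cons.injEq, List.cons.injEq] at h4
          exact hne.2.2.2.1 h4.2.1.symm
        | r :: r' :: R, h3, h4 =>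
          rw [List.cons_append, List.cons_append, List.cons.injEq, List.cons.injEq] at h4
          refine core A' R B c d x y ?_ (X_comm.1 hX)
          rw [h2, h4.2.2]
    have h12 : ∀ y c d : α, (∃ B, L = y :: B) → (∃ A B, L = A ++ c :: d :: B) →
        ¬ X q v y c d := by
      rintro y c d ⟨B, h1⟩ ⟨A', B', h2⟩ hX
      have hne := X_ne hX
      cases A' with
      | nil =>
        rw [h1, List.nil_append, List.cons.injEq] at h2
        exact hne.2.2.2.2.1 h2.1
      | cons z A' =>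
        have h3 := h2
        rw [h1, List.cons_append, List.cons.injEq] at h3
        have h4 := hL
        rw [h1, h3.2] at h4
        have p1 := List.pairwise_cons.1 h4
        have p2 := List.pairwise_cons.1 (List.pairwise_append.1 p1.2).2.1
        exact rad_first hv hs (hfirst B y h1) (p1.1 c (by simp)) (p1.1 d (by simp))
          (p2.1 d (by simp)) (hspec _ _ c d h2) hX
    have h13 : ∀ x c d : α, (∃ C, L = C ++ [x]) → (∃ A B, L = A ++ c :: d :: B) →
        ¬ X q c d x v := by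
      rintro x c d ⟨C, h1⟩ ⟨A', B', h2⟩ hX
      have hne := X_ne hX
      rcases List.eq_nil_or_concat B' with h3 | ⟨B'', z, h3⟩
      · rw [h3] at h2
        have h4 : C ++ [x] = (A' ++ [c]) ++ [d] := by rw [← h1, h2]; simp
        have h5 := (List.append_inj' h4 rfl).2
        rw [List.cons.injEq] at h5
        exact hne.2.2.2.2.1 h5.1.symm
      · rw [List.concat_eq_append] at h3
        have h4 : C ++ [x] = (A' ++ c :: d :: B'') ++ [z] := by rw [← h1, h2, h3]; simp
        have h5 := List.append_inj' h4 rfl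
        have h6 : x = z := by simpa using h5.2
        have h7 : L = A' ++ c :: d :: (B'' ++ [x]) := by rw [h2, h3, h6]
        have h8 := hL
        rw [h7] at h8
        have p1 := List.pairwise_cons.1 (List.pairwise_append.1 h8).2.1
        have p2 := List.pairwise_cons.1 p1.2
        exact rad_last hv hs (hlast C x h1) (p1.1 x (by simp)) (p2.1 x (by simp))
          (p1.1 d (by simp)) (hspec _ _ c d h2) hX
    rcases h1 with h1 | ⟨e1, h1⟩ | ⟨e1, h1⟩
    · rcases h2 with h2 | ⟨e2, h2⟩ | ⟨e2, h2⟩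
      · exact h11 x y c d h1 h2 hX
      · rw [e2] at hX
        exact h12 d x y h2 h1 (X_comm.1 hX)
      · rw [e2] at hX
        exact h13 c x y h2 h1 hX
    · rcases h2 with h2 | ⟨e2, h2⟩ | ⟨e2, h2⟩
      · rw [e1] at hX
        exact h12 y c d h1 h2 hX
      · exact hne.2.2.1 (e1.trans e2.symm)
      · exact hne.2.2.2.1 (e1.trans e2.symm)
    · rcases h2 with h2 | ⟨e2, h2⟩ | ⟨e2, h2⟩
      · rw [e1] at hX
        exact h13 x c d h1 h2 (X_comm.1 hX)
      · exact hne.2.2.2.2.1 (e1.trans e2.symm)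
      · exact hne.2.2.2.2.2 (e1.trans e2.symm)
  intro x y c d h1 h2 hX
  rcases nb_ds hn h1 with h1 | h1
  · rcases nb_ds hn h2 with h2 | h2
    · exact hDS x y c d h1 h2 hX
    · exact hDS x y d c h1 h2 (X_sw2.1 hX)
  · rcases nb_ds hn h2 with h2 | h2
    · exact hDS y x c d h1 h2 (X_sw1.1 hX)
    · exact hDS y x d c h1 h2 (X_sw1.1 (X_sw2.1 hX))

end FPR
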