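import Pool.Agent.Lib.MP_deef39_co_PR.Cyc
import Pool.Agent.Lib.MP_deef39_co_PW.HEnd

/-! # PR module Red: a path inside a polygon is rotated onto the polygon -/

set_option autoImplicit false

namespace FPR

open FPW

variable {α : Type*} {p : α → ℝ × ℝ}

/-- the path `l` crosses no side of `c` and no two of its edges are interleaved on `c` -/
structure Inn (p : α → ℝ × ℝ) (c l : List α) : Prop where
  pl : Plane p (EO l (Nb c))
  sp : ∀ a b x y, Ed l a b → Ed l x y → ¬ Sp c a b x y

theorem sp_ne {c : List α} (hn : c.Nodup) {a b x y : α} (h : Sp c a b x y) :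
    x ≠ a ∧ x ≠ b ∧ y ≠ a ∧ y ≠ b := by
  obtain ⟨C, D, h1, h2, h3⟩ := h
  have h4 := nodup_rot h1 hn
  have h5 := (List.nodup_cons.1 h4).1
  have h6 := (List.nodup_cons.1 h4).2
  refine ⟨?_, ?_, ?_, ?_⟩
  · rintro rfl
    exact h5 (by simp [h2])
  · rintro rfl
    exact (List.nodup_append.1 h6).2.2 x h2 x (by simp) rfl
  · rintro rfl
    exact h5 (by simp [h3])
  · rintro rfl
    exact (List.nodup_cons.1 (List.nodup_append.1 h6).2.1).1 h3

theorem rot_u {c l l' : List α} (h : Rot p (Nb c) l l') : U p l l' := by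
  obtain ⟨v, z, h1, h2⟩ := h
  refine Or.inl ⟨v, z, h1, ?_⟩
  intro x y hxy
  exact h2 x y (Or.inl (eo_no.1 hxy))

theorem inn_rot {c l l' : List α} (hn : c.Nodup) (hi : Inn p c l) {v z : α}
    (hr : RotL v z l l') (hvz : Nb c v z) : Inn p c l' ∧ Rot p (Nb c) l l' := by
  have hR : Rot p (Nb c) l l' := by
    refine ⟨v, z, hr, ?_⟩
    intro x y hxy hX
    exact hi.pl z v x y (Or.inr (nb_symm hvz)) hxy hX
  refine ⟨⟨rot_plane hi.pl hR, ?_⟩, hR⟩
  have key : ∀ a b, Ed l' a b → Ed l a b ∨ Nb c a b := by
    intro a b hab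
    rcases rotL_ed hr hab with h | ⟨rfl, rfl⟩ | ⟨rfl, rfl⟩
    · exact Or.inl h
    · exact Or.inr hvz
    · exact Or.inr (nb_symm hvz)
  intro a b x y hab hxy hs
  rcases key a b hab with h1 | h1
  · rcases key x y hxy with h2 | h2
    · exact hi.sp a b x y h1 h2 hs
    · exact not_sp_of_nb hn h2 (sp_swap hs)
  · exact not_sp_of_nb hn h1 hs

theorem reduce {c : List α} (hn : c.Nodup) (A : List α) : ∀ T : List α, T ≠ [] →
    (A ++ T).Perm c → Ch c T → Inn p c (A ++ T) →
    ∃ T' : List α, Relation.ReflTransGen (U p) (A ++ T) T' ∧ T'.Perm c ∧ Ch c T' := by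
  induction A using List.reverseRecOn with
  | nil =>
    intro T _ hp hT _
    exact ⟨T, Relation.ReflTransGen.refl, hp, hT⟩
  | append_singleton A a ih =>
    intro T hne hp hT hi
    obtain ⟨b, T1, rfl⟩ := List.exists_cons_of_ne_nil hne
    have e1 : A ++ [a] ++ b :: T1 = A ++ (a :: b :: T1) := by simp
    rw [e1] at hp hi ⊢
    by_cases hab : Nb c a b
    · refine ih (a :: b :: T1) (by simp) hp ?_ hi
      intro x y hxy
      rcases ed_cons2.1 hxy with ⟨rfl, rfl⟩ | ⟨rfl, rfl⟩ | h
      · exact hab
      · exact nb_symm hab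
      · exact hT x y h
    · obtain ⟨T0, e, hTe⟩ : ∃ T0 e, b :: T1 = T0 ++ [e] := by
        rcases List.eq_nil_or_concat (b :: T1) with h1 | ⟨T0, e, h1⟩
        · exact absurd h1 (by simp)
        · exact ⟨T0, e, by simpa using h1⟩
      have hae : Nb c a e := by
        refine key hn hp hab hT ?_ (e := e) ?_
        · intro x y hxy
          have h1 : Ed (A ++ a :: b :: T1) a b := ed_of_split
          have h2 : Ed (A ++ a :: b :: T1) x y := by
            rw [ed_mid]
            left
            rcases List.eq_nil_or_concat A with h3 | ⟨A', w, h3⟩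
            · rw [h3] at hxy
              exact (hxy : False).elim
            · rw [h3, List.concat_eq_append] at hxy ⊢
              rw [List.append_assoc]
              exact ed_snoc2.2 (Or.inl hxy)
          exact hi.sp a b x y h1 h2
        · rw [hTe]
          exact last_snoc T0 e
      have hr : RotL a e (A ++ a :: b :: T1) (A ++ a :: e :: T0.reverse) :=
        ⟨A, T0, by rw [hTe], rfl⟩
      obtain ⟨hi', hR⟩ := inn_rot hn hi hr hae
      have hch : Ch c (a :: e :: T0.reverse) := by
        intro x y hxy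
        rcases ed_cons2.1 hxy with ⟨rfl, rfl⟩ | ⟨rfl, rfl⟩ | h
        · exact hae
        · exact nb_symm hae
        · have h4 : e :: T0.reverse = (b :: T1).reverse := by rw [hTe]; simp
          rw [h4, ed_reverse] at h
          exact hT x y h
      obtain ⟨T', h1, h2, h3⟩ := ih (a :: e :: T0.reverse) (by simp)
        ((rotL_perm hr).trans hp) hch hi'
      exact ⟨T', Relation.ReflTransGen.head (rot_u hR) h1, h2, h3⟩

/-- consecutive entries of a rotation of `c` are sides -/
theorem ch_of_rot {c m : List α} (h : c.IsRotated m) : Ch c m := by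
  intro x y hxy
  obtain ⟨A, B, h1 | h1⟩ := ed_split hxy
  · rw [h1] at h
    exact nb_rot h.symm nb_of_mid
  · rw [h1] at h
    exact nb_symm (nb_rot h.symm nb_of_mid)

theorem ring1 {c : List α} (hR : Plane p (Nb c)) {m : List α} (h : c.IsRotated m) :
    Relation.ReflTransGen (U p) m (m.rotate 1) := by
  cases m with
  | nil => exact Relation.ReflTransGen.refl
  | cons b E =>
    have e1 : (b :: E).rotate 1 = E ++ [b] := by simp
    rw [e1]
    rcases List.eq_nil_or_concat E with rfl | ⟨E', z, rfl⟩
    · exact Relation.ReflTransGen.refl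
    · rw [List.concat_eq_append] at h ⊢
      have hzb : Nb c z b := nb_symm (nb_rot h.symm nb_of_last)
      have h1 : U p (b :: (E' ++ [z])) (b :: z :: E'.reverse) := by
        refine Or.inl ⟨b, z, ⟨[], E', rfl, rfl⟩, ?_⟩
        intro x y hxy hX
        exact hR z b x y hzb (ch_of_rot h x y (eo_no.1 hxy)) hX
      have h2 : U p (b :: z :: E'.reverse) (E' ++ [z] ++ [b]) := by
        refine Or.inr ?_
        simp
      exact (Relation.ReflTransGen.single h1).tail h2

theorem ring {c : List α} (hR : Plane p (Nb c)) {m m' : List α} (h : c.IsRotated m)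
    (h' : c.IsRotated m') : Relation.ReflTransGen (U p) m m' := by
  obtain ⟨k, rfl⟩ := h.symm.trans h'
  clear h'
  induction k with
  | zero => rw [List.rotate_zero]
  | succ k ih =>
    refine ih.trans ?_
    rw [← List.rotate_rotate]
    exact ring1 hR (h.trans ⟨k, rfl⟩)

/-- a path inside the polygon `c` is connected with `c` -/
theorem to_c {c l : List α} (hn : c.Nodup) (hp : l.Perm c) (hi : Inn p c l) :
    Relation.ReflTransGen (U p) l c := by
  rcases List.eq_nil_or_concat l with h0 | ⟨A, z, h0⟩
  · subst h0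
    rw [List.nil_perm.1 hp]
  rw [List.concat_eq_append] at h0
  subst h0
  have hR : Plane p (Nb c) := fun a b x y h1 h2 => hi.pl a b x y (Or.inr h1) (Or.inr h2)
  obtain ⟨T', h1, h2, h3⟩ := reduce hn A [z] (by simp) hp
    (fun x y hxy => (hxy : False).elim) hi
  refine h1.trans ?_
  have hnT : T'.Nodup := h2.nodup_iff.2 hn
  cases T' with
  | nil => rw [List.nil_perm.1 h2]
  | cons b T =>
    have hb : b ∈ c := h2.mem_iff.1 (by simp)
    obtain ⟨E, hE⟩ := rot_to hb
    have hlen : T.length = E.length := by
      have h4 := (h2.trans hE.perm).length_eq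
      simpa using h4
    rcases chain_prefix hn hE T hnT h3 with h | h
    · have h4 : T = E := h.eq_of_length hlen
      rw [h4]
      exact ring hR hE (List.IsRotated.refl c)
    · have h4 : T = E.reverse := h.eq_of_length (by simpa using hlen)
      have h5 : U p (b :: T) (E ++ [b]) := by
        refine Or.inr ?_
        rw [h4]
        simp
      refine (Relation.ReflTransGen.single h5).trans (ring hR ?_ (List.IsRotated.refl c))
      exact hE.trans (by simpa using rot_app [b] E)

/-- sides of a cyclic list are consecutive entries, or the first and the last entry -/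
theorem nb_ed {m : List α} (hn : m.Nodup) {x y : α} (h : Nb m x y) :
    Ed m x y ∨ (∃ C, m = x :: (C ++ [y])) ∨ (∃ C, m = y :: (C ++ [x])) := by
  have hx : x ∈ m := by
    obtain ⟨C, h1 | h1⟩ := h
    · exact h1.mem_iff.2 (by simp)
    · exact h1.mem_iff.2 (by simp)
  obtain ⟨P, Q, rfl⟩ := List.append_of_mem hx
  have h1 : (P ++ x :: Q).IsRotated (x :: (Q ++ P)) := by
    simpa using rot_app P (x :: Q)
  rcases nb_head (nodup_rot h1 hn) (nb_rot h1 h) with ⟨C, hC⟩ | ⟨C, hC⟩
  · cases Q with
    | nil =>
      rw [List.nil_append] at hC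
      right; right
      exact ⟨C, by rw [hC]; simp⟩
    | cons q Q =>
      rw [List.cons_append, List.cons.injEq] at hC
      left
      rw [hC.1]
      exact ed_of_split
  · rcases List.eq_nil_or_concat P with rfl | ⟨P', y', rfl⟩
    · rw [List.append_nil] at hC
      right; left
      exact ⟨C, by rw [hC]; simp⟩
    · rw [List.concat_eq_append, ← List.append_assoc] at hC
      have h2 : y' = y := by
        have h3 := (List.append_inj' hC rfl).2
        simpa using h3
      left
      rw [h2]
      have h4 : P'.concat y ++ x :: Q = P' ++ y :: x :: Q := by simp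
      rw [h4]
      exact ed_of_split'

/-- exchanging two consecutive vertices of the polygon -/
theorem swap {c c' E : List α} {a b : α} (hn' : c'.Nodup)
    (hR : Plane p (Nb c)) (hR' : Plane p (Nb c')) (h : c.IsRotated (a :: b :: E))
    (h' : c'.IsRotated (b :: a :: E)) : Relation.ReflTransGen (U p) c c' := by
  rcases List.eq_nil_or_concat E with rfl | ⟨E', w, rfl⟩
  · refine ring hR (List.IsRotated.refl c) ?_
    refine h.trans (List.IsRotated.trans ?_ h'.symm)
    simpa using rot_app [a] [b]
  · rw [List.concat_eq_append] at h h'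
    have hm : c.IsRotated (E' ++ [w] ++ [a, b]) := by
      refine h.trans ?_
      simpa using rot_app [a, b] (E' ++ [w])
    refine (ring hR (List.IsRotated.refl c) hm).trans ?_
    have hwa : Nb c w a := by
      have h1 : E' ++ [w] ++ [a, b] = E' ++ w :: a :: [b] := by simp
      rw [h1] at hm
      exact nb_rot hm.symm nb_of_mid
    have hpm : (E' ++ [w] ++ [a, b]).Perm c' := by
      refine hm.perm.symm.trans (h.perm.trans ?_)
      exact (List.Perm.swap b a _).trans h'.perm.symm
    -- edges of the path
    have hed : ∀ x y, Ed (E' ++ [w] ++ [a, b]) x y →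
        Nb c' x y ∨ (x = w ∧ y = a) ∨ (x = a ∧ y = w) := by
      intro x y hxy
      rw [ed_snoc2] at hxy
      rcases hxy with hxy | ⟨rfl, rfl⟩ | ⟨rfl, rfl⟩
      · have h1 : E' ++ [w] ++ [a] = E' ++ [w, a] := by simp
        rw [h1, ed_snoc2] at hxy
        rcases hxy with hxy | hxy | hxy
        · left
          refine nb_rot h'.symm ?_
          obtain ⟨A, B, h2 | h2⟩ := ed_split hxy
          · rw [h2]
            exact nb_of_mid (A := b :: a :: A)
          · rw [h2]
            exact nb_symm (nb_of_mid (A := b :: a :: A))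
        · exact Or.inr (Or.inl hxy)
        · exact Or.inr (Or.inr hxy)
      · exact Or.inl (nb_rot h'.symm (nb_symm nb_of_head))
      · exact Or.inl (nb_rot h'.symm nb_of_head)
    have hcr : ∀ x y, Nb c' x y → Nb c x y ∨ x = w ∨ y = w ∨ x = a ∨ y = a := by
      intro x y hxy
      rcases nb_ed (nodup_rot h' hn') (nb_rot h' hxy) with h1 | ⟨C, h1⟩ | ⟨C, h1⟩
      · rcases ed_cons2.1 h1 with ⟨_, h2⟩ | ⟨h2, _⟩ | h1
        · exact Or.inr (Or.inr (Or.inr (Or.inr h2)))
        · exact Or.inr (Or.inr (Or.inr (Or.inl h2)))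
        · obtain ⟨u, L, hL⟩ : ∃ u L, E' ++ [w] = u :: L :=
            List.exists_cons_of_ne_nil (by simp)
          rw [hL] at h1
          rcases ed_cons2.1 h1 with ⟨h2, _⟩ | ⟨_, h2⟩ | h1
          · exact Or.inr (Or.inr (Or.inr (Or.inl h2)))
          · exact Or.inr (Or.inr (Or.inr (Or.inr h2)))
          · rw [← hL] at h1
            left
            refine nb_rot h.symm ?_
            obtain ⟨A, B, h2 | h2⟩ := ed_split h1
            · rw [h2]
              exact nb_of_mid (A := a :: b :: A)
            · rw [h2]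
              exact nb_symm (nb_of_mid (A := a :: b :: A))
      · have h2 : y = w := by
          have h3 : (b :: a :: E') ++ [w] = (x :: C) ++ [y] := by simpa using h1
          have h4 := (List.append_inj' h3 rfl).2
          simpa using h4.symm
        exact Or.inr (Or.inr (Or.inl h2))
      · have h2 : x = w := by
          have h3 : (b :: a :: E') ++ [w] = (y :: C) ++ [x] := by simpa using h1
          have h4 := (List.append_inj' h3 rfl).2
          simpa using h4.symm
        exact Or.inr (Or.inl h2)
    have hX1 : ∀ x y, Nb c' x y → ¬ X p w a x y := by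
      intro x y hxy hX
      have hne := X_ne hX
      rcases hcr x y hxy with h1 | h1 | h1 | h1 | h1
      · exact hR w a x y hwa h1 hX
      · exact hne.2.2.1 h1.symm
      · exact hne.2.2.2.1 h1.symm
      · exact hne.2.2.2.2.1 h1.symm
      · exact hne.2.2.2.2.2 h1.symm
    refine to_c hn' hpm ⟨?_, ?_⟩
    · intro s t x y hst hxy hX
      have key : ∀ s t, EO (E' ++ [w] ++ [a, b]) (Nb c') s t →
          Nb c' s t ∨ (s = w ∧ t = a) ∨ (s = a ∧ t = w) := by
        rintro s t (h1 | h1)
        · exact hed s t h1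
        · exact Or.inl h1
      have hne := X_ne hX
      rcases key s t hst with h1 | ⟨h1, h2⟩ | ⟨h1, h2⟩
      · rcases key x y hxy with h3 | ⟨h3, h4⟩ | ⟨h3, h4⟩
        · exact hR' s t x y h1 h3 hX
        · rw [h3, h4] at hX
          exact hX1 s t h1 (X_comm.1 hX)
        · rw [h3, h4] at hX
          exact hX1 s t h1 (X_comm.1 (X_sw2.1 hX))
      · rcases key x y hxy with h3 | ⟨h3, h4⟩ | ⟨h3, h4⟩
        · rw [h1, h2] at hX
          exact hX1 x y h3 hX
        · exact hne.2.2.1 (h1.trans h3.symm)
        · exact hne.2.2.2.1 (h1.trans h4.symm)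
      · rcases key x y hxy with h3 | ⟨h3, h4⟩ | ⟨h3, h4⟩
        · rw [h1, h2] at hX
          exact hX1 x y h3 (X_sw1.1 hX)
        · exact hne.2.2.2.1 (h1.trans h4.symm)
        · exact hne.2.2.1 (h1.trans h3.symm)
    · intro s t x y hst hxy hs
      rcases hed s t hst with h1 | ⟨h1, h2⟩ | ⟨h1, h2⟩
      · exact not_sp_of_nb hn' h1 hs
      · rcases hed x y hxy with h3 | ⟨h3, _⟩ | ⟨h3, _⟩
        · exact not_sp_of_nb hn' h3 (sp_swap hs)
        · exact (sp_ne hn' hs).1 (h3.trans h1.symm)
        · exact (sp_ne hn' hs).2.1 (h3.trans h2.symm)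
      · rcases hed x y hxy with h3 | ⟨h3, _⟩ | ⟨h3, _⟩
        · exact not_sp_of_nb hn' h3 (sp_swap hs)
        · exact (sp_ne hn' hs).2.1 (h3.trans h2.symm)
        · exact (sp_ne hn' hs).1 (h3.trans h1.symm)

end FPR
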