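import Pool.Agent.Lib.MP_deef39_co_PR.Mono

/-! # PR module SweepS: from one direction to another by exchanges of level points, with time -/

set_option autoImplicit false

namespace FPR

open FPW

/-- `L'` arises from `L` by the exchange of two consecutive points which are level at a time
`t < 1`, at which `L` is weakly increasing -/
def Tsm {n : ℕ} (p : Fin n → ℝ × ℝ) (w w' : ℝ × ℝ) (L L' : List (Fin n)) : Prop :=
  ∃ (A B : List (Fin n)) (a b : Fin n) (t : ℝ), 0 ≤ t ∧ t < 1 ∧ L = A ++ a :: b :: B ∧
    L' = A ++ b :: a :: B ∧
    (1 - t) * gd p w a + t * gd p w' a = (1 - t) * gd p w b + t * gd p w' b ∧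
    L.Pairwise (fun x y => (1 - t) * gd p w x + t * gd p w' x ≤
      (1 - t) * gd p w y + t * gd p w' y)

private theorem pw_of_adj {β : Type*} {R : β → β → Prop} (ht : ∀ a b c, R a b → R b c → R a c) :
    ∀ L : List β, (∀ A a b B, L = A ++ a :: b :: B → R a b) → L.Pairwise R
  | [], _ => List.Pairwise.nil
  | [a], _ => List.pairwise_singleton R a
  | a :: b :: L, h => by
    have h1 := pw_of_adj ht (b :: L) fun A x y B hL => h (a :: A) x y B (by rw [hL]; rfl)
    have h2 : R a b := h [] a b L rfl
    refine List.Pairwise.cons ?_ h1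
    intro y hy
    rcases List.mem_cons.1 hy with h3 | h3
    · rw [h3]; exact h2
    · exact ht a b y h2 ((List.pairwise_cons.1 h1).1 y h3)

private theorem pw_le {β : Type*} (g : β → ℝ) (L : List β)
    (h : ∀ A a b B, L = A ++ a :: b :: B → g a ≤ g b) : L.Pairwise (fun x y => g x ≤ g y) :=
  pw_of_adj (R := fun x y => g x ≤ g y) (fun _ _ _ h h' => le_trans h h') L h

private theorem sort_unique {β : Type*} {g : β → ℝ} : ∀ L L' : List β, L.Perm L' →
    L.Pairwise (fun x y => g x ≤ g y) → L'.Pairwise (fun x y => g x < g y) → L = L'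
  | [], L', hp, _, _ => by rw [List.nil_perm.1 hp]
  | y :: L, [], hp, _, _ => absurd (List.perm_nil.1 hp) (List.cons_ne_nil y L)
  | y :: L, x :: L', hp, h1, h2 => by
    have h3 : y ∈ x :: L' := hp.mem_iff.1 List.mem_cons_self
    have h4 : x ∈ y :: L := hp.mem_iff.2 List.mem_cons_self
    have h5 : g y ≤ g x := by
      rcases List.mem_cons.1 h4 with h5 | h5
      · rw [h5]
      · exact (List.pairwise_cons.1 h1).1 x h5
    have h6 : y = x := by
      rcases List.mem_cons.1 h3 with h6 | h6
      · exact h6
      · exact absurd ((List.pairwise_cons.1 h2).1 y h6) (not_lt.2 h5)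
    subst h6
    rw [sort_unique L L' ((List.perm_cons y).1 hp) (List.pairwise_cons.1 h1).2
      (List.pairwise_cons.1 h2).2]

open Classical in
/-- number of inversions -/
private noncomputable def inv {β : Type*} (g : β → ℝ) : List β → ℕ
  | [] => 0
  | a :: L => L.countP (fun y => decide (g y < g a)) + inv g L

open Classical in
private theorem inv_swap {β : Type*} {g : β → ℝ} {a b : β} (h : g b < g a) (A B : List β) :
    inv g (A ++ b :: a :: B) + 1 = inv g (A ++ a :: b :: B) := by
  induction A with
  | nil =>
    have h1 : ¬ g a < g b := not_lt.2 h.le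
    simp only [List.nil_append, inv, List.countP_cons, decide_eq_true_eq, if_pos h, if_neg h1]
    omega
  | cons x A ih =>
    simp only [List.cons_append, inv]
    have h1 : (A ++ b :: a :: B).Perm (A ++ a :: b :: B) :=
      List.Perm.append_left A (List.Perm.swap a b B)
    rw [h1.countP_eq]
    omega

private theorem sweep_aux {n : ℕ} {p : Fin n → ℝ × ℝ} {w w' : ℝ × ℝ}
    {L' : List (Fin n)} (h2 : L'.Pairwise (fun x y => gd p w' x < gd p w' y)) :
    ∀ (N : ℕ) (L : List (Fin n)) (t : ℝ), inv (gd p w') L = N → L.Perm L' → 0 ≤ t → t ≤ 1 →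
      L.Pairwise (fun x y => (1 - t) * gd p w x + t * gd p w' x ≤
        (1 - t) * gd p w y + t * gd p w' y) →
      Relation.ReflTransGen (Tsm p w w') L L' := by
  classical
  intro N
  induction N with
  | zero =>
    intro L t hN hp _ _ _
    have hs : L.Pairwise (fun x y => gd p w' x ≤ gd p w' y) := by
      refine pw_le (gd p w') L ?_
      intro A a b B hL
      by_contra hc
      have h3 := inv_swap (g := gd p w') (a := a) (b := b) (lt_of_not_ge hc) A B
      rw [← hL, hN] at h3
      omega
    rw [sort_unique L L' hp hs h2]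
  | succ N ih =>
    intro L t hN hp ht0 ht1 hL
    let S : Finset (Fin n × Fin n) := Finset.univ.filter fun q =>
      (∃ A B, L = A ++ q.1 :: q.2 :: B) ∧ gd p w' q.2 < gd p w' q.1
    have hS : S.Nonempty := by
      by_contra hc
      rw [Finset.not_nonempty_iff_eq_empty] at hc
      have hs : L.Pairwise (fun x y => gd p w' x ≤ gd p w' y) := by
        refine pw_le (gd p w') L ?_
        intro A a b B hLL
        by_contra hc2
        have h3 : (a, b) ∈ S :=
          Finset.mem_filter.2 ⟨Finset.mem_univ _, ⟨A, B, hLL⟩, lt_of_not_ge hc2⟩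
        rw [hc] at h3
        exact absurd h3 (Finset.notMem_empty _)
      have h4 := sort_unique L L' hp hs h2
      have h5 : inv (gd p w') L = 0 := by
        rw [h4]
        clear hN hp hL hs h4 ih
        induction L' with
        | nil => rfl
        | cons a L' ih2 =>
          have h6 := List.pairwise_cons.1 h2
          simp only [inv]
          rw [ih2 h6.2, Nat.add_zero, List.countP_eq_zero]
          intro y hy
          have h7 := h6.1 y hy
          simp only [decide_eq_true_eq, not_lt]
          exact h7.le
      omega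
    obtain ⟨⟨a, b⟩, hab, hmin⟩ := Finset.exists_min_image S
      (fun q => (gd p w q.2 - gd p w q.1) /
        ((gd p w q.2 - gd p w q.1) - (gd p w' q.2 - gd p w' q.1))) hS
    obtain ⟨-, ⟨A, B, hLL⟩, hinv⟩ := Finset.mem_filter.1 hab
    simp only at hLL hinv hmin
    -- facts for an inverted consecutive pair
    have hfact : ∀ (C D : List (Fin n)) (x y : Fin n), L = C ++ x :: y :: D →
        (1 - t) * gd p w x + t * gd p w' x ≤ (1 - t) * gd p w y + t * gd p w' y := by
      intro C D x y h3
      rw [h3] at hL
      have h4 := (List.pairwise_append.1 hL).2.1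
      exact (List.pairwise_cons.1 h4).1 y List.mem_cons_self
    have hab1 := hfact A B a b hLL
    set D0 := gd p w b - gd p w a with hD0
    set D1 := gd p w' b - gd p w' a with hD1
    have hD1n : D1 < 0 := by rw [hD1]; linarith
    have hDt : 0 ≤ (1 - t) * D0 + t * D1 := by
      rw [hD0, hD1]
      nlinarith [hab1]
    have htl : t < 1 := by
      rcases lt_or_eq_of_le ht1 with h3 | h3
      · exact h3
      · rw [h3] at hDt
        nlinarith
    have hD0n : 0 ≤ D0 := by
      by_contra h3
      have h4 : D0 < 0 := lt_of_not_ge h3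
      nlinarith
    have hpos : 0 < D0 - D1 := by linarith
    set t1 := D0 / (D0 - D1) with ht1d
    have ht10 : 0 ≤ t1 := div_nonneg hD0n hpos.le
    have ht11 : t1 ≤ 1 := by
      rw [ht1d, div_le_one hpos]
      linarith
    have htt : t ≤ t1 := by
      rw [ht1d, le_div_iff₀ hpos]
      nlinarith
    have hlev : (1 - t1) * gd p w a + t1 * gd p w' a = (1 - t1) * gd p w b + t1 * gd p w' b := by
      have h3 : t1 * (D0 - D1) = D0 := div_mul_cancel₀ D0 hpos.ne'
      rw [hD0, hD1] at h3
      linarith
    have hsort : L.Pairwise (fun x y => (1 - t1) * gd p w x + t1 * gd p w' x ≤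
        (1 - t1) * gd p w y + t1 * gd p w' y) := by
      refine pw_le (fun x => (1 - t1) * gd p w x + t1 * gd p w' x) L ?_
      intro C x y D h3
      have h4 := hfact C D x y h3
      by_cases h5 : gd p w' y < gd p w' x
      · have h6 := hmin (x, y) (Finset.mem_filter.2 ⟨Finset.mem_univ _, ⟨C, D, h3⟩, h5⟩)
        simp only at h6
        set E0 := gd p w y - gd p w x with hE0
        set E1 := gd p w' y - gd p w' x with hE1
        have hE1n : E1 < 0 := by rw [hE1]; linarith
        have hEt : 0 ≤ (1 - t) * E0 + t * E1 := by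
          rw [hE0, hE1]
          nlinarith [h4]
        have hE0n : 0 ≤ E0 := by
          by_contra h7
          have h8 : E0 < 0 := lt_of_not_ge h7
          nlinarith
        have hEpos : 0 < E0 - E1 := by linarith
        have h7 : t1 * (E0 - E1) ≤ E0 := by
          rw [le_div_iff₀ hEpos] at h6
          exact h6
        rw [hE0, hE1] at h7
        nlinarith
      · have h5' : gd p w' x ≤ gd p w' y := le_of_not_gt h5
        have h6 : 0 ≤ (1 - t) * (((1 - t1) * gd p w y + t1 * gd p w' y) -
            ((1 - t1) * gd p w x + t1 * gd p w' x)) := by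
          have h7 : (1 - t) * (((1 - t1) * gd p w y + t1 * gd p w' y) -
              ((1 - t1) * gd p w x + t1 * gd p w' x)) =
              (1 - t1) * (((1 - t) * gd p w y + t * gd p w' y) -
                ((1 - t) * gd p w x + t * gd p w' x)) +
              (t1 - t) * (gd p w' y - gd p w' x) := by ring
          rw [h7]
          exact add_nonneg (mul_nonneg (by linarith) (by linarith))
            (mul_nonneg (by linarith) (by linarith))
        have h8 : 0 < 1 - t := by linarith
        have h9 := nonneg_of_mul_nonneg_right h6 h8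
        linarith
    have hstep : Tsm p w w' L (A ++ b :: a :: B) := by
      refine ⟨A, B, a, b, t1, ht10, ?_, hLL, rfl, hlev, hsort⟩
      rw [ht1d, div_lt_one hpos]
      linarith
    have hcnt := inv_swap (g := gd p w') hinv A B
    rw [← hLL, hN] at hcnt
    refine Relation.ReflTransGen.head hstep (ih _ t1 (by omega) ?_ ht10 ht11 ?_)
    · refine List.Perm.trans ?_ hp
      rw [hLL]
      exact List.Perm.append_left A (List.Perm.swap a b B)
    · rw [hLL] at hsort
      obtain ⟨g1, g2, g3⟩ := List.pairwise_append.1 hsort
      obtain ⟨g4, g5⟩ := List.pairwise_cons.1 g2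
      obtain ⟨g6, g7⟩ := List.pairwise_cons.1 g5
      refine List.pairwise_append.2 ⟨g1, ?_, ?_⟩
      · refine List.Pairwise.cons ?_ (List.Pairwise.cons ?_ g7)
        · intro y hy
          rcases List.mem_cons.1 hy with g8 | g8
          · rw [g8]; exact hlev.ge
          · exact g6 y g8
        · intro y hy
          exact g4 y (List.mem_cons_of_mem _ hy)
      · intro x hx y hy
        refine g3 x hx y ?_
        simp only [List.mem_cons] at hy ⊢
        tauto

theorem sweepS {n : ℕ} {p : Fin n → ℝ × ℝ} {w w' : ℝ × ℝ}
    {L L' : List (Fin n)} (hp : L.Perm L')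
    (h1 : L.Pairwise (fun x y => gd p w x < gd p w y))
    (h2 : L'.Pairwise (fun x y => gd p w' x < gd p w' y)) :
    Relation.ReflTransGen (Tsm p w w') L L' := by
  refine sweep_aux h2 _ L 0 rfl hp le_rfl zero_le_one ?_
  refine h1.imp ?_
  intro x y h
  linarith

end FPR
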