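import Pool.Agent.Lib.MP_deef39_co_PR.Rad
import Pool.Agent.Lib.MP_deef39_co_PR.SweepS

/-! # PR module Star: star-shaped polygons

The centre of a star-shaped polygon is moved straight to a vertex `v` of the hull. The polygon
which lists the points in the order of their directions changes by exchanges of two consecutive
vertices, and ends with the order around `v`. -/

set_option autoImplicit false

namespace FPR

open FPW

/-- orientation of `z`, `a`, `b` -/
def dz {α : Type*} (p : α → ℝ × ℝ) (z : ℝ × ℝ) (a b : α) : ℝ :=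
  ((p a).1 - z.1) * ((p b).2 - z.2) - ((p a).2 - z.2) * ((p b).1 - z.1)

/-- `c` is star-shaped (counterclockwise) with centre `z`: `z` lies to the left of every side,
and from each vertex `v` on, `c` lists first the points to the left of the ray from `z` through
`v`, then those to the right, both in the order of their directions from `z` -/
def Star {α : Type*} (p : α → ℝ × ℝ) (z : ℝ × ℝ) (c : List α) : Prop :=
  (∀ (x y : α) (C : List α), c.IsRotated (x :: y :: C) → 0 < dz p z x y) ∧
    ∀ (v : α) (E : List α), c.IsRotated (v :: E) → E.Pairwise (fun a b =>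
      (0 < dz p z v a ∧ dz p z v b < 0) ∨ (0 < dz p z v a * dz p z v b ∧ 0 < dz p z a b))

theorem consec {β : Type*} {P : β → Prop} : ∀ (L : List β) (x : β), P x → (∃ y ∈ L, ¬ P y) →
    ∃ A a b B, x :: L = A ++ a :: b :: B ∧ P a ∧ ¬ P b
  | [], _, _, h => by
    obtain ⟨y, hy, _⟩ := h
    exact absurd hy (by simp)
  | y :: L, x, hx, h => by
    by_cases hy : P y
    · have h' : ∃ z ∈ L, ¬ P z := by
        obtain ⟨z, hz, hz'⟩ := h
        rcases List.mem_cons.1 hz with h1 | h1
        · rw [h1] at hz'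
          exact absurd hy hz'
        · exact ⟨z, h1, hz'⟩
      obtain ⟨A, a, b, B, h1, h2, h3⟩ := consec L y hy h'
      exact ⟨x :: A, a, b, B, by rw [h1]; rfl, h2, h3⟩
    · exact ⟨[], x, y, L, rfl, hx, hy⟩

theorem exists_sorted {β : Type*} (g : β → ℝ) : ∀ L : List β, ∃ M : List β, M.Perm L ∧
    M.Pairwise (fun x y => g x ≤ g y)
  | [] => ⟨[], List.Perm.refl _, List.Pairwise.nil⟩
  | a :: L => by
    obtain ⟨M, h1, h2⟩ := exists_sorted g L
    have key : ∀ M : List β, M.Pairwise (fun x y => g x ≤ g y) → ∃ A B, M = A ++ B ∧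
        (∀ x ∈ A, g x ≤ g a) ∧ (∀ x ∈ B, g a ≤ g x) := by
      intro M
      induction M with
      | nil => intro _; exact ⟨[], [], rfl, by simp, by simp⟩
      | cons b M ih =>
        intro h
        have h3 := List.pairwise_cons.1 h
        by_cases hb : g b ≤ g a
        · obtain ⟨A, B, h4, h5, h6⟩ := ih h3.2
          refine ⟨b :: A, B, by rw [h4]; rfl, ?_, h6⟩
          intro x hx
          rcases List.mem_cons.1 hx with rfl | hx
          · exact hb
          · exact h5 x hx
        · refine ⟨[], b :: M, rfl, by simp, ?_⟩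
          intro x hx
          rcases List.mem_cons.1 hx with rfl | hx
          · exact (not_le.1 hb).le
          · exact (not_le.1 hb).le.trans (h3.1 x hx)
    obtain ⟨A, B, h4, h5, h6⟩ := key M h2
    refine ⟨A ++ a :: B, ?_, ?_⟩
    · refine List.perm_middle.trans (List.Perm.cons a ?_)
      rw [← h4]
      exact h1
    · rw [h4] at h2
      have h7 := List.pairwise_append.1 h2
      refine List.pairwise_append.2 ⟨h7.1, List.pairwise_cons.2 ⟨h6, h7.2.1⟩, ?_⟩
      intro x hx y hy
      rcases List.mem_cons.1 hy with rfl | hy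
      · exact h5 x hx
      · exact h7.2.2 x hx y hy

/-- a vertex of the hull -/
theorem exists_hull {n : ℕ} {p : Fin n → ℝ × ℝ} (hi : Function.Injective p) (v0 : Fin n) :
    ∃ (v : Fin n) (w : ℝ × ℝ), ∀ a, a ≠ v → gd p w v < gd p w a := by
  obtain ⟨v, -, hv⟩ := Finset.exists_max_image Finset.univ
    (fun a => (p a).1 ^ 2 + (p a).2 ^ 2) ⟨v0, Finset.mem_univ _⟩
  refine ⟨v, (-(p v).1, -(p v).2), ?_⟩
  intro a ha
  have h1 := hv a (Finset.mem_univ _)
  have h2 : 0 < ((p a).1 - (p v).1) ^ 2 + ((p a).2 - (p v).2) ^ 2 := by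
    by_contra h3
    have k1 := sq_nonneg ((p a).1 - (p v).1)
    have k2 := sq_nonneg ((p a).2 - (p v).2)
    have h4 : (p a).1 - (p v).1 = 0 := by
      have : ((p a).1 - (p v).1) ^ 2 = 0 := by linarith
      exact pow_eq_zero_iff (two_ne_zero) |>.1 this
    have h5 : (p a).2 - (p v).2 = 0 := by
      have : ((p a).2 - (p v).2) ^ 2 = 0 := by linarith
      exact pow_eq_zero_iff (two_ne_zero) |>.1 this
    exact ha (hi (Prod.ext (by linarith) (by linarith)))
  unfold gd
  simp only
  nlinarith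

/-- the other points in the order of their directions from a vertex of the hull -/
theorem exists_round {α : Type*} {p : α → ℝ × ℝ} (hgp : GP p) {v : α} {w : ℝ × ℝ}
    (hw : ∀ a, a ≠ v → gd p w v < gd p w a) {E : List α} (hn : (v :: E).Nodup) :
    ∃ L : List α, L.Perm E ∧ L.Pairwise (fun x y => 0 < o p v x y) := by
  obtain ⟨L, h1, h2⟩ := exists_sorted
    (fun a => (w.1 * ((p a).2 - (p v).2) - w.2 * ((p a).1 - (p v).1)) /
      (gd p w a - gd p w v)) E
  refine ⟨L, h1, ?_⟩
  have hnE := List.nodup_cons.1 hn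
  have hnL : L.Nodup := h1.nodup_iff.2 hnE.2
  have hvL : ∀ a ∈ L, a ≠ v := by
    rintro a ha rfl
    exact hnE.1 (h1.mem_iff.1 ha)
  have h3 := (List.pairwise_and_iff.2 ⟨h2, hnL⟩ : L.Pairwise _)
  refine (List.Pairwise.imp_of_mem ?_ h3)
  rintro a b ha hb ⟨h4, h5⟩
  have ga := hw a (hvL a ha)
  have gb := hw b (hvL b hb)
  have hw0 : 0 < w.1 ^ 2 + w.2 ^ 2 := by
    by_contra h6
    have k1 := sq_nonneg w.1
    have k2 := sq_nonneg w.2
    have h7 : w.1 = 0 := by
      have : w.1 ^ 2 = 0 := by linarith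
      exact pow_eq_zero_iff (two_ne_zero) |>.1 this
    have h8 : w.2 = 0 := by
      have : w.2 ^ 2 = 0 := by linarith
      exact pow_eq_zero_iff (two_ne_zero) |>.1 this
    unfold gd at ga
    rw [h7, h8] at ga
    linarith
  have e : (w.1 ^ 2 + w.2 ^ 2) * o p v a b =
      (gd p w a - gd p w v) * (w.1 * ((p b).2 - (p v).2) - w.2 * ((p b).1 - (p v).1)) -
      (w.1 * ((p a).2 - (p v).2) - w.2 * ((p a).1 - (p v).1)) * (gd p w b - gd p w v) := by
    unfold o gd
    ring
  have h6 : (w.1 * ((p a).2 - (p v).2) - w.2 * ((p a).1 - (p v).1)) * (gd p w b - gd p w v) ≤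
      (w.1 * ((p b).2 - (p v).2) - w.2 * ((p b).1 - (p v).1)) * (gd p w a - gd p w v) := by
    rwa [div_le_div_iff₀ (by linarith) (by linarith)] at h4
  have h7 : 0 ≤ (w.1 ^ 2 + w.2 ^ 2) * o p v a b := by
    rw [e]
    linarith
  have h8 : 0 ≤ o p v a b := nonneg_of_mul_nonneg_right h7 hw0
  exact lt_of_le_of_ne h8 (hgp.ne v a b (hvL a ha).symm h5 (hvL b hb).symm).symm

theorem X_scale {α : Type*} {p q : α → ℝ × ℝ} {m : ℝ} (hm : 0 < m)
    (h : ∀ a b c, o q a b c = m * o p a b c) {a b c d : α} : X q a b c d ↔ X p a b c d := by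
  unfold X
  rw [h, h, h, h]
  have e1 : m * o p a b c * (m * o p a b d) = (m * m) * (o p a b c * o p a b d) := by ring
  have e2 : m * o p c d a * (m * o p c d b) = (m * m) * (o p c d a * o p c d b) := by ring
  have hmm : 0 < m * m := mul_pos hm hm
  have e3 : ∀ x : ℝ, m * m * x < 0 ↔ x < 0 := by
    intro x
    constructor
    · intro h1
      by_contra h2
      have := mul_nonneg hmm.le (not_lt.1 h2)
      linarith
    · intro h1
      exact mul_neg_of_pos_of_neg hmm h1
  rw [e1, e2, e3, e3]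

/-- a star-shaped polygon is connected with the order around a vertex of the hull -/
theorem star_to {n : ℕ} {p : Fin n → ℝ × ℝ} (hgp : GP p) {c : List (Fin n)} (hn : c.Nodup)
    (hpl : Plane p (Nb c)) {z : ℝ × ℝ} (hst : Star p z c) {v : Fin n} {w : ℝ × ℝ}
    (hw : ∀ a, a ≠ v → gd p w v < gd p w a) {L' : List (Fin n)} (hp : c.Perm (v :: L'))
    (hL' : L'.Pairwise (fun x y => 0 < o p v x y)) :
    Relation.ReflTransGen (U p) c (v :: L') := by
  obtain ⟨L, hrot⟩ := rot_to (hp.mem_iff.2 (by simp) : v ∈ c)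
  have hpL : L.Perm L' := (List.perm_cons v).1 (hrot.perm.symm.trans hp)
  have hnL := nodup_rot hrot hn
  have h0 := ring hpl (List.IsRotated.refl c) hrot
  refine h0.trans ?_
  cases hLe : L with
  | nil =>
    rw [hLe] at hpL
    rw [List.nil_perm.1 hpL]
  | cons x0 L1 =>
  rw [← hLe]
  have hS := hst.2 v L hrot
  have hvx0 : 0 < dz p z v x0 := by
    rw [hLe] at hrot
    exact hst.1 v x0 L1 hrot
  obtain ⟨L2, x1, hL2⟩ : ∃ L2 x1, L = L2 ++ [x1] := by
    rcases List.eq_nil_or_concat L with h1 | ⟨L2, x1, h1⟩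
    · rw [h1] at hLe
      exact absurd hLe (by simp)
    · exact ⟨L2, x1, by simpa using h1⟩
  have hvx1 : dz p z v x1 < 0 := by
    have h1 : c.IsRotated (x1 :: v :: L2) := by
      refine hrot.trans ?_
      rw [hL2]
      simpa using rot_app (v :: L2) [x1]
    have h2 := hst.1 x1 v L2 h1
    have h3 : dz p z x1 v = - dz p z v x1 := by
      unfold dz
      ring
    linarith
  -- coordinates
  obtain ⟨u1, hu1⟩ : ∃ u1, u1 = (p v).1 - z.1 := ⟨_, rfl⟩
  obtain ⟨u2, hu2⟩ : ∃ u2, u2 = (p v).2 - z.2 := ⟨_, rfl⟩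
  obtain ⟨m, hm'⟩ : ∃ m, m = u1 ^ 2 + u2 ^ 2 := ⟨_, rfl⟩
  obtain ⟨q, hq⟩ : ∃ q : Fin n → ℝ × ℝ, ∀ a, q a = (u1 * ((p a).1 - z.1) +
    u2 * ((p a).2 - z.2), u1 * ((p a).2 - z.2) - u2 * ((p a).1 - z.1)) := ⟨_, fun _ => rfl⟩
  have hm : 0 < m := by
    by_contra h1
    have k1 := sq_nonneg u1
    have k2 := sq_nonneg u2
    have h2 : u1 = 0 := by
      have : u1 ^ 2 = 0 := by linarith
      exact pow_eq_zero_iff (two_ne_zero) |>.1 this
    have h3 : u2 = 0 := by
      have : u2 ^ 2 = 0 := by linarith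
      exact pow_eq_zero_iff (two_ne_zero) |>.1 this
    unfold dz at hvx0
    rw [← hu1, ← hu2, h2, h3] at hvx0
    linarith
  have hqv : q v = (m, 0) := by
    rw [hq, ← hu1, ← hu2, hm']
    exact Prod.ext (by ring) (by ring)
  have hq2 : ∀ a, (q a).2 = dz p z v a := by
    intro a
    rw [hq]
    unfold dz
    rw [← hu1, ← hu2]
  have hdv0 : ∀ a b, dv q 0 a b = m * dz p z a b := by
    intro a b
    unfold dv dz
    rw [hq, hq, hm']
    ring
  have hoq : ∀ a b c, o q a b c = m * o p a b c := by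
    intro a b c
    unfold o
    rw [hq, hq, hq, hm']
    ring
  have hgq : GP q := by
    refine ⟨?_, ?_⟩
    · intro a b hab
      have h1 : (q a).1 = (q b).1 := by rw [hab]
      have h2 : (q a).2 = (q b).2 := by rw [hab]
      rw [hq, hq] at h1 h2
      simp only at h1 h2
      refine hgp.inj (Prod.ext ?_ ?_)
      · have h3 : m * ((p a).1 - (p b).1) = 0 := by
          rw [hm']
          linear_combination u1 * h1 - u2 * h2
        have h4 := (mul_eq_zero.1 h3).resolve_left hm.ne'
        linarith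
      · have h3 : m * ((p a).2 - (p b).2) = 0 := by
          rw [hm']
          linear_combination u2 * h1 + u1 * h2
        have h4 := (mul_eq_zero.1 h3).resolve_left hm.ne'
        linarith
    · intro a b c h1 h2 h3
      rw [hoq]
      exact mul_ne_zero hm.ne' (hgp.ne a b c h1 h2 h3)
  have hXq : ∀ a b c d, X q a b c d ↔ X p a b c d := fun a b c d => X_scale hm hoq
  -- the heights are not zero
  have hne : ∀ a ∈ L, (q a).2 ≠ 0 := by
    intro a ha
    rw [hq2]
    rw [hLe] at ha hS
    rcases List.mem_cons.1 ha with h1 | h1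
    · rw [h1]
      exact hvx0.ne'
    · rcases (List.pairwise_cons.1 hS).1 a h1 with h2 | h2
      · exact h2.2.ne
      · intro h3
        rw [h3, mul_zero] at h2
        exact lt_irrefl _ h2.1
  obtain ⟨a0, b0, ha0, hb0, ya, yb, hab⟩ : ∃ a0 b0, a0 ∈ L ∧ b0 ∈ L ∧ 0 < (q a0).2 ∧
      (q b0).2 < 0 ∧ 0 < dv q 0 a0 b0 := by
    have hx1 : x1 ∈ L := by rw [hL2]; simp
    obtain ⟨A, a, b, B, h1, h2, h3⟩ := consec (P := fun a => 0 < (q a).2) L1 x0
      (by simp only [hq2]; exact hvx0) ⟨x1, by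
        rw [hLe] at hx1
        rcases List.mem_cons.1 hx1 with h1 | h1
        · rw [h1] at hvx1
          linarith
        · exact h1, by simp only [hq2]; linarith⟩
    have h4 : L = A ++ a :: b :: B := hLe.trans h1
    have hbL : b ∈ L := by rw [h4]; simp
    refine ⟨a, b, by rw [h4]; simp, hbL, h2, ?_, ?_⟩
    · exact lt_of_le_of_ne (not_lt.1 h3) (hne b hbL)
    · rw [hdv0]
      refine mul_pos hm (hst.1 a b (B ++ v :: A) (hrot.trans ?_))
      rw [h4]
      simpa using rot_app (v :: A) (a :: b :: B)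
  have habs : ∀ s, 0 ≤ s → 0 < dv q s a0 b0 := by
    intro s hs
    have e : dv q s a0 b0 = dv q 0 a0 b0 + s * ((q a0).2 + -(q b0).2) := by
      unfold dv
      ring
    rw [e]
    have := mul_nonneg hs (by linarith : 0 ≤ (q a0).2 + -(q b0).2)
    linarith
  -- all lines from left to right pass `v` on the same side
  have hhull : ∀ a b, a ≠ v → b ≠ v → 0 < (q a).2 → (q b).2 < 0 → 0 < dv q m a b := by
    obtain ⟨W1, hW1⟩ : ∃ W1, W1 = w.1 * u1 + w.2 * u2 := ⟨_, rfl⟩
    obtain ⟨W2, hW2⟩ : ∃ W2, W2 = w.2 * u1 - w.1 * u2 := ⟨_, rfl⟩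
    have h1 : ∀ a, a ≠ v → 0 < W1 * ((q a).1 - m) + W2 * (q a).2 := by
      intro a ha
      have h2 := hw a ha
      have e : W1 * ((q a).1 - m) + W2 * (q a).2 = m * (gd p w a - gd p w v) := by
        unfold gd
        rw [hq, hW1, hW2, hm', hu1, hu2]
        ring
      rw [e]
      exact mul_pos hm (by linarith)
    have h2 : ∀ a b, a ≠ v → b ≠ v → 0 < (q a).2 → (q b).2 < 0 → W1 * dv q m a b < 0 := by
      intro a b ha hb hya hyb
      have h3 := mul_pos (neg_pos.2 hyb) (h1 a ha)
      have h4 := mul_pos hya (h1 b hb)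
      have e : -(W1 * dv q m a b) = (-(q b).2) * (W1 * ((q a).1 - m) + W2 * (q a).2) +
          (q a).2 * (W1 * ((q b).1 - m) + W2 * (q b).2) := by
        unfold dv
        ring
      linarith
    have hvL : ∀ a ∈ L, a ≠ v := by
      rintro a ha rfl
      exact (List.nodup_cons.1 hnL).1 ha
    have h3 := h2 a0 b0 (hvL a0 ha0) (hvL b0 hb0) ya yb
    have h4 := habs m hm.le
    have h5 : W1 < 0 := by
      by_contra h6
      have := mul_nonneg (not_lt.1 h6) h4.le
      linarith
    intro a b ha hb hya hyb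
    have h6 := h2 a b ha hb hya hyb
    by_contra h7
    have := mul_nonneg_of_nonpos_of_nonpos h5.le (not_lt.1 h7)
    linarith
  -- the order function
  obtain ⟨T, hT⟩ : ∃ T, T = ∑ a : Fin n, (|(q a).1| + m) / |(q a).2| := ⟨_, rfl⟩
  obtain ⟨K, hK⟩ : ∃ K, K = 2 * T + 1 := ⟨_, rfl⟩
  have hbd : ∀ s, 0 ≤ s → s ≤ m → ∀ a, |(s - (q a).1) / (q a).2| ≤ T := by
    intro s hs hs' a
    rw [abs_div]
    have h1 : |s - (q a).1| ≤ |(q a).1| + m := by
      rw [abs_le]
      have k1 := le_abs_self (q a).1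
      have k2 := neg_abs_le (q a).1
      constructor <;> linarith
    have h2 : |s - (q a).1| / |(q a).2| ≤ (|(q a).1| + m) / |(q a).2| :=
      div_le_div_of_nonneg_right h1 (abs_nonneg _)
    refine h2.trans ?_
    rw [hT]
    exact Finset.single_le_sum (f := fun a => (|(q a).1| + m) / |(q a).2|)
      (fun i _ => div_nonneg (by positivity) (abs_nonneg _)) (Finset.mem_univ a)
  obtain ⟨r, hr⟩ : ∃ r : Fin n → ℝ × ℝ, ∀ a, r a =
    (-(q a).1 / (q a).2 + (if (q a).2 < 0 then K else 0), 1 / (q a).2) := ⟨_, fun _ => rfl⟩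
  have hg : ∀ s a, gd r (1, s) a =
      (s - (q a).1) / (q a).2 + (if (q a).2 < 0 then K else 0) := by
    intro s a
    unfold gd
    rw [hr]
    simp only
    ring
  have hdvf : ∀ s a b, (q a).2 ≠ 0 → (q b).2 ≠ 0 → dv q s a b = (q a).2 * (q b).2 *
      ((s - (q b).1) / (q b).2 - (s - (q a).1) / (q a).2) := by
    intro s a b h1 h2
    unfold dv
    field_simp
    ring
  -- weakly sorted at time `s`
  have hwk : ∀ s, 0 ≤ s → s ≤ m → ∀ a b, (q a).2 ≠ 0 → (q b).2 ≠ 0 →
      gd r (1, s) a ≤ gd r (1, s) b → Wk q s a b := by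
    intro s hs hs' a b h1 h2 h3
    rw [hg, hg] at h3
    rcases lt_or_gt_of_ne h1 with ha | ha
    · rcases lt_or_gt_of_ne h2 with hb | hb
      · rw [if_pos ha, if_pos hb] at h3
        have h4 : 0 < (q a).2 * (q b).2 := mul_pos_of_neg_of_neg ha hb
        refine Or.inl ⟨h4, ?_⟩
        rw [hdvf s a b h1 h2]
        exact mul_nonneg h4.le (by linarith)
      · exfalso
        rw [if_pos ha, if_neg (not_lt.2 hb.le)] at h3
        have k1 := (abs_le.1 (hbd s hs hs' a)).1
        have k2 := (abs_le.1 (hbd s hs hs' b)).2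
        linarith
    · rcases lt_or_gt_of_ne h2 with hb | hb
      · exact Or.inr ⟨ha, hb⟩
      · rw [if_neg (not_lt.2 ha.le), if_neg (not_lt.2 hb.le)] at h3
        have h4 : 0 < (q a).2 * (q b).2 := mul_pos ha hb
        refine Or.inl ⟨h4, ?_⟩
        rw [hdvf s a b h1 h2]
        exact mul_nonneg h4.le (by linarith)
  -- strictly sorted from strict data
  have hstr : ∀ s, 0 ≤ s → s ≤ m → ∀ a b, (q a).2 ≠ 0 → (q b).2 ≠ 0 →
      ((0 < (q a).2 ∧ (q b).2 < 0) ∨ (0 < (q a).2 * (q b).2 ∧ 0 < dv q s a b)) →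
      gd r (1, s) a < gd r (1, s) b := by
    intro s hs hs' a b h1 h2 h3
    rw [hg, hg]
    rcases h3 with ⟨ha, hb⟩ | ⟨hab', h4⟩
    · rw [if_neg (not_lt.2 ha.le), if_pos hb]
      have k1 := (abs_le.1 (hbd s hs hs' a)).2
      have k2 := (abs_le.1 (hbd s hs hs' b)).1
      linarith
    · rw [hdvf s a b h1 h2] at h4
      have h5 := (pos_iff_pos_of_mul_pos h4).1 hab'
      rcases mul_pos_iff.1 hab' with ⟨ha, hb⟩ | ⟨ha, hb⟩
      · rw [if_neg (not_lt.2 ha.le), if_neg (not_lt.2 hb.le)]
        linarith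
      · rw [if_pos ha, if_pos hb]
        linarith
  have h1 : L.Pairwise (fun x y => gd r (1, 0) x < gd r (1, 0) y) := by
    refine List.Pairwise.imp_of_mem ?_ hS
    intro a b ha hb h2
    refine hstr 0 le_rfl hm.le a b (hne a ha) (hne b hb) ?_
    rw [hq2, hq2, hdv0]
    rcases h2 with h2 | h2
    · exact Or.inl h2
    · exact Or.inr ⟨h2.1, mul_pos hm h2.2⟩
  have hvL' : ∀ a ∈ L', a ≠ v := by
    rintro a ha rfl
    exact (List.nodup_cons.1 hnL).1 (hpL.mem_iff.2 ha)
  have h2 : L'.Pairwise (fun x y => gd r (1, m) x < gd r (1, m) y) := by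
    refine List.Pairwise.imp_of_mem ?_ hL'
    intro a b ha hb h3
    have hna := hne a (hpL.mem_iff.2 ha)
    have hnb := hne b (hpL.mem_iff.2 hb)
    have e : dv q m a b = m * o p v a b := by
      rw [← hoq]
      unfold dv o
      rw [hqv]
      ring
    have h4 : 0 < dv q m a b := by
      rw [e]
      exact mul_pos hm h3
    refine hstr m hm.le le_rfl a b hna hnb ?_
    rcases lt_or_gt_of_ne hna with ya' | ya'
    · rcases lt_or_gt_of_ne hnb with yb' | yb'
      · exact Or.inr ⟨mul_pos_of_neg_of_neg ya' yb', h4⟩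
      · exfalso
        have h5 := hhull b a (hvL' b hb) (hvL' a ha) yb' ya'
        rw [dv_neg] at h5
        linarith
    · rcases lt_or_gt_of_ne hnb with yb' | yb'
      · exact Or.inl ⟨ya', yb'⟩
      · exact Or.inr ⟨mul_pos ya' yb', h4⟩
  have hsw := sweepS hpL h1 h2
  -- planarity at a time `s`
  have hplane : ∀ (M : List (Fin n)) (s : ℝ), M.Perm L → 0 ≤ s → s < m →
      M.Pairwise (fun x y => gd r (1, s) x ≤ gd r (1, s) y) → Plane p (Nb (v :: M)) := by
    intro M s hM hs hs' hMs
    have h3 : Plane q (Nb (v :: M)) := by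
      refine rad_plane hgq hqv hs' (((List.perm_cons v).2 hM).nodup_iff.2 hnL) ?_
        (hM.mem_iff.2 ha0) (hM.mem_iff.2 hb0) ya yb (habs s hs)
      refine List.Pairwise.imp_of_mem ?_ hMs
      intro a b ha hb h4
      exact hwk s hs hs'.le a b (hne a (hM.mem_iff.1 ha)) (hne b (hM.mem_iff.1 hb)) h4
    intro a b x y h4 h5 hX
    exact h3 a b x y h4 h5 ((hXq a b x y).2 hX)
  have hall : ∀ M : List (Fin n), Relation.ReflTransGen (Tsm r (1, 0) (1, m)) L M →
      M.Perm L ∧ Relation.ReflTransGen (U p) (v :: L) (v :: M) := by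
    intro M hM
    induction hM with
    | refl => exact ⟨List.Perm.refl _, Relation.ReflTransGen.refl⟩
    | @tail M M' _ hstep ih =>
      obtain ⟨A, B, a, b, t, ht0, ht1, e1, e2, e3, hMs⟩ := hstep
      have hgt : ∀ x, (1 - t) * gd r (1, 0) x + t * gd r (1, m) x = gd r (1, t * m) x := by
        intro x
        rw [hg, hg, hg]
        ring
      have hs0 : 0 ≤ t * m := mul_nonneg ht0 hm.le
      have hs1 : t * m < m := by nlinarith
      simp only [hgt] at e3 hMs
      have hMM : M'.Perm M := by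
        rw [e1, e2]
        exact List.Perm.append_left A (List.Perm.swap a b B)
      have hMs' : M'.Pairwise (fun x y => gd r (1, t * m) x ≤ gd r (1, t * m) y) := by
        rw [e1] at hMs
        rw [e2]
        obtain ⟨g1, g2, g3⟩ := List.pairwise_append.1 hMs
        obtain ⟨g4, g5⟩ := List.pairwise_cons.1 g2
        obtain ⟨g6, g7⟩ := List.pairwise_cons.1 g5
        refine List.pairwise_append.2 ⟨g1, ?_, ?_⟩
        · refine List.Pairwise.cons ?_ (List.Pairwise.cons ?_ g7)
          · intro y hy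
            rcases List.mem_cons.1 hy with g8 | g8
            · rw [g8]
              exact e3.ge
            · exact g6 y g8
          · intro y hy
            exact g4 y (List.mem_cons_of_mem _ hy)
        · intro x hx y hy
          refine g3 x hx y ?_
          simp only [List.mem_cons] at hy ⊢
          tauto
      have p1 := hplane M (t * m) ih.1 hs0 hs1 hMs
      have p2 := hplane M' (t * m) (hMM.trans ih.1) hs0 hs1 hMs'
      refine ⟨hMM.trans ih.1, ih.2.trans ?_⟩
      refine swap (E := B ++ v :: A) (a := a) (b := b) ?_ p1 p2 ?_ ?_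
      · exact ((List.perm_cons v).2 (hMM.trans ih.1)).nodup_iff.2 hnL
      · rw [e1]
        simpa using rot_app (v :: A) (a :: b :: B)
      · rw [e2]
        simpa using rot_app (v :: A) (b :: a :: B)
  exact (hall L' hsw).2

end FPR
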