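import Pool.Agent.Lib.MP_deef39_co_PR.Mono
import Pool.Agent.Lib.MP_deef39_co_Dsm.Main

/-! # PR module StarC: a hull vertex, and the path sorted around it -/

set_option autoImplicit false

namespace FPR

open FPW

variable {α : Type*} {p : α → ℝ × ℝ}

/-- some point is strictly first in some direction -/
theorem hull_vertex [Finite α] [Nonempty α] (hinj : Function.Injective p) :
    ∃ (v : α) (w : ℝ × ℝ), ∀ a, a ≠ v → gd p w v < gd p w a := by
  obtain ⟨v, hv⟩ := Finite.exists_max (fun a : α => (p a).1 * (p a).1 + (p a).2 * (p a).2)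
  refine ⟨v, (-(p v).1, -(p v).2), ?_⟩
  intro a ha
  have h1 := hv a
  have h2 : p a ≠ p v := fun h => ha (hinj h)
  have h3 : 0 < ((p a).1 - (p v).1) * ((p a).1 - (p v).1) +
      ((p a).2 - (p v).2) * ((p a).2 - (p v).2) := by
    by_contra h4
    have h5 : (p a).1 - (p v).1 = 0 := by
      nlinarith [mul_self_nonneg ((p a).1 - (p v).1), mul_self_nonneg ((p a).2 - (p v).2)]
    have h6 : (p a).2 - (p v).2 = 0 := by
      nlinarith [mul_self_nonneg ((p a).1 - (p v).1), mul_self_nonneg ((p a).2 - (p v).2)]
    exact h2 (Prod.ext (by linarith) (by linarith))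
  unfold gd
  simp only
  nlinarith

/-- the path which starts at a hull vertex `v` and visits the others in their order around `v` -/
theorem fan_si {v : α} {w : ℝ × ℝ} {L : List α} (hv : ∀ a ∈ L, gd p w v < gd p w a)
    (hL : L.Pairwise (fun x y => 0 < o p v x y)) : Dsm.SI p (v :: L) := by
  refine ⟨⟨(w.2, -w.1), ?_⟩, ?_⟩
  · intro t ht
    have h2 := hv t ht
    unfold gd at h2
    unfold cr
    simp only
    linarith
  · clear hv
    induction L with
    | nil => trivial
    | cons x L ih =>
      have h1 := List.pairwise_cons.1 hL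
      refine ⟨⟨((p x).1 - (p v).1, (p x).2 - (p v).2), ?_⟩, ih h1.2⟩
      intro t ht
      have h2 := h1.1 t ht
      unfold o at h2
      unfold cr
      simp only
      linarith

end FPR
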