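import Pool.Agent.Lib.MP_deef39_co_PR.Star
import Pool.Agent.Lib.MP_deef39_co_PR.StarC

/-! # PR module StarS: a star-shaped polygon is connected with a suffix-independent path -/

set_option autoImplicit false

namespace FPR

open FPW

/-- a star-shaped polygon is connected with a suffix-independent path -/
theorem star_si {n : ℕ} {p : Fin n → ℝ × ℝ} (hgp : GP p) {c : List (Fin n)} (hn : c.Nodup)
    (hall : ∀ v, v ∈ c) (hpl : Plane p (Nb c)) {z : ℝ × ℝ} (hst : Star p z c) :
    ∃ l : List (Fin n), l.Nodup ∧ (∀ v, v ∈ l) ∧ Dsm.SI p l ∧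
      Relation.ReflTransGen (U p) c l := by
  rcases Nat.eq_zero_or_pos n with h0 | h0
  · subst h0
    refine ⟨[], List.nodup_nil, fun v => v.elim0, trivial, ?_⟩
    have : c = [] := List.eq_nil_iff_forall_not_mem.2 fun v => v.elim0
    rw [this]
  · obtain ⟨v, w, hw⟩ := exists_hull hgp.inj (⟨0, h0⟩ : Fin n)
    obtain ⟨E, hE⟩ := rot_to (hall v)
    have hnE := nodup_rot hE hn
    obtain ⟨L, h1, h2⟩ := exists_round hgp hw hnE
    have h3 : c.Perm (v :: L) := hE.perm.trans ((List.perm_cons v).2 h1.symm)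
    refine ⟨v :: L, h3.nodup_iff.1 hn, fun x => h3.mem_iff.1 (hall x), ?_,
      star_to hgp hn hpl hst hw h3 h2⟩
    refine fan_si (w := w) ?_ h2
    intro a ha
    refine hw a ?_
    rintro rfl
    exact (List.nodup_cons.1 hnE).1 (h1.mem_iff.1 ha)

end FPR
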